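import Pool.Agent.Lib.MP_b8b21d_al.SK.Defs

/-!
Basic facts on skew group rings: coefficients of products, the functionals `ev`, the action `act`,
the Hadamard products `had`.

PROOFS. All maps are additive in `x` (write them as `Finsupp.sum` of additive functions, or build
`AddMonoidHom`s with `Finsupp.liftAddHom`), and `R` is additively generated by the `s • u g`
(`S.basis.repr.symm (single g s) = s • u g`; `Finsupp.induction_linear` through `S.basis.repr`, or
`Module.Basis.sum_repr`/`linearCombination_repr`). For `s • u g`, `t • u h`: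
`(s • u g) * (t • u h) = s • (u g * (t • 1) * u h) = (s * (g • t)) • u (g h)` (`comm`, `smul_mul_assoc`, and
`t • u h = (t • 1) * u h`). Everything is then a computation on these elements.
-/

namespace PrimRank

namespace Skew

variable {k G R : Type*} [Field k] [Group G] [MulSemiringAction G k] [Ring R] [Module k R]
  [IsScalarTower k R R] (S : Skew k G R)

theorem repr_smul_u (s : k) (g : G) : S.basis.repr (s • S.u g) = Finsupp.single g s := by
  rw [map_smul, ← S.basis_apply, Module.Basis.repr_self, Finsupp.smul_single, smul_eq_mul, mul_one]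

theorem repr_u (g : G) : S.basis.repr (S.u g) = Finsupp.single g 1 := by
  have h := S.repr_smul_u 1 g
  rwa [one_smul] at h

theorem repr_one : S.basis.repr (1 : R) = Finsupp.single 1 1 := by
  rw [← S.u.map_one]
  exact S.repr_u 1

/-- Induction principle. -/
theorem induction_on {p : R → Prop} (x : R) (h0 : p 0) (hadd : ∀ x y, p x → p y → p (x + y))
    (hs : ∀ (s : k) (g : G), p (s • S.u g)) : p x := by
  have key : ∀ f : G →₀ k, p (Finsupp.linearCombination k S.basis f) := by
    intro f
    induction f using Finsupp.induction_linear with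
    | zero => rw [map_zero]; exact h0
    | add f g hf hg => rw [map_add]; exact hadd _ _ hf hg
    | single g s => rw [Finsupp.linearCombination_single, S.basis_apply]; exact hs s g
  have h := key (S.basis.repr x)
  rwa [S.basis.linearCombination_repr x] at h

theorem ext_coeff {x y : R} (h : ∀ g, S.basis.repr x g = S.basis.repr y g) : x = y := by
  exact S.basis.repr.injective (Finsupp.ext h)

theorem smul_mul_smul' (s t : k) (g h : G) :
    (s • S.u g) * (t • S.u h) = (s * (g • t)) • S.u (g * h) := by
  have h1 : t • S.u h = (t • (1 : R)) * S.u h := by rw [smul_mul_assoc, one_mul]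
  rw [h1, smul_mul_assoc, ← mul_assoc, S.comm, smul_mul_assoc, ← map_mul, smul_smul]

private theorem A1_u_mul (g : G) (s : k) (h : G) :
    S.u g * (s • S.u h) = (g • s) • S.u (g * h) := by
  have h1 := S.smul_mul_smul' 1 s g h
  rwa [one_smul, one_mul] at h1

private theorem A1_mul_scalar (s : k) (g : G) (e : k) :
    (s • S.u g) * (e • (1 : R)) = (s * (g • e)) • S.u g := by
  have h1 := S.smul_mul_smul' s e g 1
  rwa [map_one, mul_one] at h1

private theorem A1_ev_smul_u (χ : G → k) (s : k) (g : G) : S.ev χ (s • S.u g) = s * χ g := by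
  unfold ev
  rw [S.repr_smul_u, Finsupp.sum_single_index (zero_mul _)]

private theorem A1_act_smul_u (s : k) (g : G) (t : k) : S.act (s • S.u g) t = s * (g • t) :=
  S.A1_ev_smul_u _ s g

private theorem A1_had_add (χ : G → k) (x y : R) : S.had χ (x + y) = S.had χ x + S.had χ y := by
  unfold had
  rw [map_add, Finsupp.sum_add_index' (fun g => by rw [zero_mul, zero_smul])
    (fun g a b => by rw [add_mul, add_smul])]

private theorem A1_had_zero (χ : G → k) : S.had χ (0 : R) = 0 := by
  unfold had
  rw [map_zero, Finsupp.sum_zero_index]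

private theorem A1_had_smul_u (χ : G → k) (s : k) (g : G) :
    S.had χ (s • S.u g) = (s * χ g) • S.u g := by
  unfold had
  rw [S.repr_smul_u, Finsupp.sum_single_index (by rw [zero_mul, zero_smul])]

theorem repr_u_mul (g : G) (x : R) (h : G) :
    S.basis.repr (S.u g * x) h = g • S.basis.repr x (g⁻¹ * h) := by
  induction x using S.induction_on with
  | h0 => rw [mul_zero, map_zero]; simp
  | hadd x y hx hy =>
    rw [mul_add, map_add, map_add, Finsupp.add_apply, Finsupp.add_apply, hx, hy, smul_add]
  | hs s g' =>
    rw [A1_u_mul, S.repr_smul_u, S.repr_smul_u]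
    by_cases hh : g * g' = h
    · subst hh
      rw [Finsupp.single_eq_same, inv_mul_cancel_left, Finsupp.single_eq_same]
    · have h2 : g' ≠ g⁻¹ * h := fun e => hh (by rw [e, mul_inv_cancel_left])
      rw [Finsupp.single_eq_of_ne' hh, Finsupp.single_eq_of_ne' h2, smul_zero]

theorem repr_mul_scalar (x : R) (e : k) (h : G) :
    S.basis.repr (x * (e • (1 : R))) h = S.basis.repr x h * (h • e) := by
  induction x using S.induction_on with
  | h0 => rw [zero_mul, map_zero]; simp
  | hadd x y hx hy =>
    rw [add_mul, map_add, map_add, Finsupp.add_apply, Finsupp.add_apply, hx, hy, add_mul]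
  | hs s g =>
    rw [A1_mul_scalar, S.repr_smul_u, S.repr_smul_u]
    by_cases hh : g = h
    · subst hh
      rw [Finsupp.single_eq_same, Finsupp.single_eq_same]
    · rw [Finsupp.single_eq_of_ne' hh, Finsupp.single_eq_of_ne' hh, zero_mul]

theorem ev_add (χ : G → k) (x y : R) : S.ev χ (x + y) = S.ev χ x + S.ev χ y := by
  unfold ev
  rw [map_add, Finsupp.sum_add_index' (fun g => zero_mul _) (fun g a b => add_mul _ _ _)]

theorem ev_zero (χ : G → k) : S.ev χ (0 : R) = 0 := by
  unfold ev
  rw [map_zero, Finsupp.sum_zero_index]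

theorem ev_sub (χ : G → k) (x y : R) : S.ev χ (x - y) = S.ev χ x - S.ev χ y := by
  have h := S.ev_add χ (x - y) y
  rw [sub_add_cancel] at h
  rw [h, add_sub_cancel_right]

theorem ev_smul (χ : G → k) (s : k) (x : R) : S.ev χ (s • x) = s * S.ev χ x := by
  induction x using S.induction_on with
  | h0 => rw [smul_zero, S.ev_zero, mul_zero]
  | hadd x y hx hy => rw [smul_add, S.ev_add, S.ev_add, hx, hy, mul_add]
  | hs s' g => rw [smul_smul, A1_ev_smul_u, A1_ev_smul_u, mul_assoc]

theorem ev_u (χ : G → k) (g : G) : S.ev χ (S.u g) = χ g := by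
  have h := S.A1_ev_smul_u χ 1 g
  rwa [one_smul, one_mul] at h

theorem ev_u_mul (χ : G → k) (g : G) (x : R) :
    S.ev χ (S.u g * x) = g • S.ev (fun h => g⁻¹ • χ (g * h)) x := by
  induction x using S.induction_on with
  | h0 => rw [mul_zero, S.ev_zero, S.ev_zero, smul_zero]
  | hadd x y hx hy => rw [mul_add, S.ev_add, S.ev_add, hx, hy, smul_add]
  | hs s h => rw [A1_u_mul, A1_ev_smul_u, A1_ev_smul_u, smul_mul', smul_inv_smul]

theorem ev_mul_scalar (χ : G → k) (x : R) (e : k) :
    S.ev χ (x * (e • (1 : R))) = S.ev (fun g => χ g * (g • e)) x := by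
  induction x using S.induction_on with
  | h0 => rw [zero_mul, S.ev_zero, S.ev_zero]
  | hadd x y hx hy => rw [add_mul, S.ev_add, S.ev_add, hx, hy]
  | hs s h =>
    rw [A1_mul_scalar, A1_ev_smul_u, A1_ev_smul_u]
    ring

theorem ev_add_fun (χ χ' : G → k) (x : R) :
    S.ev (fun g => χ g + χ' g) x = S.ev χ x + S.ev χ' x := by
  unfold ev
  rw [← Finsupp.sum_add]
  exact Finsupp.sum_congr fun g _ => mul_add _ _ _

theorem ev_smul_fun (s : k) (χ : G → k) (x : R) :
    S.ev (fun g => s * χ g) x = s * S.ev χ x := by
  induction x using S.induction_on with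
  | h0 => rw [S.ev_zero, S.ev_zero, mul_zero]
  | hadd x y hx hy => rw [S.ev_add, S.ev_add, hx, hy, mul_add]
  | hs s' h =>
    rw [A1_ev_smul_u, A1_ev_smul_u]
    ring

theorem act_add (x y : R) (t : k) : S.act (x + y) t = S.act x t + S.act y t := by
  exact S.ev_add _ x y

theorem act_zero (t : k) : S.act (0 : R) t = 0 := by
  exact S.ev_zero _

theorem act_sub (x y : R) (t : k) : S.act (x - y) t = S.act x t - S.act y t := by
  exact S.ev_sub _ x y

theorem act_one (t : k) : S.act (1 : R) t = t := by
  have h := S.ev_u (fun g => g • t) 1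
  rw [map_one, one_smul] at h
  exact h

theorem act_u (g : G) (t : k) : S.act (S.u g) t = g • t := by
  exact S.ev_u _ g

theorem act_mul (x y : R) (t : k) : S.act (x * y) t = S.act x (S.act y t) := by
  induction x using S.induction_on with
  | h0 => rw [zero_mul, S.act_zero, S.act_zero]
  | hadd x x' hx hx' => rw [add_mul, S.act_add, S.act_add, hx, hx']
  | hs s g =>
    rw [A1_act_smul_u]
    induction y using S.induction_on with
    | h0 => rw [mul_zero, S.act_zero, smul_zero, mul_zero]
    | hadd y y' hy hy' => rw [mul_add, S.act_add, S.act_add, hy, hy', smul_add, mul_add]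
    | hs s' h =>
      rw [S.smul_mul_smul', A1_act_smul_u, A1_act_smul_u, smul_mul', mul_smul, mul_assoc]

theorem act_scalar (e t : k) : S.act (e • (1 : R)) t = e * t := by
  have h := S.A1_act_smul_u e 1 t
  rwa [map_one, one_smul] at h

theorem act_zero_right (x : R) : S.act x 0 = 0 := by
  induction x using S.induction_on with
  | h0 => rw [S.act_zero]
  | hadd x y hx hy => rw [S.act_add, hx, hy, add_zero]
  | hs s g => rw [A1_act_smul_u, smul_zero, mul_zero]

theorem repr_had (χ : G → k) (x : R) (g : G) :
    S.basis.repr (S.had χ x) g = S.basis.repr x g * χ g := by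
  induction x using S.induction_on with
  | h0 => rw [A1_had_zero, map_zero]; simp
  | hadd x y hx hy =>
    rw [A1_had_add, map_add, map_add, Finsupp.add_apply, Finsupp.add_apply, hx, hy, add_mul]
  | hs s h =>
    rw [A1_had_smul_u, S.repr_smul_u, S.repr_smul_u]
    by_cases hh : h = g
    · subst hh
      rw [Finsupp.single_eq_same, Finsupp.single_eq_same]
    · rw [Finsupp.single_eq_of_ne' hh, Finsupp.single_eq_of_ne' hh, zero_mul]

theorem had_add (χ : G → k) (x y : R) : S.had χ (x + y) = S.had χ x + S.had χ y := by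
  exact S.A1_had_add χ x y

theorem had_zero (χ : G → k) : S.had χ (0 : R) = 0 := by
  exact S.A1_had_zero χ

theorem had_smul (χ : G → k) (s : k) (x : R) : S.had χ (s • x) = s • S.had χ x := by
  refine S.ext_coeff fun g => ?_
  rw [S.repr_had, map_smul, map_smul, Finsupp.smul_apply, Finsupp.smul_apply, S.repr_had,
    smul_eq_mul, smul_eq_mul, mul_assoc]

theorem had_u_mul (χ : G → k) (g : G) (x : R) :
    S.had χ (S.u g * x) = S.u g * S.had (fun h => g⁻¹ • χ (g * h)) x := by
  refine S.ext_coeff fun h => ?_
  rw [S.repr_had, S.repr_u_mul, S.repr_u_mul, S.repr_had, smul_mul', smul_inv_smul,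
    mul_inv_cancel_left]

theorem had_mul_scalar (χ : G → k) (x : R) (e : k) :
    S.had χ (x * (e • (1 : R))) = S.had χ x * (e • (1 : R)) := by
  refine S.ext_coeff fun h => ?_
  rw [S.repr_had, S.repr_mul_scalar, S.repr_mul_scalar, S.repr_had]
  ring

theorem ev_had (χ χ' : G → k) (x : R) :
    S.ev χ' (S.had χ x) = S.ev (fun g => χ g * χ' g) x := by
  induction x using S.induction_on with
  | h0 => rw [S.had_zero, S.ev_zero, S.ev_zero]
  | hadd x y hx hy => rw [S.had_add, S.ev_add, S.ev_add, hx, hy]
  | hs s h => rw [A1_had_smul_u, A1_ev_smul_u, A1_ev_smul_u, mul_assoc]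

/-- A `k`-subspace is the annihilator of its annihilator. -/
theorem mem_of_forall_ev (P : Submodule R R) (x : R)
    (h : ∀ χ : G → k, (∀ y ∈ P, S.ev χ y = 0) → S.ev χ x = 0) : x ∈ P := by
  by_contra hx
  let P' : Submodule k R :=
    { carrier := (P : Set R)
      zero_mem' := P.zero_mem
      add_mem' := fun ha hb => P.add_mem ha hb
      smul_mem' := by
        intro c y hy
        have h1 : c • y = (c • (1 : R)) • y := by rw [smul_eq_mul, smul_mul_assoc, one_mul]
        rw [h1]
        exact P.smul_mem _ hy }
  have hx' : x ∉ P' := hx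
  obtain ⟨f, hfx, hf⟩ := Submodule.exists_le_ker_of_notMem hx'
  have key : ∀ y : R, S.ev (fun g => f (S.u g)) y = f y := by
    intro y
    induction y using S.induction_on with
    | h0 => rw [S.ev_zero, map_zero]
    | hadd y y' hy hy' => rw [S.ev_add, map_add, hy, hy']
    | hs s g => rw [A1_ev_smul_u, map_smul, smul_eq_mul]
  refine hfx ?_
  rw [← key x]
  refine h _ fun y hy => ?_
  rw [key y]
  exact hf hy

end Skew

end PrimRank
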