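import Pool.Agent.Lib.MP_b8b21d_al.SK.A1

/-!
The anti-automorphism of a skew group ring.

PROOFS. `anti` is additive; check the products on `s • u g`, `t • u h` (`Skew.induction_on`):
`anti ((s • u g) (t • u h)) = anti ((s * g • t) • u (g h)) = ((g h)⁻¹ • (s * g • t)) • u (g h)⁻¹`
`= ((h⁻¹ g⁻¹ • s) * (h⁻¹ • t)) • (u h⁻¹ * u g⁻¹)` and
`anti (t • u h) * anti (s • u g) = ((h⁻¹ • t) • u h⁻¹) * ((g⁻¹ • s) • u g⁻¹)`, the same by
`smul_mul_smul'`.
-/

namespace PrimRank

namespace Skew

variable {k G R : Type*} [Field k] [Group G] [MulSemiringAction G k] [Ring R] [Module k R]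
  [IsScalarTower k R R] (S : Skew k G R)

theorem anti_add (x y : R) : S.anti (x + y) = S.anti x + S.anti y := by
  unfold anti
  rw [map_add, Finsupp.sum_add_index']
  · intro g
    rw [smul_zero, zero_smul]
  · intro g s t
    rw [smul_add, add_smul]

theorem anti_zero : S.anti (0 : R) = 0 := by
  unfold anti
  rw [map_zero, Finsupp.sum_zero_index]

theorem anti_neg (x : R) : S.anti (-x) = -S.anti x := by
  have h := S.anti_add x (-x)
  rw [add_neg_cancel, S.anti_zero] at h
  exact (neg_eq_of_add_eq_zero_right h.symm).symm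

theorem anti_sum {ι : Type*} (s : Finset ι) (f : ι → R) :
    S.anti (∑ i ∈ s, f i) = ∑ i ∈ s, S.anti (f i) := by
  classical
  induction s using Finset.induction_on with
  | empty => rw [Finset.sum_empty, Finset.sum_empty, S.anti_zero]
  | insert a s ha ih => rw [Finset.sum_insert ha, Finset.sum_insert ha, S.anti_add, ih]

theorem anti_smul_u (s : k) (g : G) : S.anti (s • S.u g) = (g⁻¹ • s) • S.u g⁻¹ := by
  unfold anti
  rw [S.repr_smul_u, Finsupp.sum_single_index]
  rw [smul_zero, zero_smul]

theorem anti_u (g : G) : S.anti (S.u g) = S.u g⁻¹ := by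
  have h := S.anti_smul_u 1 g
  rwa [one_smul, smul_one, one_smul] at h

theorem anti_one : S.anti (1 : R) = 1 := by
  have h := S.anti_u 1
  rwa [inv_one, map_one] at h

theorem anti_scalar (s : k) : S.anti (s • (1 : R)) = s • (1 : R) := by
  have h := S.anti_smul_u s 1
  rwa [inv_one, map_one, one_smul] at h

theorem anti_mul (x y : R) : S.anti (x * y) = S.anti y * S.anti x := by
  refine S.induction_on (p := fun x => S.anti (x * y) = S.anti y * S.anti x) x ?_ ?_ ?_
  · rw [zero_mul, S.anti_zero, mul_zero]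
  · intro x x' hx hx'
    rw [add_mul, S.anti_add, hx, hx', S.anti_add, mul_add]
  · intro s g
    refine S.induction_on (p := fun y => S.anti ((s • S.u g) * y) = S.anti y *
      S.anti (s • S.u g)) y ?_ ?_ ?_
    · rw [mul_zero, S.anti_zero, zero_mul]
    · intro y y' hy hy'
      rw [mul_add, S.anti_add, hy, hy', S.anti_add, add_mul]
    · intro t h
      have e : (g * h)⁻¹ • (s * g • t) = (h⁻¹ • t) * (h⁻¹ • (g⁻¹ • s)) := by
        rw [mul_inv_rev, smul_mul', SemigroupAction.mul_smul, SemigroupAction.mul_smul,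
          inv_smul_smul, mul_comm]
      rw [S.smul_mul_smul', S.anti_smul_u, S.anti_smul_u, S.anti_smul_u, S.smul_mul_smul', e,
        mul_inv_rev]

theorem anti_anti (x : R) : S.anti (S.anti x) = x := by
  refine S.induction_on (p := fun x => S.anti (S.anti x) = x) x ?_ ?_ ?_
  · rw [S.anti_zero, S.anti_zero]
  · intro x x' hx hx'
    rw [S.anti_add, S.anti_add, hx, hx']
  · intro s g
    rw [S.anti_smul_u, S.anti_smul_u, inv_inv, smul_inv_smul]

end Skew

end PrimRank
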