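import Pool.Agent.Lib.MP_b8b21d_al.SK.T1

/-!
The sum of the generic twists is closed under multiplication with the functions that annihilate it.

PROOF. Let `T` be the ideal. The set `{x ∈ T | ∀ χ, (∀ y ∈ T, ev χ y = 0) → had χ x ∈ T}` is a left ideal: it is
closed under addition (`had_add`), under `s • _` (`had_smul`), and under `u g * _`:
`had χ (u g * x) = u g * had χ' x` with `χ' h = g⁻¹ • χ (g * h)`, and `χ'` also annihilates `T`, because
`ev χ (u g * y) = g • ev χ' y` and `u g * y ∈ T`; `R` is additively generated by the `s • u g = (s • 1) * u g`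
(`Skew.induction_on`). It contains the generators `b l * (ψ i • 1)` (`tw_span`): for such `χ`,
`had χ (b l * (ψ i • 1)) = had χ (b l) * (ψ i • 1)` and `had χ (b l) ∈ I` by `hb`, as
`ev χ (b l * (ψ i' • 1)) = 0` for all `i'`. The same for `c l * (φ i • 1)`.
-/

namespace PrimRank

namespace Skew

variable {k G R : Type*} [Field k] [Group G] [MulSemiringAction G k] [Ring R] [Module k R]
  [IsScalarTower k R R] (S : Skew k G R)

theorem had_closed {m n : ℕ} (b c : Fin m → R) (ψ φ : Fin n → k)
    (hb : ∀ l (χ : G → k), (∀ i, S.ev χ (b l * (ψ i • (1 : R))) = 0) →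
      S.had χ (b l) ∈ Submodule.span R (Set.range b))
    (hc : ∀ l (χ : G → k), (∀ i, S.ev χ (c l * (φ i • (1 : R))) = 0) →
      S.had χ (c l) ∈ Submodule.span R (Set.range c))
    (T : Submodule R R) (hT : T = (⨆ i, tw (Submodule.span R (Set.range b)) (ψ i)) ⊔
      ⨆ i, tw (Submodule.span R (Set.range c)) (φ i))
    (χ : G → k) (hχ : ∀ y ∈ T, S.ev χ y = 0) (x : R) (hx : x ∈ T) : S.had χ x ∈ T := by
  have smulT : ∀ (s : k) (y : R), y ∈ T → s • y ∈ T := by
    intro s y hy
    have h1 : s • y = (s • (1 : R)) • y := by rw [smul_eq_mul, smul_mul_assoc, one_mul]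
    rw [h1]
    exact T.smul_mem _ hy
  have uT : ∀ (g : G) (y : R), y ∈ T → S.u g * y ∈ T := fun g y hy => T.smul_mem (S.u g) hy
  let J : Submodule R R :=
    { carrier := {x | x ∈ T ∧ ∀ χ : G → k, (∀ y ∈ T, S.ev χ y = 0) → S.had χ x ∈ T}
      zero_mem' := ⟨T.zero_mem, fun χ _ => by rw [S.had_zero]; exact T.zero_mem⟩
      add_mem' := by
        rintro x y ⟨hx, hx'⟩ ⟨hy, hy'⟩
        exact ⟨T.add_mem hx hy, fun χ h => by rw [S.had_add]; exact T.add_mem (hx' χ h) (hy' χ h)⟩
      smul_mem' := by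
        rintro r x ⟨hx, hx'⟩
        refine ⟨T.smul_mem r hx, ?_⟩
        rw [smul_eq_mul]
        induction r using S.induction_on with
        | h0 =>
          intro χ _
          rw [zero_mul, S.had_zero]
          exact T.zero_mem
        | hadd r r' hr hr' =>
          intro χ h
          rw [add_mul, S.had_add]
          exact T.add_mem (hr χ h) (hr' χ h)
        | hs s g =>
          intro χ h
          rw [smul_mul_assoc, S.had_smul, S.had_u_mul]
          refine smulT _ _ (uT _ _ (hx' _ fun y hy => ?_))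
          have h2 := h _ (uT g y hy)
          rw [S.ev_u_mul] at h2
          exact (smul_eq_zero_iff_eq g).mp h2 }
  have hbT : ∀ i, tw (Submodule.span R (Set.range b)) (ψ i) ≤ T := fun i => by
    rw [hT]
    exact le_sup_of_le_left (le_iSup (fun i => tw (Submodule.span R (Set.range b)) (ψ i)) i)
  have hcT : ∀ i, tw (Submodule.span R (Set.range c)) (φ i) ≤ T := fun i => by
    rw [hT]
    exact le_sup_of_le_right (le_iSup (fun i => tw (Submodule.span R (Set.range c)) (φ i)) i)
  have hbl : ∀ l i, b l * (ψ i • (1 : R)) ∈ T := fun l i =>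
    hbT i ⟨b l, Submodule.subset_span ⟨l, rfl⟩, rfl⟩
  have hcl : ∀ l i, c l * (φ i • (1 : R)) ∈ T := fun l i =>
    hcT i ⟨c l, Submodule.subset_span ⟨l, rfl⟩, rfl⟩
  have hJ : T ≤ J := by
    conv_lhs => rw [hT]
    refine sup_le (iSup_le fun i => ?_) (iSup_le fun i => ?_)
    · rw [tw_span]
      refine Submodule.span_le.mpr ?_
      rintro _ ⟨l, rfl⟩
      refine ⟨hbl l i, fun χ h => ?_⟩
      show S.had χ (b l * (ψ i • (1 : R))) ∈ T
      rw [S.had_mul_scalar]
      exact hbT i ⟨S.had χ (b l), hb l χ (fun i' => h _ (hbl l i')), rfl⟩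
    · rw [tw_span]
      refine Submodule.span_le.mpr ?_
      rintro _ ⟨l, rfl⟩
      refine ⟨hcl l i, fun χ h => ?_⟩
      show S.had χ (c l * (φ i • (1 : R))) ∈ T
      rw [S.had_mul_scalar]
      exact hcT i ⟨S.had χ (c l), hc l χ (fun i' => h _ (hcl l i')), rfl⟩
  exact (hJ hx).2 χ hχ

end Skew

end PrimRank
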