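import Pool.Agent.Lib.MP_b8b21d_al.SK.T1

/-!
Left coideals: an ideal in the augmentation ideal, closed under multiplication with the functions
that annihilate it, is the ideal of a subgroup.

PROOF. Let `𝒮 = {χ : G → k | ∀ y ∈ T, ev χ y = 0}`. It is a `k`-subspace of the functions (`ev_add_fun`,
`ev_smul_fun`), contains the constant functions (`T ≤ annS 1`: `act x 1 = ev (fun g => g • 1) x = ev 1 x = 0`),
is closed under products (`ev (χ χ') y = ev χ' (had χ y) = 0` as `had χ y ∈ T`), and under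
`χ ↦ χ^g = (h ↦ g⁻¹ • χ (g * h))` (`ev_u_mul`). `H = {h | u h - 1 ∈ T}` is a subgroup
(`u (h h') - 1 = u h * (u h' - 1) + (u h - 1)`, `u h⁻¹ - 1 = - u h⁻¹ * (u h - 1)`). By `mem_of_forall_ev`,
`h ∈ H` iff `χ h = χ 1` for all `χ ∈ 𝒮`. So if `g⁻¹ * g' ∉ H` there is `χ ∈ 𝒮` with `χ g ≠ χ g'` (take
`χ₀ ∈ 𝒮` with `χ₀ (g⁻¹ g') ≠ χ₀ 1` and `χ = χ₀^(g⁻¹)`, `χ h = g • χ₀ (g⁻¹ h)`), and if `g⁻¹ * g' ∈ H` all
`χ ∈ 𝒮` have `χ g = χ g'` (`u g' - u g = u g * (u (g⁻¹ g') - 1) ∈ T`).
Let `x = ∑ s_g u g ∈ T`; induction on the size of its support. If `x ≠ 0` choose `g₀` in the support, let `C` be the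
set of the `g` in the support with `g₀⁻¹ * g ∈ H`. The product `χ` over the `a` in the support outside `C` of
`(χ_a - χ_a a) / (χ_a g₀ - χ_a a)` is in `𝒮`, is `1` on `C` and `0` outside `C` (in the support). So
`x_C = had χ x = ∑_{g ∈ C} s_g u g ∈ T`. As `ev 1 x_C = 0`: `∑_{g ∈ C} s_g = 0`, so
`x_C = ∑_{g ∈ C} s_g (u g - u g₀) = ∑ s_g u g₀ (u (g₀⁻¹ g) - 1)` is in the span of the `u h - 1`, `h ∈ H`. Now use the
induction hypothesis for `x - x_C ∈ T`.
-/

namespace PrimRank

namespace Skew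

variable {k G R : Type*} [Field k] [Group G] [MulSemiringAction G k] [Ring R] [Module k R]
  [IsScalarTower k R R] (S : Skew k G R)

private theorem C2_expand (y : R) :
    y = ∑ g ∈ (S.basis.repr y).support, S.basis.repr y g • S.u g := by
  conv_lhs => rw [← S.basis.linearCombination_repr y]
  rw [Finsupp.linearCombination_apply, Finsupp.sum]
  exact Finset.sum_congr rfl fun g _ => by rw [S.basis_apply]

private theorem C2_ev_one (y : R) :
    S.ev (fun _ => 1) y = ∑ g ∈ (S.basis.repr y).support, S.basis.repr y g := by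
  unfold ev
  rw [Finsupp.sum]
  exact Finset.sum_congr rfl fun g _ => mul_one _

theorem exists_subgroup (T : Submodule R R) (hT : T ≤ S.annS 1)
    (hc : ∀ χ : G → k, (∀ y ∈ T, S.ev χ y = 0) → ∀ x ∈ T, S.had χ x ∈ T) :
    ∃ H : Subgroup G, (∀ h, h ∈ H ↔ S.u h - 1 ∈ T) ∧
      T = Submodule.span R {f | ∃ h ∈ H, f = S.u h - 1} := by
  classical
  have Pone : ∀ y ∈ T, S.ev (fun _ => 1) y = 0 := by
    intro y hy
    have h1 : S.act y 1 = 0 := hT hy
    have h2 : (fun g : G => g • (1 : k)) = fun _ => 1 := by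
      funext g
      exact smul_one g
    unfold act at h1
    rwa [h2] at h1
  have Psmul : ∀ (s : k) (χ : G → k), (∀ y ∈ T, S.ev χ y = 0) →
      ∀ y ∈ T, S.ev (fun g => s * χ g) y = 0 := by
    intro s χ h y hy
    rw [S.ev_smul_fun, h y hy, mul_zero]
  have Padd : ∀ (χ χ' : G → k), (∀ y ∈ T, S.ev χ y = 0) → (∀ y ∈ T, S.ev χ' y = 0) →
      ∀ y ∈ T, S.ev (fun g => χ g + χ' g) y = 0 := by
    intro χ χ' h h' y hy
    rw [S.ev_add_fun, h y hy, h' y hy, add_zero]
  have Pmul : ∀ (χ χ' : G → k), (∀ y ∈ T, S.ev χ y = 0) → (∀ y ∈ T, S.ev χ' y = 0) →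
      ∀ y ∈ T, S.ev (fun g => χ g * χ' g) y = 0 := by
    intro χ χ' h h' y hy
    rw [← S.ev_had]
    exact h' _ (hc χ h y hy)
  have Ptr : ∀ (g : G) (χ : G → k), (∀ y ∈ T, S.ev χ y = 0) →
      ∀ y ∈ T, S.ev (fun h => g⁻¹ • χ (g * h)) y = 0 := by
    intro g χ h y hy
    have h1 := h _ (T.smul_mem (S.u g) hy)
    rw [smul_eq_mul, S.ev_u_mul] at h1
    exact (smul_eq_zero_iff_eq g).mp h1
  have ev1 : ∀ χ : G → k, S.ev χ 1 = χ 1 := by
    intro χ
    have h1 := S.ev_u χ 1
    rwa [map_one] at h1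
  let H : Subgroup G :=
    { carrier := {h | S.u h - 1 ∈ T}
      one_mem' := by
        show S.u 1 - 1 ∈ T
        rw [map_one, sub_self]
        exact T.zero_mem
      mul_mem' := by
        intro h h' hh hh'
        show S.u (h * h') - 1 ∈ T
        have e : S.u (h * h') - 1 = S.u h * (S.u h' - 1) + (S.u h - 1) := by
          rw [map_mul]; noncomm_ring
        rw [e]
        exact T.add_mem (T.smul_mem (S.u h) hh') hh
      inv_mem' := by
        intro h hh
        show S.u h⁻¹ - 1 ∈ T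
        have e0 : S.u h⁻¹ * S.u h = 1 := by rw [← map_mul, inv_mul_cancel, map_one]
        have e : S.u h⁻¹ - 1 = -(S.u h⁻¹ * (S.u h - 1)) := by
          rw [mul_sub, e0, mul_one]; abel
        rw [e]
        exact T.neg_mem (T.smul_mem (S.u h⁻¹) hh) }
  have Hdef : ∀ h, h ∈ H ↔ S.u h - 1 ∈ T := fun h => Iff.rfl
  refine ⟨H, Hdef, ?_⟩
  -- separation
  have hsep : ∀ g₀ a : G, g₀⁻¹ * a ∉ H → ∃ χ : G → k, (∀ y ∈ T, S.ev χ y = 0) ∧ χ a ≠ χ g₀ := by
    intro g₀ a ha
    rw [Hdef] at ha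
    by_contra hcon
    push Not at hcon
    apply ha
    refine S.mem_of_forall_ev T _ fun χ hχ => ?_
    rw [S.ev_sub, S.ev_u, ev1, sub_eq_zero]
    have h1 := hcon _ (Ptr g₀⁻¹ χ hχ)
    rw [inv_mul_cancel] at h1
    exact MulAction.injective _ h1
  have hconst : ∀ g₀ a : G, g₀⁻¹ * a ∈ H → ∀ χ : G → k, (∀ y ∈ T, S.ev χ y = 0) →
      χ a = χ g₀ := by
    intro g₀ a ha χ hχ
    have h1 := hχ _ (T.smul_mem (S.u g₀) ((Hdef _).1 ha))
    rw [smul_eq_mul, mul_sub, ← map_mul, mul_inv_cancel_left, mul_one, S.ev_sub, S.ev_u,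
      S.ev_u, sub_eq_zero] at h1
    exact h1
  have hprod : ∀ (g₀ : G) (A : Finset G), (∀ a ∈ A, g₀⁻¹ * a ∉ H) →
      ∃ χ : G → k, (∀ y ∈ T, S.ev χ y = 0) ∧ χ g₀ = 1 ∧ ∀ a ∈ A, χ a = 0 := by
    intro g₀ A
    induction A using Finset.induction_on with
    | empty =>
      intro _
      exact ⟨fun _ => 1, Pone, rfl, fun a ha => absurd ha (Finset.notMem_empty a)⟩
    | insert a A _ ih =>
      intro hA
      obtain ⟨χ, h1, h2, h3⟩ := ih fun b hb => hA b (Finset.mem_insert_of_mem hb)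
      obtain ⟨χa, h4, h5⟩ := hsep g₀ a (hA a (Finset.mem_insert_self a A))
      have h6 : χa g₀ - χa a ≠ 0 := sub_ne_zero.2 (Ne.symm h5)
      refine ⟨fun g => ((χa g₀ - χa a)⁻¹ * (χa g + (-χa a) * 1)) * χ g,
        Pmul _ _ (Psmul _ _ (Padd _ _ h4 (Psmul _ _ Pone))) h1, ?_, ?_⟩
      · show ((χa g₀ - χa a)⁻¹ * (χa g₀ + (-χa a) * 1)) * χ g₀ = 1
        rw [h2, mul_one, mul_one, ← sub_eq_add_neg, inv_mul_cancel₀ h6]
      · intro b hb
        show ((χa g₀ - χa a)⁻¹ * (χa b + (-χa a) * 1)) * χ b = 0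
        rcases Finset.mem_insert.1 hb with rfl | hb
        · rw [mul_one, add_neg_cancel, mul_zero, zero_mul]
        · rw [h3 b hb, mul_zero]
  let J : Submodule R R := Submodule.span R {f | ∃ h ∈ H, f = S.u h - 1}
  have hsJ : ∀ (s : k) (y : R), y ∈ J → s • y ∈ J := by
    intro s y hy
    exact Submodule.smul_of_tower_mem J s hy
  have hJ1 : ∀ g₀ g : G, g₀⁻¹ * g ∈ H → S.u g - S.u g₀ ∈ J := by
    intro g₀ g hg
    have h1 : S.u g - S.u g₀ = S.u g₀ * (S.u (g₀⁻¹ * g) - 1) := by
      rw [mul_sub, ← map_mul, mul_inv_cancel_left, mul_one]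
    rw [h1]
    exact J.smul_mem _ (Submodule.subset_span ⟨_, hg, rfl⟩)
  have hJ2 : ∀ (g₀ : G) (y : R), y ∈ T → (∀ g ∈ (S.basis.repr y).support, g₀⁻¹ * g ∈ H) →
      y ∈ J := by
    intro g₀ y hy hsupp
    have h1 := Pone y hy
    rw [C2_ev_one] at h1
    have h2 : y = ∑ g ∈ (S.basis.repr y).support, S.basis.repr y g • (S.u g - S.u g₀) := by
      simp_rw [smul_sub]
      rw [Finset.sum_sub_distrib, ← Finset.sum_smul, h1, zero_smul, sub_zero]
      exact C2_expand S y
    rw [h2]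
    exact Submodule.sum_mem _ fun g hg => hsJ _ _ (hJ1 g₀ g (hsupp g hg))
  refine le_antisymm ?_ ?_
  · have key : ∀ (n : ℕ) (x : R), x ∈ T → (S.basis.repr x).support.card ≤ n → x ∈ J := by
      intro n
      induction n with
      | zero =>
        intro x _ hcard
        have h1 : (S.basis.repr x).support = ∅ := Finset.card_eq_zero.1 (Nat.le_zero.1 hcard)
        have h2 := C2_expand S x
        rw [h1, Finset.sum_empty] at h2
        rw [h2]
        exact J.zero_mem
      | succ n ih =>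
        intro x hx hcard
        by_cases hemp : (S.basis.repr x).support = ∅
        · have h2 := C2_expand S x
          rw [hemp, Finset.sum_empty] at h2
          rw [h2]
          exact J.zero_mem
        obtain ⟨g₀, hg₀⟩ := Finset.nonempty_iff_ne_empty.2 hemp
        obtain ⟨χ, h1, h2, h3⟩ := hprod g₀
          ((S.basis.repr x).support.filter fun a => g₀⁻¹ * a ∉ H)
          fun a ha => (Finset.mem_filter.1 ha).2
        have h4 : S.had χ x ∈ T := hc χ h1 x hx
        have h5 : S.had χ x ∈ J := by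
          refine hJ2 g₀ _ h4 fun g hg => ?_
          rw [Finsupp.mem_support_iff, S.repr_had] at hg
          by_contra hgH
          apply hg
          rw [h3 g (Finset.mem_filter.2 ⟨?_, hgH⟩), mul_zero]
          rw [Finsupp.mem_support_iff]
          intro h6
          exact hg (by rw [h6, zero_mul])
        have h6 : x - S.had χ x ∈ J := by
          refine ih _ (T.sub_mem hx h4) ?_
          have h7 : (S.basis.repr (x - S.had χ x)).support ⊆
              (S.basis.repr x).support.erase g₀ := by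
            intro g hg
            rw [Finsupp.mem_support_iff, map_sub, Finsupp.sub_apply, S.repr_had] at hg
            rw [Finset.mem_erase, Finsupp.mem_support_iff]
            constructor
            · rintro rfl
              exact hg (by rw [h2, mul_one, sub_self])
            · intro h8
              exact hg (by rw [h8, zero_mul, sub_zero])
          have h8 := Finset.card_le_card h7
          rw [Finset.card_erase_of_mem hg₀] at h8
          omega
        have h7 := J.add_mem h6 h5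
        rwa [sub_add_cancel] at h7
    intro x hx
    exact key _ x hx le_rfl
  · apply Submodule.span_le.2
    rintro _ ⟨h, hh, rfl⟩
    exact (Hdef h).1 hh

end Skew

end PrimRank
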