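import Pool.Agent.Lib.MP_b8b21d_al.SK.A2

/-!
The relation `Dual` (`u w - 1 ∈ anti X * P`).

PROOFS. dual_of_factor: `anti (anti (a i)) = a i`. dual_symm_of_factor: `u w⁻¹ - 1 = anti (u w - 1) =
∑ anti (b i) * anti (a i)` and `u w - 1 = - u w * (u w⁻¹ - 1) = ∑ (- u w * anti (b i)) * anti (a i)`,
`- u w * anti (b i) = anti (- b i * u w⁻¹)` and `b i * u w⁻¹ = b i + b i * (u w⁻¹ - 1)` is in the span `P` of the
`b`: `u w⁻¹ - 1 = - u w⁻¹ * (u w - 1) ∈ P`.
pps_of_dual: let `β` be the basis, `y i = ∑_j γ_ij • β j` (`γ_ij = b.repr (y i) j`), so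
`u w - 1 = ∑_j (∑_i anti (x i) * γ_ij) * β j`. If `∑ c_j β_j = 1` then `1 ∈ P`. If
`∑_j (∑_i anti (x i) γ_ij) c_j = 1` apply `anti`: `1 = ∑_j ∑_i anti (c_j) anti (γ_ij) x i ∈ X`.
no_functional: `φ (u w - 1) = ∑ anti (x i) * φ (y i)`; if it is `1`, apply `anti`: `1 ∈ X`.
dual_inf: the elements: `anti` of the two relations gives
`u w⁻¹ - 1 = ∑ anti (y i) * x i = ∑ anti (y' i) * x' i` (`y ∈ P`, `y' ∈ Q`, `x, x' ∈ X`). In the basis `ξ` of `X`:
`u w⁻¹ - 1 = ∑_j η_j ξ_j` where `η_j = ∑_i anti (y i) γ_ij` and also `η_j = ∑_i anti (y' i) γ'_ij` (coordinates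
are unique; `u w⁻¹ - 1 ∈ X`). So `anti η_j ∈ P ⊓ Q`, and `u w - 1 = ∑_j anti (ξ_j) * anti (η_j)`.
dual_tw: `(e⁻¹ • 1) * (u w - 1) * (e • 1) = u w - 1` because `w • e = e`, and
`(e⁻¹ • 1) * anti (x i) = anti (x i * (e⁻¹ • 1))` (`anti_mul`, `anti_scalar`).
-/

namespace PrimRank

namespace Skew

variable {k G R : Type*} [Field k] [Group G] [MulSemiringAction G k] [Ring R] [Module k R]
  [IsScalarTower k R R] (S : Skew k G R)

theorem dual_mono {w : G} {X X' P P' : Submodule R R} (hX : X ≤ X') (hP : P ≤ P')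
    (h : S.Dual w X P) : S.Dual w X' P' := by
  obtain ⟨n, x, y, hx, hy, he⟩ := h
  exact ⟨n, x, y, fun i => hX (hx i), fun i => hP (hy i), he⟩

theorem dual_of_factor {w : G} {m : ℕ} (a b : Fin m → R) (h : S.u w - 1 = ∑ i, a i * b i) :
    S.Dual w (Submodule.span R (Set.range fun i => S.anti (a i)))
      (Submodule.span R (Set.range b)) := by
  refine ⟨m, fun i => S.anti (a i), b, fun i => Submodule.subset_span ⟨i, rfl⟩,
    fun i => Submodule.subset_span ⟨i, rfl⟩, ?_⟩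
  rw [h]
  exact Finset.sum_congr rfl fun i _ => by rw [S.anti_anti]

private theorem D1_anti_sub_one (w : G) : S.anti (S.u w - 1) = S.u w⁻¹ - 1 := by
  rw [sub_eq_add_neg, S.anti_add, S.anti_neg, S.anti_u, S.anti_one, ← sub_eq_add_neg]

private theorem D1_u_mul_u_inv (w : G) : S.u w * S.u w⁻¹ = 1 := by
  rw [← map_mul, mul_inv_cancel, map_one]

private theorem D1_u_inv_mul_u (w : G) : S.u w⁻¹ * S.u w = 1 := by
  rw [← map_mul, inv_mul_cancel, map_one]

theorem dual_symm_of_factor {w : G} {m : ℕ} (a b : Fin m → R) (h : S.u w - 1 = ∑ i, a i * b i) :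
    S.Dual w (Submodule.span R (Set.range b))
      (Submodule.span R (Set.range fun i => S.anti (a i))) := by
  have hP : S.u w - 1 ∈ Submodule.span R (Set.range b) := by
    rw [h]
    refine Submodule.sum_mem _ fun i _ => ?_
    have h1 := Submodule.smul_mem (Submodule.span R (Set.range b)) (a i)
      (Submodule.subset_span ⟨i, rfl⟩ : b i ∈ Submodule.span R (Set.range b))
    rwa [smul_eq_mul] at h1
  have hP' : S.u w⁻¹ - 1 ∈ Submodule.span R (Set.range b) := by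
    have h1 := Submodule.smul_mem (Submodule.span R (Set.range b)) (-S.u w⁻¹) hP
    have h2 : -S.u w⁻¹ • (S.u w - 1) = S.u w⁻¹ - 1 := by
      rw [smul_eq_mul, neg_mul, mul_sub, S.D1_u_inv_mul_u, mul_one, neg_sub]
    rwa [h2] at h1
  refine ⟨m, fun i => -(b i * S.u w⁻¹), fun i => S.anti (a i), fun i => ?_,
    fun i => Submodule.subset_span ⟨i, rfl⟩, ?_⟩
  · have h1 : b i ∈ Submodule.span R (Set.range b) := Submodule.subset_span ⟨i, rfl⟩
    have h2 := Submodule.smul_mem (Submodule.span R (Set.range b)) (b i) hP'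
    have h3 : b i * S.u w⁻¹ = b i + b i • (S.u w⁻¹ - 1) := by
      rw [smul_eq_mul, mul_sub, mul_one, add_sub_cancel]
    change -(b i * S.u w⁻¹) ∈ Submodule.span R (Set.range b)
    rw [h3]
    exact Submodule.neg_mem _ (Submodule.add_mem _ h1 h2)
  · have h1 : ∀ i, S.anti (-(b i * S.u w⁻¹)) * S.anti (a i) =
        -(S.u w * S.anti (a i * b i)) := by
      intro i
      rw [S.anti_neg, S.anti_mul, S.anti_u, inv_inv, S.anti_mul, neg_mul, mul_assoc]
    simp only [h1]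
    rw [Finset.sum_neg_distrib, ← Finset.mul_sum, ← S.anti_sum, ← h, S.D1_anti_sub_one, mul_sub,
      S.D1_u_mul_u_inv, mul_one, neg_sub]

theorem mem_of_dual {w : G} {X P : Submodule R R} (h : S.Dual w X P) : S.u w - 1 ∈ P := by
  obtain ⟨n, x, y, hx, hy, he⟩ := h
  rw [he]
  exact Submodule.sum_mem _ fun i _ => by
    have h1 := P.smul_mem (S.anti (x i)) (hy i)
    rwa [smul_eq_mul] at h1

private theorem D1_top {X : Submodule R R} (h : (1 : R) ∈ X) : X = ⊤ := by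
  refine eq_top_iff.2 fun r _ => ?_
  have h1 := X.smul_mem r h
  rwa [smul_eq_mul, mul_one] at h1

theorem pps_of_dual {w : G} {X P : Submodule R R} (h : S.Dual w X P) (hX : X ≠ ⊤) (hP : P ≠ ⊤)
    {s : ℕ} (b : Module.Basis (Fin s) R P) : S.PPs w s := by
  obtain ⟨n, x, y, hx, hy, he⟩ := h
  have hyb : ∀ i, y i = ∑ j, b.repr ⟨y i, hy i⟩ j * (b j : R) := by
    intro i
    have h1 := congrArg (fun z : P => (z : R)) (b.sum_repr ⟨y i, hy i⟩)
    simp only [Submodule.coe_sum, Submodule.coe_smul, smul_eq_mul] at h1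
    exact h1.symm
  refine ⟨fun j => ∑ i, S.anti (x i) * b.repr ⟨y i, hy i⟩ j, fun j => (b j : R), ?_, ?_, ?_⟩
  · rw [he]
    have h1 : ∀ i, S.anti (x i) * y i =
        ∑ j, S.anti (x i) * b.repr ⟨y i, hy i⟩ j * (b j : R) := by
      intro i
      conv_lhs => rw [hyb i]
      rw [Finset.mul_sum]
      exact Finset.sum_congr rfl fun j _ => by rw [mul_assoc]
    simp only [h1]
    rw [Finset.sum_comm]
    exact Finset.sum_congr rfl fun j _ => by rw [Finset.sum_mul]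
  · intro c hc
    refine hP (D1_top ?_)
    rw [← hc]
    exact Submodule.sum_mem _ fun j _ => by
      have h1 := P.smul_mem (c j) (b j).2
      rwa [smul_eq_mul] at h1
  · intro c hc
    refine hX (D1_top ?_)
    have h1 := congrArg S.anti hc
    rw [S.anti_one, S.anti_sum] at h1
    rw [← h1]
    refine Submodule.sum_mem _ fun j _ => ?_
    rw [S.anti_mul, S.anti_sum, Finset.mul_sum]
    refine Submodule.sum_mem _ fun i _ => ?_
    rw [S.anti_mul, S.anti_anti, ← mul_assoc]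
    have h2 := X.smul_mem (S.anti (c j) * S.anti (b.repr ⟨y i, hy i⟩ j)) (hx i)
    rwa [smul_eq_mul] at h2

theorem no_functional {w : G} {X P : Submodule R R} (h : S.Dual w X P) (hX : X ≠ ⊤)
    (φ : P →ₗ[R] R) : φ ⟨S.u w - 1, S.mem_of_dual h⟩ ≠ 1 := by
  obtain ⟨n, x, y, hx, hy, he⟩ := id h
  intro hφ
  refine hX (D1_top ?_)
  have h1 : (⟨S.u w - 1, S.mem_of_dual h⟩ : P) = ∑ i, S.anti (x i) • (⟨y i, hy i⟩ : P) := by
    apply Subtype.ext
    simp only [Submodule.coe_sum, Submodule.coe_smul, smul_eq_mul]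
    exact he
  rw [h1, map_sum] at hφ
  have h2 := congrArg S.anti hφ
  rw [S.anti_one, S.anti_sum] at h2
  rw [← h2]
  refine Submodule.sum_mem _ fun i _ => ?_
  rw [map_smul, smul_eq_mul, S.anti_mul, S.anti_anti]
  have h3 := X.smul_mem (S.anti (φ ⟨y i, hy i⟩)) (hx i)
  rwa [smul_eq_mul] at h3

theorem dual_inf {w : G} {X P Q : Submodule R R} {n : ℕ} (bX : Module.Basis (Fin n) R X)
    (hP : S.Dual w X P) (hQ : S.Dual w X Q) : S.Dual w X (P ⊓ Q) := by
  have key : ∀ {T : Submodule R R}, S.Dual w X T → ∃ hz : S.u w⁻¹ - 1 ∈ X,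
      ∀ j, S.anti (bX.repr ⟨S.u w⁻¹ - 1, hz⟩ j) ∈ T := by
    intro T hT
    obtain ⟨m, x, y, hx, hy, he⟩ := hT
    have h1 := congrArg S.anti he
    rw [S.D1_anti_sub_one, S.anti_sum] at h1
    have h2 : ∀ i, S.anti (S.anti (x i) * y i) = S.anti (y i) * x i := by
      intro i
      rw [S.anti_mul, S.anti_anti]
    simp only [h2] at h1
    have hz : S.u w⁻¹ - 1 ∈ X := by
      rw [h1]
      exact Submodule.sum_mem _ fun i _ => by
        have h3 := X.smul_mem (S.anti (y i)) (hx i)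
        rwa [smul_eq_mul] at h3
    refine ⟨hz, fun j => ?_⟩
    have h3 : (⟨S.u w⁻¹ - 1, hz⟩ : X) = ∑ i, S.anti (y i) • (⟨x i, hx i⟩ : X) := by
      apply Subtype.ext
      simp only [Submodule.coe_sum, Submodule.coe_smul, smul_eq_mul]
      exact h1
    rw [h3, map_sum, Finsupp.finset_sum_apply, S.anti_sum]
    refine Submodule.sum_mem _ fun i _ => ?_
    rw [map_smul, Finsupp.smul_apply, smul_eq_mul, S.anti_mul, S.anti_anti]
    have h4 := T.smul_mem (S.anti (bX.repr ⟨x i, hx i⟩ j)) (hy i)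
    rwa [smul_eq_mul] at h4
  obtain ⟨hz, hP'⟩ := key hP
  obtain ⟨_, hQ'⟩ := key hQ
  refine ⟨n, fun j => (bX j : R), fun j => S.anti (bX.repr ⟨S.u w⁻¹ - 1, hz⟩ j),
    fun j => (bX j).2, fun j => ⟨hP' j, hQ' j⟩, ?_⟩
  have h1 := congrArg (fun z : X => (z : R)) (bX.sum_repr ⟨S.u w⁻¹ - 1, hz⟩)
  simp only [Submodule.coe_sum, Submodule.coe_smul, smul_eq_mul] at h1
  have h2 := congrArg S.anti h1
  rw [S.D1_anti_sub_one, inv_inv, S.anti_sum] at h2
  rw [← h2]
  exact Finset.sum_congr rfl fun j _ => by rw [S.anti_mul]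

theorem dual_tw {w : G} {X P : Submodule R R} {e : k} (he : e ≠ 0) (hwe : w • e = e)
    (h : S.Dual w X P) : S.Dual w (tw X e⁻¹) (tw P e) := by
  obtain ⟨n, x, y, hx, hy, heq⟩ := h
  refine ⟨n, fun i => x i * (e⁻¹ • (1 : R)), fun i => y i * (e • (1 : R)),
    fun i => ⟨x i, hx i, rfl⟩, fun i => ⟨y i, hy i, rfl⟩, ?_⟩
  have h1 : (e⁻¹ • (1 : R)) * ((S.u w - 1) * (e • (1 : R))) = S.u w - 1 := by
    rw [sub_mul, S.comm, hwe, one_mul, smul_mul_assoc, one_mul, ← smul_sub, smul_smul,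
      inv_mul_cancel₀ he, one_smul]
  have h2 : ∀ i, S.anti (x i * (e⁻¹ • (1 : R))) * (y i * (e • (1 : R))) =
      (e⁻¹ • (1 : R)) * ((S.anti (x i) * y i) * (e • (1 : R))) := by
    intro i
    rw [S.anti_mul, S.anti_scalar, mul_assoc, mul_assoc]
  simp only [h2]
  rw [← Finset.mul_sum, ← Finset.sum_mul, ← heq, h1]

end Skew

end PrimRank
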