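import Pool.Agent.Lib.MP_b8b21d_al.SK.R1

/-!
Ranks of left ideals in skew group rings of free groups of finite rank.

PROOFS. rank_le: the span `J` has a finite basis, say of size `s` (`fg_basis`); the surjection
`(Fin n → R) → J` splits, its kernel `C` is finitely generated (a quotient of `Fin n → R`), so it has a basis of
some size `t` by `free_sub`, and `(Fin n → R) ≃ₗ J × C` has bases of sizes `n` and `s + t`, so `n = s + t` by
`rank_unique`.
modular: the map `P × Q → P ⊔ Q`, `(x, y) ↦ x - y` is surjective with kernel `≃ P ⊓ Q`; `P ⊔ Q` is finitely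
generated, hence free (`fg_basis`), so it splits: `P × Q ≃ (P ⊓ Q) × (P ⊔ Q)`; so `P ⊓ Q` is finitely generated,
hence free, and the ranks add up by `rank_unique`.
-/

namespace PrimRank

namespace Skew

section R2aux

variable {R : Type*} [Ring R] {M N : Type*} [AddCommGroup M] [AddCommGroup N] [Module R M]
  [Module R N]

/-- A split surjection. -/
private noncomputable def r2_split (f : M →ₗ[R] N) (h : N →ₗ[R] M) (hf : ∀ y, f (h y) = y) :
    M ≃ₗ[R] N × LinearMap.ker f where
  toFun x := (f x, ⟨x - h (f x), by rw [LinearMap.mem_ker, map_sub, hf, sub_self]⟩)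
  map_add' x y := by
    ext
    · simp
    · simp [map_add]
      abel
  map_smul' r x := by
    ext
    · simp
    · simp [map_smul, smul_sub]
  invFun z := h z.1 + z.2
  left_inv x := by simp
  right_inv z := by
    obtain ⟨y, z, hz⟩ := z
    rw [LinearMap.mem_ker] at hz
    ext
    · simp [hf, hz]
    · simp [hf, hz]

private theorem r2_ker_fin [Module.Finite R M] (f : M →ₗ[R] N) (h : N →ₗ[R] M)
    (hf : ∀ y, f (h y) = y) : Module.Finite R (LinearMap.ker f) := by
  refine Module.Finite.of_surjective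
    ((LinearMap.snd R N (LinearMap.ker f)).comp (r2_split f h hf).toLinearMap) ?_
  intro z
  refine ⟨(r2_split f h hf).symm (0, z), ?_⟩
  simp

private theorem r2_exists_split {n : ℕ} (b : Module.Basis (Fin n) R N) (f : M →ₗ[R] N)
    (hs : Function.Surjective f) : ∃ h : N →ₗ[R] M, ∀ y, f (h y) = y := by
  haveI : Module.Projective R N := Module.Projective.of_basis b
  obtain ⟨h, hh⟩ := Module.projective_lifting_property f LinearMap.id hs
  exact ⟨h, fun y => by
    have := congrArg (fun g => g y) hh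
    simpa using this⟩

end R2aux

variable {k R : Type*} {α : Type} [Field k] [MulSemiringAction (FreeGroup α) k] [Ring R]
  [Module k R] [IsScalarTower k R R] (S : Skew k (FreeGroup α) R)

include S

theorem rank_le [Finite α] {n : ℕ} (b : Fin n → R) :
    ∃ m ≤ n, Nonempty (Module.Basis (Fin m) R (Submodule.span R (Set.range b))) := by
  have hfg : (Submodule.span R (Set.range b)).FG := Submodule.fg_span (Set.finite_range b)
  obtain ⟨s, ⟨bJ⟩⟩ := S.fg_basis _ hfg
  set J := Submodule.span R (Set.range b) with hJ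
  have hmem : ∀ c : Fin n → R, Fintype.linearCombination R b c ∈ J := by
    intro c
    rw [hJ, Fintype.linearCombination_apply]
    exact Submodule.sum_mem _ fun i _ =>
      Submodule.smul_mem _ _ (Submodule.subset_span (Set.mem_range_self i))
  let f : (Fin n → R) →ₗ[R] J := (Fintype.linearCombination R b).codRestrict J hmem
  have hs : Function.Surjective f := by
    rintro ⟨y, hy⟩
    have hy' := hy
    rw [hJ, ← Fintype.range_linearCombination] at hy'
    obtain ⟨c, hc⟩ := hy'
    exact ⟨c, Subtype.ext hc⟩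
  obtain ⟨h, hh⟩ := r2_exists_split bJ f hs
  haveI := r2_ker_fin f h hh
  have hC : (LinearMap.ker f).FG := Module.Finite.iff_fg.1 inferInstance
  obtain ⟨t, ⟨bC⟩⟩ := S.free_sub n (LinearMap.ker f) hC
  have h1 := ((bJ.prod bC).map (r2_split f h hh).symm).reindex finSumFinEquiv
  have h2 := S.rank_unique (Pi.basisFun R (Fin n)) h1
  exact ⟨s, by omega, ⟨bJ⟩⟩

theorem modular [Finite α] (P Q : Submodule R R) {p q : ℕ} (bP : Module.Basis (Fin p) R P)
    (bQ : Module.Basis (Fin q) R Q) :
    ∃ a b : ℕ, Nonempty (Module.Basis (Fin a) R ↥(P ⊓ Q)) ∧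
      Nonempty (Module.Basis (Fin b) R ↥(P ⊔ Q)) ∧ a + b = p + q := by
  haveI : Module.Finite R P := Module.Finite.of_basis bP
  haveI : Module.Finite R Q := Module.Finite.of_basis bQ
  have hP : P.FG := Module.Finite.iff_fg.1 inferInstance
  have hQ : Q.FG := Module.Finite.iff_fg.1 inferInstance
  obtain ⟨b, ⟨bS⟩⟩ := S.fg_basis _ (hP.sup hQ)
  let f : (P × Q) →ₗ[R] ↥(P ⊔ Q) :=
    ((Submodule.inclusion (le_sup_left : P ≤ P ⊔ Q)).comp (LinearMap.fst R P Q)) -
      ((Submodule.inclusion (le_sup_right : Q ≤ P ⊔ Q)).comp (LinearMap.snd R P Q))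
  have hfv : ∀ z : P × Q, ((f z : ↥(P ⊔ Q)) : R) = (z.1 : R) - (z.2 : R) := fun z => rfl
  have hs : Function.Surjective f := by
    rintro ⟨y, hy⟩
    obtain ⟨x, hx, z, hz, hxz⟩ := Submodule.mem_sup.1 hy
    refine ⟨(⟨x, hx⟩, ⟨-z, Q.neg_mem hz⟩), Subtype.ext ?_⟩
    rw [hfv]
    simp [hxz]
  obtain ⟨h, hh⟩ := r2_exists_split bS f hs
  haveI := r2_ker_fin f h hh
  have hk : ∀ z : P × Q, z ∈ LinearMap.ker f → (z.1 : R) = (z.2 : R) := by
    intro z hz
    have h1 := congrArg (fun y : ↥(P ⊔ Q) => (y : R)) (LinearMap.mem_ker.1 hz)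
    simp only [hfv] at h1
    exact sub_eq_zero.1 (by simpa using h1)
  let e : LinearMap.ker f ≃ₗ[R] ↥(P ⊓ Q) :=
    { toFun := fun z => ⟨(z.1.1 : R), z.1.1.2, by
        have := hk z.1 z.2
        rw [this]
        exact z.1.2.2⟩
      map_add' := fun x y => rfl
      map_smul' := fun r x => rfl
      invFun := fun z => ⟨(⟨z.1, z.2.1⟩, ⟨z.1, z.2.2⟩), by
        rw [LinearMap.mem_ker]
        refine Subtype.ext ?_
        rw [hfv]
        simp⟩
      left_inv := by
        rintro ⟨⟨⟨x, hx⟩, ⟨y, hy⟩⟩, hz⟩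
        have := hk _ hz
        simp only at this
        subst this
        rfl
      right_inv := fun z => rfl }
  haveI : Module.Finite R ↥(P ⊓ Q) := Module.Finite.equiv e
  have hI : (P ⊓ Q).FG := Module.Finite.iff_fg.1 inferInstance
  obtain ⟨a, ⟨bI⟩⟩ := S.fg_basis _ hI
  refine ⟨a, b, ⟨bI⟩, ⟨bS⟩, ?_⟩
  have h1 := ((bS.prod (bI.map e.symm)).map (r2_split f h hh).symm).reindex finSumFinEquiv
  have h2 := (bP.prod bQ).reindex finSumFinEquiv
  have h3 := S.rank_unique h1 h2
  omega

end Skew

end PrimRank
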