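import Pool.Agent.Lib.MP_b8b21d_al.SK.A1

/-!
Twists of left ideals by scalars, and annihilators of scalars.

PROOFS. Right multiplication by `e • 1` is an `R`-linear bijection for `e ≠ 0` with inverse the
multiplication by `e⁻¹ • 1`. `act (x * (e • 1)) t = act x (e * t)`.
-/

namespace PrimRank

private theorem T1_tw_eq_map {k R : Type*} [Field k] [Ring R] [Module k R] (P : Submodule R R)
    (e : k) : tw P e = P.map (LinearMap.toSpanSingleton R R (e • (1 : R))) := by
  ext y
  rw [Submodule.mem_map]
  constructor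
  · rintro ⟨x, hx, rfl⟩
    exact ⟨x, hx, by rw [LinearMap.toSpanSingleton_apply, smul_eq_mul]⟩
  · rintro ⟨x, hx, rfl⟩
    exact ⟨x, hx, by rw [LinearMap.toSpanSingleton_apply, smul_eq_mul]⟩

theorem tw_span {k R : Type*} [Field k] [Ring R] [Module k R] {ι : Type*} (b : ι → R) (e : k) :
    tw (Submodule.span R (Set.range b)) e =
      Submodule.span R (Set.range fun i => b i * (e • (1 : R))) := by
  rw [T1_tw_eq_map, Submodule.map_span, ← Set.range_comp]
  rfl

namespace Skew

variable {k G R : Type*} [Field k] [Group G] [MulSemiringAction G k] [Ring R] [Module k R]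
  [IsScalarTower k R R] (S : Skew k G R)

private theorem T1_inv {e : k} (he : e ≠ 0) : (e • (1 : R)) * (e⁻¹ • (1 : R)) = 1 := by
  rw [smul_mul_assoc, one_mul, smul_smul, mul_inv_cancel₀ he, one_smul]

theorem tw_basis {P : Submodule R R} {e : k} (he : e ≠ 0) {n : ℕ}
    (b : Module.Basis (Fin n) R P) : Nonempty (Module.Basis (Fin n) R (tw P e)) := by
  have h1 : (e • (1 : R)) * (e⁻¹ • (1 : R)) = 1 := T1_inv he
  have h2 : (e⁻¹ • (1 : R)) * (e • (1 : R)) = 1 := by
    have h3 := T1_inv (R := R) (inv_ne_zero he)
    rwa [inv_inv] at h3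
  let φ : P ≃ₗ[R] (tw P e) :=
    { toFun := fun x => ⟨(x : R) * (e • (1 : R)), (x : R), x.2, rfl⟩
      map_add' := by
        intro x y
        apply Subtype.ext
        show ((x : R) + y) * (e • (1 : R)) = (x : R) * (e • (1 : R)) + (y : R) * (e • (1 : R))
        rw [add_mul]
      map_smul' := by
        intro r x
        apply Subtype.ext
        show (r * (x : R)) * (e • (1 : R)) = r * ((x : R) * (e • (1 : R)))
        rw [mul_assoc]
      invFun := fun y => ⟨(y : R) * (e⁻¹ • (1 : R)), by
        obtain ⟨x, hx, hy⟩ := y.2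
        rw [hy, mul_assoc, h1, mul_one]
        exact hx⟩
      left_inv := by
        intro x
        apply Subtype.ext
        show ((x : R) * (e • (1 : R))) * (e⁻¹ • (1 : R)) = x
        rw [mul_assoc, h1, mul_one]
      right_inv := by
        intro y
        apply Subtype.ext
        show ((y : R) * (e⁻¹ • (1 : R))) * (e • (1 : R)) = y
        rw [mul_assoc, h2, mul_one] }
  exact ⟨b.map φ⟩

/-- The annihilator of a scalar. -/
noncomputable def annS (t : k) : Submodule R R where
  carrier := {x | S.act x t = 0}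
  zero_mem' := S.act_zero t
  add_mem' := by
    intro x y hx hy
    show S.act (x + y) t = 0
    rw [S.act_add, hx, hy, add_zero]
  smul_mem' := by
    intro r x hx
    show S.act (r * x) t = 0
    rw [S.act_mul, hx, S.act_zero_right]

theorem annS_ne_top {t : k} (ht : t ≠ 0) : S.annS t ≠ ⊤ := by
  intro h
  have h1 : (1 : R) ∈ S.annS t := by rw [h]; exact Submodule.mem_top
  have h2 : S.act (1 : R) t = 0 := h1
  rw [S.act_one] at h2
  exact ht h2

theorem tw_le_annS {P : Submodule R R} {e t : k} (h : P ≤ S.annS (e * t)) :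
    tw P e ≤ S.annS t := by
  rintro y ⟨x, hx, rfl⟩
  have h1 : S.act x (e * t) = 0 := h hx
  show S.act (x * (e • (1 : R))) t = 0
  rw [S.act_mul, S.act_scalar, h1]

end Skew

end PrimRank
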