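import Pool.Agent.Lib.MP_b8b21d_al.SK.D1
import Pool.Agent.Lib.MP_b8b21d_al.SK.T1
import Pool.Agent.Lib.MP_b8b21d_al.SK.R2

/-!
The step: sums of ideals of minimal rank.

PROOF of sup_step. `X` is finitely generated, so it has a finite basis (`fg_basis`), and
`dual_inf` gives `Dual w X (P ⊓ Q)`; `dual_mono` gives `Dual w X (P ⊔ Q)`. By `modular` there are bases of sizes
`a`, `b` of `P ⊓ Q`, `P ⊔ Q`, `a + b = p + q ≤ 2 m`. `P ⊓ Q ≤ P ⊔ Q ≠ ⊤`, so by `pps_of_dual` and `hmin` `m ≤ a` and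
`m ≤ b`; so `b = m`.
PROOF of exists_sup. Let `P i = tw I (ψ i)`, `Q j = tw J (φ j)`. By `dual_tw`: `Dual w (tw J (ψ i)⁻¹) (P i)` and
`Dual w (tw I (φ j)⁻¹) (Q j)`. For all `i`, `j` the ideal `X i j = tw J (ψ i)⁻¹ ⊔ tw I (φ j)⁻¹` is contained in
`annS (ψ i * φ j)` (`tw_le_annS`: `(ψ i)⁻¹ * (ψ i * φ j) = φ j` and `J ≤ annS (φ j)`; `(φ j)⁻¹ * (ψ i * φ j) = ψ i` and
`I ≤ annS (ψ i)`), so it is proper, and it is finitely generated (all ideals here have finite bases: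
`tw_basis`). All `P i`, `Q j` are contained in `annS 1` (`I ≤ annS (ψ i * 1)`), so all sums below are proper
(`annS_ne_top`, `one_ne_zero`). First `T₀ = P 0 ⊔ Q 0` has a basis of size `m`: `sup_step` with `X = X 0 0`. Claim:
if `T` has a basis of size `m`, `T₀ ≤ T ≤ annS 1` then the same holds for `T ⊔ P i` (`sup_step` with `X = X i 0`:
`Dual w (X i 0) T` because `Dual w (tw I (φ 0)⁻¹) (Q 0)` and `Q 0 ≤ T`) and for `T ⊔ Q j` (`X = X 0 j`, from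
`Dual w (tw J (ψ 0)⁻¹) (P 0)`, `P 0 ≤ T`). By induction over finite sets of indices (`Finset.sup`, then
`Finset.sup_univ_eq_iSup`) this gives the ideal `(⨆ i, P i) ⊔ (⨆ j, Q j)`. Finally `Dual w (tw J (ψ 0)⁻¹) _`
by `dual_mono`, and `tw J (ψ 0)⁻¹ ≤ annS (ψ 0 * φ 0) ≠ ⊤`.
-/

namespace PrimRank

namespace Skew

variable {k R : Type*} {α : Type} [Field k] [MulSemiringAction (FreeGroup α) k] [Ring R]
  [Module k R] [IsScalarTower k R R] (S : Skew k (FreeGroup α) R)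

theorem sup_step [Finite α] {w : FreeGroup α} {m p q : ℕ} (hmin : ∀ s, S.PPs w s → m ≤ s)
    {X P Q : Submodule R R} (bP : Module.Basis (Fin p) R P) (bQ : Module.Basis (Fin q) R Q)
    (hp : p ≤ m) (hq : q ≤ m) (hXfg : X.FG) (hX : X ≠ ⊤) (hPQ : P ⊔ Q ≠ ⊤)
    (hP : S.Dual w X P) (hQ : S.Dual w X Q) :
    Nonempty (Module.Basis (Fin m) R ↥(P ⊔ Q)) := by
  obtain ⟨n, ⟨bX⟩⟩ := S.fg_basis X hXfg
  have hinf : S.Dual w X (P ⊓ Q) := S.dual_inf bX hP hQ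
  have hsup : S.Dual w X (P ⊔ Q) := S.dual_mono le_rfl le_sup_left hP
  obtain ⟨a, b, ⟨ba⟩, ⟨bb⟩, hab⟩ := S.modular P Q bP bQ
  have hinf' : P ⊓ Q ≠ ⊤ := by
    intro h
    apply hPQ
    exact top_unique (h.symm.le.trans (inf_le_left.trans le_sup_left))
  have h1 : m ≤ a := hmin a (S.pps_of_dual hinf hX hinf' ba)
  have h2 : m ≤ b := hmin b (S.pps_of_dual hsup hX hPQ bb)
  have h3 : b = m := by omega
  subst h3
  exact ⟨bb⟩

/-- A submodule with a finite basis is finitely generated. -/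
private theorem d2_fg {M : Submodule R R} {n : ℕ} (b : Module.Basis (Fin n) R M) : M.FG := by
  haveI : Module.Finite R M := Module.Finite.of_basis b
  exact Module.Finite.iff_fg.1 inferInstance

private theorem d2_ne_top {t : k} (ht : t ≠ 0) {X : Submodule R R} (h : X ≤ S.annS t) :
    X ≠ ⊤ := fun h1 => S.annS_ne_top ht (top_unique (h1.symm.le.trans h))

theorem exists_sup [Finite α] {w : FreeGroup α} {m p q n : ℕ} (hmin : ∀ s, S.PPs w s → m ≤ s)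
    {I J : Submodule R R} (bI : Module.Basis (Fin p) R I) (bJ : Module.Basis (Fin q) R J)
    (hp : p ≤ m) (hq : q ≤ m) (hIJ : S.Dual w J I) (hJI : S.Dual w I J) (ψ φ : Fin (n + 1) → k)
    (hψ : ∀ i, ψ i ≠ 0) (hφ : ∀ i, φ i ≠ 0) (hwψ : ∀ i, w • ψ i = ψ i)
    (hwφ : ∀ i, w • φ i = φ i) (hI : ∀ i, I ≤ S.annS (ψ i)) (hJ : ∀ i, J ≤ S.annS (φ i)) :
    Nonempty (Module.Basis (Fin m) R ↥((⨆ i, tw I (ψ i)) ⊔ ⨆ i, tw J (φ i))) ∧
      ((⨆ i, tw I (ψ i)) ⊔ ⨆ i, tw J (φ i)) ≤ S.annS 1 ∧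
      ∃ X : Submodule R R, X ≠ ⊤ ∧ S.Dual w X ((⨆ i, tw I (ψ i)) ⊔ ⨆ i, tw J (φ i)) := by
  classical
  -- the twisted relations
  have hDP : ∀ i, S.Dual w (tw J (ψ i)⁻¹) (tw I (ψ i)) := fun i =>
    S.dual_tw (hψ i) (hwψ i) hIJ
  have hDQ : ∀ j, S.Dual w (tw I (φ j)⁻¹) (tw J (φ j)) := fun j =>
    S.dual_tw (hφ j) (hwφ j) hJI
  have hX : ∀ i j, tw J (ψ i)⁻¹ ⊔ tw I (φ j)⁻¹ ≤ S.annS (ψ i * φ j) := by
    intro i j
    refine sup_le (S.tw_le_annS ?_) (S.tw_le_annS ?_)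
    · rw [inv_mul_cancel_left₀ (hψ i)]
      exact hJ j
    · rw [mul_comm (ψ i), inv_mul_cancel_left₀ (hφ j)]
      exact hI i
  have hXtop : ∀ i j, tw J (ψ i)⁻¹ ⊔ tw I (φ j)⁻¹ ≠ ⊤ := fun i j =>
    S.d2_ne_top (mul_ne_zero (hψ i) (hφ j)) (hX i j)
  have hXfg : ∀ i j, (tw J (ψ i)⁻¹ ⊔ tw I (φ j)⁻¹).FG := by
    intro i j
    obtain ⟨b1⟩ := tw_basis (inv_ne_zero (hψ i)) bJ
    obtain ⟨b2⟩ := tw_basis (inv_ne_zero (hφ j)) bI
    exact (d2_fg b1).sup (d2_fg b2)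
  have hP1 : ∀ i, tw I (ψ i) ≤ S.annS 1 := fun i => S.tw_le_annS (by rw [mul_one]; exact hI i)
  have hQ1 : ∀ j, tw J (φ j) ≤ S.annS 1 := fun j => S.tw_le_annS (by rw [mul_one]; exact hJ j)
  have h1top : ∀ T : Submodule R R, T ≤ S.annS 1 → T ≠ ⊤ := fun T hT =>
    S.d2_ne_top one_ne_zero hT
  -- the beginning
  obtain ⟨bP0⟩ := tw_basis (hψ 0) bI
  obtain ⟨bQ0⟩ := tw_basis (hφ 0) bJ
  have hT0 : Nonempty (Module.Basis (Fin m) R ↥(tw I (ψ 0) ⊔ tw J (φ 0))) :=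
    S.sup_step hmin bP0 bQ0 hp hq (hXfg 0 0) (hXtop 0 0) (h1top _ (sup_le (hP1 0) (hQ1 0)))
      (S.dual_mono le_sup_left le_rfl (hDP 0)) (S.dual_mono le_sup_right le_rfl (hDQ 0))
  -- the steps
  have hstepP : ∀ (T : Submodule R R) (i : Fin (n + 1)), tw I (ψ 0) ⊔ tw J (φ 0) ≤ T →
      T ≤ S.annS 1 → Nonempty (Module.Basis (Fin m) R T) →
      Nonempty (Module.Basis (Fin m) R ↥(T ⊔ tw I (ψ i))) := by
    rintro T i h0 h1 ⟨bT⟩
    obtain ⟨bPi⟩ := tw_basis (hψ i) bI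
    refine S.sup_step hmin bT bPi le_rfl hp (hXfg i 0) (hXtop i 0)
      (h1top _ (sup_le h1 (hP1 i))) ?_ ?_
    · exact S.dual_mono le_sup_right (le_sup_right.trans h0) (hDQ 0)
    · exact S.dual_mono le_sup_left le_rfl (hDP i)
  have hstepQ : ∀ (T : Submodule R R) (j : Fin (n + 1)), tw I (ψ 0) ⊔ tw J (φ 0) ≤ T →
      T ≤ S.annS 1 → Nonempty (Module.Basis (Fin m) R T) →
      Nonempty (Module.Basis (Fin m) R ↥(T ⊔ tw J (φ j))) := by
    rintro T j h0 h1 ⟨bT⟩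
    obtain ⟨bQj⟩ := tw_basis (hφ j) bJ
    refine S.sup_step hmin bT bQj le_rfl hq (hXfg 0 j) (hXtop 0 j)
      (h1top _ (sup_le h1 (hQ1 j))) ?_ ?_
    · exact S.dual_mono le_sup_left (le_sup_left.trans h0) (hDP 0)
    · exact S.dual_mono le_sup_right le_rfl (hDQ j)
  -- the iteration
  have hitP : ∀ s : Finset (Fin (n + 1)),
      (tw I (ψ 0) ⊔ tw J (φ 0)) ⊔ s.sup (fun i => tw I (ψ i)) ≤ S.annS 1 ∧
      Nonempty (Module.Basis (Fin m) R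
        ↥((tw I (ψ 0) ⊔ tw J (φ 0)) ⊔ s.sup (fun i => tw I (ψ i)))) := by
    intro s
    induction s using Finset.induction_on with
    | empty =>
      rw [Finset.sup_empty, sup_bot_eq]
      exact ⟨sup_le (hP1 0) (hQ1 0), hT0⟩
    | insert i s hi ih =>
      have e : (tw I (ψ 0) ⊔ tw J (φ 0)) ⊔ (insert i s).sup (fun i => tw I (ψ i)) =
          ((tw I (ψ 0) ⊔ tw J (φ 0)) ⊔ s.sup (fun i => tw I (ψ i))) ⊔ tw I (ψ i) := by
        rw [Finset.sup_insert, sup_comm (tw I (ψ i)), ← sup_assoc]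
      rw [e]
      exact ⟨sup_le ih.1 (hP1 i), hstepP _ i le_sup_left ih.1 ih.2⟩
  have hitQ : ∀ s : Finset (Fin (n + 1)),
      ((tw I (ψ 0) ⊔ tw J (φ 0)) ⊔ Finset.univ.sup (fun i => tw I (ψ i))) ⊔
        s.sup (fun j => tw J (φ j)) ≤ S.annS 1 ∧
      Nonempty (Module.Basis (Fin m) R
        ↥(((tw I (ψ 0) ⊔ tw J (φ 0)) ⊔ Finset.univ.sup (fun i => tw I (ψ i))) ⊔
          s.sup (fun j => tw J (φ j)))) := by
    intro s
    induction s using Finset.induction_on with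
    | empty =>
      rw [Finset.sup_empty, sup_bot_eq]
      exact hitP Finset.univ
    | insert j s hj ih =>
      have e : ((tw I (ψ 0) ⊔ tw J (φ 0)) ⊔ Finset.univ.sup (fun i => tw I (ψ i))) ⊔
            (insert j s).sup (fun j => tw J (φ j)) =
          (((tw I (ψ 0) ⊔ tw J (φ 0)) ⊔ Finset.univ.sup (fun i => tw I (ψ i))) ⊔
            s.sup (fun j => tw J (φ j))) ⊔ tw J (φ j) := by
        rw [Finset.sup_insert, sup_comm (tw J (φ j)), ← sup_assoc]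
      rw [e]
      exact ⟨sup_le ih.1 (hQ1 j),
        hstepQ _ j (le_sup_left.trans le_sup_left) ih.1 ih.2⟩
  have e : ((tw I (ψ 0) ⊔ tw J (φ 0)) ⊔ Finset.univ.sup (fun i => tw I (ψ i))) ⊔
      Finset.univ.sup (fun j => tw J (φ j)) = (⨆ i, tw I (ψ i)) ⊔ ⨆ i, tw J (φ i) := by
    rw [Finset.sup_univ_eq_iSup, Finset.sup_univ_eq_iSup]
    refine le_antisymm (sup_le (sup_le (sup_le ?_ ?_) le_sup_left) le_sup_right)
      (sup_le (le_sup_right.trans le_sup_left) le_sup_right)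
    · exact (le_iSup (fun i => tw I (ψ i)) 0).trans le_sup_left
    · exact (le_iSup (fun i => tw J (φ i)) 0).trans le_sup_right
  have hfin := hitQ Finset.univ
  rw [e] at hfin
  refine ⟨hfin.2, hfin.1, tw J (ψ 0)⁻¹, ?_, ?_⟩
  · exact S.d2_ne_top (mul_ne_zero (hψ 0) (hφ 0)) (le_sup_left.trans (hX 0 0))
  · exact S.dual_mono le_rfl
      ((le_iSup (fun i => tw I (ψ i)) 0).trans le_sup_left) (hDP 0)

end Skew

end PrimRank
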