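import Pool.Agent.Lib.MP_b8b21d_al.DefsL

/-!
Definitions for the theorem `π_K(w) = π(w)` of MP_b8b21d_al: skew group rings `k * G` over fields on
which the group acts.
-/

namespace PrimRank

/-- `R` is the skew group ring of `G` over the field `k`, on which `G` acts: a left `k`-vector space
with the basis `u g`, `g ∈ G`, such that `u g * s = (g • s) * u g` for scalars `s`. -/
structure Skew (k G R : Type*) [Field k] [Group G] [MulSemiringAction G k] [Ring R] [Module k R]
    [IsScalarTower k R R] where
  /-- the group elements -/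
  u : G →* R
  /-- they form a basis -/
  basis : Module.Basis G k R
  basis_apply : ∀ g, basis g = u g
  comm : ∀ (g : G) (s : k), u g * (s • (1 : R)) = (g • s) • u g

namespace Skew

variable {k G R : Type*} [Field k] [Group G] [MulSemiringAction G k] [Ring R] [Module k R]
  [IsScalarTower k R R] (S : Skew k G R)

/-- The anti-automorphism `s * u g ↦ u g⁻¹ * s`. -/
noncomputable def anti (x : R) : R := (S.basis.repr x).sum fun g s => (g⁻¹ • s) • S.u g⁻¹

/-- The functional `∑ s_g u_g ↦ ∑ s_g χ g` given by a function `χ` on the group. -/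
noncomputable def ev (χ : G → k) (x : R) : k := (S.basis.repr x).sum fun g s => s * χ g

/-- The action of the skew group ring on `k`. -/
noncomputable def act (x : R) (t : k) : k := S.ev (fun g => g • t) x

/-- Multiplication of the coefficients by a function. -/
noncomputable def had (χ : G → k) (x : R) : R := (S.basis.repr x).sum fun g s => (s * χ g) • S.u g

/-- `u w - 1` is in `anti X * P`. -/
def Dual (w : G) (X P : Submodule R R) : Prop :=
  ∃ (n : ℕ) (x y : Fin n → R), (∀ i, x i ∈ X) ∧ (∀ i, y i ∈ P) ∧
    S.u w - 1 = ∑ i, S.anti (x i) * y i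

/-- `u w - 1` is a sum of `m` products `a_i b_i`, where the `b_i` generate a proper left ideal and the
`a_i` generate a proper right ideal. -/
def PPs (w : G) (m : ℕ) : Prop :=
  ∃ a b : Fin m → R, S.u w - 1 = ∑ i, a i * b i ∧ (∀ c : Fin m → R, ∑ i, c i * b i ≠ 1) ∧
    ∀ c : Fin m → R, ∑ i, a i * c i ≠ 1

end Skew

/-- The left ideal `P * e`, for a scalar `e`. -/
def tw {k R : Type*} [Field k] [Ring R] [Module k R] (P : Submodule R R) (e : k) :
    Submodule R R where
  carrier := {y | ∃ x ∈ P, y = x * (e • (1 : R))}
  zero_mem' := ⟨0, P.zero_mem, by rw [zero_mul]⟩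
  add_mem' := by
    rintro y y' ⟨x, hx, rfl⟩ ⟨x', hx', rfl⟩
    exact ⟨x + x', P.add_mem hx hx', by rw [add_mul]⟩
  smul_mem' := by
    rintro r y ⟨x, hx, rfl⟩
    exact ⟨r * x, P.smul_mem r hx, by rw [smul_eq_mul, mul_assoc]⟩

/-- Sets of group elements which are almost invariant under right translations. -/
def Alm {G : Type*} [Group G] (S : Set G) : Prop := ∀ d : G, {g | g ∈ S ∧ g * d ∉ S}.Finite

/-- `PPs` over some field (of the universe `u`) with an action of the free group. -/
def AnyPP.{u} {α : Type} (w : FreeGroup α) (m : ℕ) : Prop :=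
  ∃ (k : Type u) (_ : Field k) (_ : MulSemiringAction (FreeGroup α) k) (R : Type u) (_ : Ring R)
    (_ : Module k R) (_ : IsScalarTower k R R) (S : Skew k (FreeGroup α) R), S.PPs w m

end PrimRank
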