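import Pool.Agent.Lib.MP_b8b21d_al.SK.A1

/-!
Extensions of modules over the skew group ring of a free group (the skew version of
Pool/Agent/Lib/MP_b8b21d_al/B1.lean, which may be copied and adapted).

PROOF of exists_D. `Φ : FreeGroup α →* ` (additive automorphisms of `M × L`), the lift of
`x ↦ ((m, l) ↦ (X m, X l + X (ψ x m)))`, `X = u (of x)` acting (inverse: `(m, l) ↦ (X⁻¹ m, X⁻¹ l - ψ x (X⁻¹ m))`),
`D g m = (Φ g (m, 0)).2`; `Φ g (m, l) = (g m, g l + D g m)` by induction on `g`, and `Φ g` is semilinear: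
`Φ g (s • p) = (g • s) • Φ g p`. Here `u g • (s • m) = (g • s) • (u g • m)`: from `comm`, since
`s • m = (s • 1) • m` (`IsScalarTower k R M`).
PROOF of exists_functional. `φ f = ∑ f(g) • D g v0` is additive, and `φ (a * f) = a • φ f` for `f ∈ I`: for
`a = s • u h`: `φ (s u_h f) = ∑_g s (h • f(g)) • D (h g) v0 = s • u_h • ∑_g f(g) • D g v0 + s • D h (∑_g f(g) • g v0)`
`= a • φ f + s • D h (f • v0)`, and `f • v0 = 0`.
-/

namespace PrimRank

namespace Skew

variable {k R : Type*} {α : Type} [Field k] [MulSemiringAction (FreeGroup α) k] [Ring R]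
  [Module k R] [IsScalarTower k R R] (S : Skew k (FreeGroup α) R)
  {M L : Type*} [AddCommGroup M] [Module k M] [Module R M] [IsScalarTower k R M]
  [AddCommGroup L] [Module k L] [Module R L] [IsScalarTower k R L]

/-- the semilinearity of the group elements -/
private theorem f1_smul (g : FreeGroup α) (s : k) (m : M) :
    S.u g • s • m = (g • s) • S.u g • m := by
  have h1 : s • m = (s • (1 : R)) • m := by rw [smul_assoc, one_smul]
  rw [h1, smul_smul, S.comm, smul_assoc]

omit [Module k M] [IsScalarTower k R M] in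
private theorem f1_inv_left (g : FreeGroup α) (m : M) : S.u g⁻¹ • S.u g • m = m := by
  rw [smul_smul, ← map_mul, inv_mul_cancel, map_one, one_smul]

omit [Module k M] [IsScalarTower k R M] in
private theorem f1_inv_right (g : FreeGroup α) (m : M) : S.u g • S.u g⁻¹ • m = m := by
  rw [smul_smul, ← map_mul, mul_inv_cancel, map_one, one_smul]

/-- the generator `x` acting on `M × L` -/
private noncomputable def f1A (ψ : α → M →ₗ[k] L) (x : α) : AddMonoid.End (M × L) where
  toFun z := (S.u (FreeGroup.of x) • z.1,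
    S.u (FreeGroup.of x) • z.2 + S.u (FreeGroup.of x) • ψ x z.1)
  map_zero' := by
    refine Prod.ext ?_ ?_
    · simp
    · simp
  map_add' z z' := by
    refine Prod.ext ?_ ?_
    · simp [smul_add]
    · simp only [Prod.snd_add, Prod.fst_add, smul_add, map_add]
      abel

/-- its inverse -/
private noncomputable def f1B (ψ : α → M →ₗ[k] L) (x : α) : AddMonoid.End (M × L) where
  toFun z := (S.u (FreeGroup.of x)⁻¹ • z.1,
    S.u (FreeGroup.of x)⁻¹ • z.2 - ψ x (S.u (FreeGroup.of x)⁻¹ • z.1))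
  map_zero' := by
    refine Prod.ext ?_ ?_
    · simp
    · simp
  map_add' z z' := by
    refine Prod.ext ?_ ?_
    · simp [smul_add]
    · simp only [Prod.snd_add, Prod.fst_add, smul_add, map_add]
      abel

private noncomputable def f1U (ψ : α → M →ₗ[k] L) (x : α) : (AddMonoid.End (M × L))ˣ where
  val := f1A S ψ x
  inv := f1B S ψ x
  val_inv := by
    refine AddMonoidHom.ext fun z => ?_
    show f1A S ψ x (f1B S ψ x z) = z
    refine Prod.ext ?_ ?_
    · exact f1_inv_right S _ _
    · show S.u (FreeGroup.of x) • (S.u (FreeGroup.of x)⁻¹ • z.2 -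
        ψ x (S.u (FreeGroup.of x)⁻¹ • z.1)) + S.u (FreeGroup.of x) •
          ψ x (S.u (FreeGroup.of x)⁻¹ • z.1) = z.2
      rw [smul_sub, f1_inv_right, sub_add_cancel]
  inv_val := by
    refine AddMonoidHom.ext fun z => ?_
    show f1B S ψ x (f1A S ψ x z) = z
    refine Prod.ext ?_ ?_
    · exact f1_inv_left S _ _
    · show S.u (FreeGroup.of x)⁻¹ • (S.u (FreeGroup.of x) • z.2 + S.u (FreeGroup.of x) •
        ψ x z.1) - ψ x (S.u (FreeGroup.of x)⁻¹ • S.u (FreeGroup.of x) • z.1) = z.2
      rw [smul_add, f1_inv_left, f1_inv_left, f1_inv_left, add_sub_cancel_right]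

private noncomputable def f1Phi (ψ : α → M →ₗ[k] L) : FreeGroup α →* (AddMonoid.End (M × L))ˣ :=
  FreeGroup.lift (f1U S ψ)

private theorem f1Phi_mul (ψ : α → M →ₗ[k] L) (g h : FreeGroup α) (z : M × L) :
    (f1Phi S ψ (g * h) : AddMonoid.End (M × L)) z =
      (f1Phi S ψ g : AddMonoid.End (M × L)) ((f1Phi S ψ h : AddMonoid.End (M × L)) z) := by
  rw [map_mul]
  rfl

private theorem f1Phi_one (ψ : α → M →ₗ[k] L) (z : M × L) :
    (f1Phi S ψ 1 : AddMonoid.End (M × L)) z = z := by
  rw [map_one]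
  rfl

private theorem f1Phi_inv (ψ : α → M →ₗ[k] L) (g : FreeGroup α) (z : M × L) :
    (f1Phi S ψ g : AddMonoid.End (M × L)) ((f1Phi S ψ g⁻¹ : AddMonoid.End (M × L)) z) = z := by
  rw [← f1Phi_mul, mul_inv_cancel, f1Phi_one]

private theorem f1Phi_inv' (ψ : α → M →ₗ[k] L) (g : FreeGroup α) (z : M × L) :
    (f1Phi S ψ g⁻¹ : AddMonoid.End (M × L)) ((f1Phi S ψ g : AddMonoid.End (M × L)) z) = z := by
  rw [← f1Phi_mul, inv_mul_cancel, f1Phi_one]

private theorem f1Phi_of (ψ : α → M →ₗ[k] L) (x : α) (z : M × L) :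
    (f1Phi S ψ (FreeGroup.of x) : AddMonoid.End (M × L)) z =
      (S.u (FreeGroup.of x) • z.1,
        S.u (FreeGroup.of x) • z.2 + S.u (FreeGroup.of x) • ψ x z.1) := by
  rw [f1Phi, FreeGroup.lift_apply_of]
  rfl

private theorem f1Phi_fst (ψ : α → M →ₗ[k] L) (g : FreeGroup α) : ∀ z : M × L,
    ((f1Phi S ψ g : AddMonoid.End (M × L)) z).1 = S.u g • z.1 := by
  induction g using FreeGroup.induction_on with
  | C1 =>
    intro z
    rw [f1Phi_one, map_one, one_smul]
  | of x =>
    intro z
    rw [f1Phi_of]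
  | inv_of x ih =>
    intro z
    have h1 := ih ((f1Phi S ψ (FreeGroup.of x)⁻¹ : AddMonoid.End (M × L)) z)
    rw [f1Phi_inv] at h1
    rw [h1, f1_inv_left]
  | mul g h hg hh =>
    intro z
    rw [f1Phi_mul, hg, hh, smul_smul, ← map_mul]

private theorem f1Phi_snd (ψ : α → M →ₗ[k] L) (g : FreeGroup α) : ∀ l : L,
    (f1Phi S ψ g : AddMonoid.End (M × L)) (0, l) = (0, S.u g • l) := by
  induction g using FreeGroup.induction_on with
  | C1 =>
    intro l
    rw [f1Phi_one, map_one, one_smul]
  | of x =>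
    intro l
    rw [f1Phi_of, smul_zero, map_zero, smul_zero, add_zero]
  | inv_of x ih =>
    intro l
    have h1 := ih (S.u (FreeGroup.of x)⁻¹ • l)
    rw [f1_inv_right] at h1
    have h2 := congrArg (f1Phi S ψ (FreeGroup.of x)⁻¹ : AddMonoid.End (M × L)) h1
    rw [f1Phi_inv'] at h2
    exact h2.symm
  | mul g h hg hh =>
    intro l
    rw [f1Phi_mul, hh, hg, smul_smul, ← map_mul]

private theorem f1Phi_smul (ψ : α → M →ₗ[k] L) (g : FreeGroup α) : ∀ (s : k) (z : M × L),
    (f1Phi S ψ g : AddMonoid.End (M × L)) (s • z) =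
      (g • s) • (f1Phi S ψ g : AddMonoid.End (M × L)) z := by
  induction g using FreeGroup.induction_on with
  | C1 =>
    intro s z
    rw [f1Phi_one, f1Phi_one, one_smul]
  | of x =>
    intro s z
    rw [f1Phi_of, f1Phi_of]
    refine Prod.ext ?_ ?_
    · show S.u (FreeGroup.of x) • s • z.1 = (FreeGroup.of x • s) • S.u (FreeGroup.of x) • z.1
      rw [f1_smul]
    · show S.u (FreeGroup.of x) • s • z.2 + S.u (FreeGroup.of x) • ψ x (s • z.1) =
        (FreeGroup.of x • s) • (S.u (FreeGroup.of x) • z.2 + S.u (FreeGroup.of x) • ψ x z.1)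
      rw [map_smul, f1_smul, f1_smul, smul_add]
  | inv_of x ih =>
    intro s z
    have h1 := ih ((FreeGroup.of x)⁻¹ • s)
      ((f1Phi S ψ (FreeGroup.of x)⁻¹ : AddMonoid.End (M × L)) z)
    rw [f1Phi_inv, smul_inv_smul] at h1
    have h2 := congrArg (f1Phi S ψ (FreeGroup.of x)⁻¹ : AddMonoid.End (M × L)) h1
    rw [f1Phi_inv'] at h2
    exact h2.symm
  | mul g h hg hh =>
    intro s z
    rw [f1Phi_mul, f1Phi_mul, hh, hg, mul_smul]

include S in
theorem exists_D (ψ : α → M →ₗ[k] L) :
    ∃ D : FreeGroup α → M →+ L,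
      (∀ (g h : FreeGroup α) (m : M), D (g * h) m = S.u g • D h m + D g (S.u h • m)) ∧
      (∀ (g : FreeGroup α) (s : k) (m : M), D g (s • m) = (g • s) • D g m) ∧
      ∀ (x : α) (m : M), D (FreeGroup.of x) m = S.u (FreeGroup.of x) • ψ x m := by
  refine ⟨fun g => (AddMonoidHom.snd M L).comp
    (AddMonoidHom.comp (f1Phi S ψ g : AddMonoid.End (M × L)) (AddMonoidHom.inl M L)),
    fun g h m => ?_, fun g s m => ?_, fun x m => ?_⟩
  · show ((f1Phi S ψ (g * h) : AddMonoid.End (M × L)) (m, 0)).2 =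
      S.u g • ((f1Phi S ψ h : AddMonoid.End (M × L)) (m, 0)).2 +
      ((f1Phi S ψ g : AddMonoid.End (M × L)) (S.u h • m, 0)).2
    rw [f1Phi_mul]
    have h1 : (f1Phi S ψ h : AddMonoid.End (M × L)) (m, 0) =
        (S.u h • m, 0) + (0, ((f1Phi S ψ h : AddMonoid.End (M × L)) (m, 0)).2) := by
      refine Prod.ext ?_ ?_
      · rw [f1Phi_fst]
        simp
      · simp
    conv_lhs => rw [h1]
    rw [map_add, f1Phi_snd, Prod.snd_add, add_comm]
  · show ((f1Phi S ψ g : AddMonoid.End (M × L)) (s • m, 0)).2 =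
      (g • s) • ((f1Phi S ψ g : AddMonoid.End (M × L)) (m, 0)).2
    have h1 : ((s • m, 0) : M × L) = s • (m, 0) := by
      rw [Prod.smul_mk, smul_zero]
    rw [h1, f1Phi_smul, Prod.smul_snd]
  · show ((f1Phi S ψ (FreeGroup.of x) : AddMonoid.End (M × L)) (m, 0)).2 =
      S.u (FreeGroup.of x) • ψ x m
    rw [f1Phi_of, smul_zero, zero_add]

private noncomputable def f1S (D : FreeGroup α → M →+ L) (f : R) (m : M) : L :=
  (S.basis.repr f).sum fun g s => s • D g m

omit [Module k M] [Module R M] [IsScalarTower k R M] [Module R L] [IsScalarTower k R L] in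
private theorem f1S_zero (D : FreeGroup α → M →+ L) (m : M) : f1S S D (0 : R) m = 0 := by
  simp [f1S]

omit [Module k M] [Module R M] [IsScalarTower k R M] [Module R L] [IsScalarTower k R L] in
private theorem f1S_add (D : FreeGroup α → M →+ L) (f f' : R) (m : M) :
    f1S S D (f + f') m = f1S S D f m + f1S S D f' m := by
  unfold f1S
  rw [map_add, Finsupp.sum_add_index']
  · intro g; rw [zero_smul]
  · intro g c c'; rw [add_smul]

omit [Module k M] [Module R M] [IsScalarTower k R M] [Module R L] [IsScalarTower k R L] in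
private theorem f1S_add' (D : FreeGroup α → M →+ L) (f : R) (m m' : M) :
    f1S S D f (m + m') = f1S S D f m + f1S S D f m' := by
  unfold f1S
  rw [← Finsupp.sum_add]
  refine Finsupp.sum_congr fun g _ => ?_
  rw [map_add, smul_add]

omit [Module k M] [Module R M] [IsScalarTower k R M] [Module R L] [IsScalarTower k R L] in
private theorem f1S_zero' (D : FreeGroup α → M →+ L) (f : R) : f1S S D f 0 = 0 := by
  unfold f1S
  simp

omit [Module k M] [Module R M] [IsScalarTower k R M] [Module R L] [IsScalarTower k R L] in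
private theorem f1S_single (D : FreeGroup α → M →+ L) (g : FreeGroup α) (s : k) (m : M) :
    f1S S D (s • S.u g) m = s • D g m := by
  unfold f1S
  rw [S.repr_smul_u, Finsupp.sum_single_index]
  rw [zero_smul]

private theorem f1S_mul (D : FreeGroup α → M →+ L)
    (hD : ∀ (g h : FreeGroup α) (m : M), D (g * h) m = S.u g • D h m + D g (S.u h • m))
    (hs : ∀ (g : FreeGroup α) (s : k) (m : M), D g (s • m) = (g • s) • D g m)
    (v0 : M) (a f : R) :
    f1S S D (a * f) v0 = a • f1S S D f v0 + f1S S D a (f • v0) := by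
  refine S.induction_on (p := fun a => f1S S D (a * f) v0 =
    a • f1S S D f v0 + f1S S D a (f • v0)) a ?_ ?_ ?_
  · rw [zero_mul, f1S_zero, zero_smul, f1S_zero, add_zero]
  · intro a a' ha ha'
    rw [add_mul, f1S_add, ha, ha', add_smul, f1S_add]
    abel
  · intro s g
    refine S.induction_on (p := fun f => f1S S D (s • S.u g * f) v0 =
      (s • S.u g) • f1S S D f v0 + f1S S D (s • S.u g) (f • v0)) f ?_ ?_ ?_
    · rw [mul_zero, f1S_zero, smul_zero, zero_smul, f1S_zero', add_zero]
    · intro f f' hf hf'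
      rw [mul_add, f1S_add, hf, hf', f1S_add, smul_add, add_smul, f1S_add']
      abel
    · intro t h
      rw [S.smul_mul_smul', f1S_single, f1S_single, f1S_single, hD, smul_assoc s (S.u g),
        smul_assoc t (S.u h), f1_smul, hs, smul_add, mul_smul, mul_smul]

theorem exists_functional (D : FreeGroup α → M →+ L)
    (hD : ∀ (g h : FreeGroup α) (m : M), D (g * h) m = S.u g • D h m + D g (S.u h • m))
    (hs : ∀ (g : FreeGroup α) (s : k) (m : M), D g (s • m) = (g • s) • D g m)
    (v0 : M) (I : Submodule R R) (hI : ∀ f ∈ I, f • v0 = 0) :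
    ∃ φ : I →ₗ[R] L, ∀ f : I, φ f = (S.basis.repr (f : R)).sum fun g s => s • D g v0 := by
  refine ⟨{ toFun := fun f => f1S S D (f : R) v0
            map_add' := fun f f' => ?_
            map_smul' := fun a f => ?_ }, fun f => rfl⟩
  · rw [Submodule.coe_add, f1S_add]
  · rw [Submodule.coe_smul, smul_eq_mul, f1S_mul S D hD hs, hI f f.2, f1S_zero', add_zero]
    rfl

end Skew

end PrimRank
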