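import Pool.Agent.Lib.MP_b8b21d_al.SK.A1

/-!
Schreier transversals in skew group rings of free groups: the skew version of
Pool/Agent/Lib/MP_b8b21d_al/B2.lean, which may be copied and adapted (read the proof there; left
multiplication by `u g` is now semilinear: `u g * (s • x) = (g • s) • (u g * x)`, so it maps the `k`-span of a
set to the `k`-span of the image).
-/

namespace PrimRank

namespace Skew

/-- The largest element of a finite set. -/
private theorem f2_exists_top {β : Type*} (R : β → β → Prop) [IsWellOrder β R] (s : Finset β)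
    (hs : s.Nonempty) : ∃ t ∈ s, ∀ h ∈ s, h = t ∨ R h t := by
  classical
  induction hs using Finset.Nonempty.cons_induction with
  | singleton a => exact ⟨a, Finset.mem_singleton_self a, fun h hh => Or.inl (by simpa using hh)⟩
  | cons a s ha hs ih =>
    obtain ⟨t, ht, h1⟩ := ih
    rcases trichotomous_of R a t with h2 | h2 | h2
    · refine ⟨t, Finset.mem_cons_of_mem ht, fun h hh => ?_⟩
      rcases Finset.mem_cons.1 hh with rfl | h3
      · exact Or.inr h2
      · exact h1 h h3
    · refine ⟨t, Finset.mem_cons_of_mem ht, fun h hh => ?_⟩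
      rcases Finset.mem_cons.1 hh with rfl | h3
      · exact Or.inl h2
      · exact h1 h h3
    · refine ⟨a, Finset.mem_cons_self a s, fun h hh => ?_⟩
      rcases Finset.mem_cons.1 hh with rfl | h3
      · exact Or.inl rfl
      · rcases h1 h h3 with rfl | h4
        · exact Or.inr h2
        · exact Or.inr (_root_.trans h4 h2)

section

variable {α : Type} [DecidableEq α]

/-- The shortlex order on the free group. -/
private def f2_RR (r : α × Bool → α × Bool → Prop) : FreeGroup α → FreeGroup α → Prop :=
  InvImage (List.Shortlex r) FreeGroup.toWord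

private theorem f2_isWellOrder_RR (r : α × Bool → α × Bool → Prop) [IsWellOrder (α × Bool) r] :
    IsWellOrder (FreeGroup α) (f2_RR r) where
  wf := InvImage.wf _ (List.Shortlex.wf IsWellFounded.wf)
  trichotomous := (InvImage.trichotomous (r := List.Shortlex r)
    FreeGroup.toWord_injective).trichotomous

private theorem f2_toWord_mk_of_cons {g : FreeGroup α} {y : α × Bool} {L : List (α × Bool)}
    (h : g.toWord = y :: L) : (FreeGroup.mk L).toWord = L := by
  rw [FreeGroup.toWord_mk]
  apply FreeGroup.IsReduced.reduce_eq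
  have h1 : FreeGroup.IsReduced (y :: L) := by
    rw [← h]
    exact FreeGroup.isReduced_toWord
  exact List.IsChain.right_of_append (l₁ := [y]) h1

private theorem f2_eq_mul_of_cons {g : FreeGroup α} {y : α × Bool} {L : List (α × Bool)}
    (h : g.toWord = y :: L) : g = FreeGroup.mk [y] * FreeGroup.mk L := by
  rw [FreeGroup.mul_mk]
  show g = FreeGroup.mk (y :: L)
  rw [← h, FreeGroup.mk_toWord]

private theorem f2_RR_mul (r : α × Bool → α × Bool → Prop) [IsWellOrder (α × Bool) r]
    {g h : FreeGroup α} {y : α × Bool} {L : List (α × Bool)}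
    (hg : g.toWord = y :: L) (hh : f2_RR r h (FreeGroup.mk L)) :
    f2_RR r (FreeGroup.mk [y] * h) g := by
  have h1 : List.Shortlex r h.toWord L := by
    have h2 : List.Shortlex r h.toWord (FreeGroup.mk L).toWord := hh
    rwa [f2_toWord_mk_of_cons hg] at h2
  show List.Shortlex r (FreeGroup.mk [y] * h).toWord g.toWord
  have h3 : (FreeGroup.mk [y] * h).toWord = FreeGroup.reduce (y :: h.toWord) := by
    rw [FreeGroup.toWord_mul, FreeGroup.toWord_mk, FreeGroup.reduce_singleton]
    rfl
  rw [h3, hg, FreeGroup.reduce.cons, FreeGroup.reduce_toWord]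
  cases h4 : h.toWord with
  | nil =>
    rw [h4] at h1
    exact List.shortlex_cons_iff.2 h1
  | cons hd tl =>
    rw [h4] at h1
    show List.Shortlex r (if y.1 = hd.1 ∧ y.2 = not hd.2 then tl else y :: hd :: tl) (y :: L)
    split_ifs with h5
    · apply List.Shortlex.of_length_lt
      rcases List.shortlex_def.1 h1 with h6 | ⟨h6, -⟩
      · simp only [List.length_cons] at h6 ⊢
        omega
      · simp only [List.length_cons] at h6 ⊢
        omega
    · exact List.shortlex_cons_iff.2 h1

end


variable {k R : Type*} {α : Type} [Field k] [MulSemiringAction (FreeGroup α) k] [Ring R]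
  [Module k R] [IsScalarTower k R R] (S : Skew k (FreeGroup α) R)

/-- The span of group elements and of `I`. -/
private noncomputable def f2_SP (I : Submodule R R) (A : Set (FreeGroup α)) : Submodule k R :=
  Submodule.span k ((fun g => S.u g) '' A) ⊔ I.restrictScalars k

private theorem f2_u_smul (g : FreeGroup α) (s : k) (x : R) :
    S.u g * (s • x) = (g • s) • (S.u g * x) := by
  rw [← one_mul x, ← smul_mul_assoc, ← mul_assoc, S.comm, smul_mul_assoc, one_mul]

private theorem f2_of_mem_SP (I : Submodule R R) {A : Set (FreeGroup α)} {g : FreeGroup α}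
    (hg : g ∈ A) : S.u g ∈ f2_SP S I A :=
  Submodule.mem_sup_left (Submodule.subset_span ⟨g, hg, rfl⟩)

private theorem f2_mem_SP_of_mem (I : Submodule R R) {A : Set (FreeGroup α)} {x : R}
    (hx : x ∈ I) : x ∈ f2_SP S I A :=
  Submodule.mem_sup_right hx

private theorem f2_SP_le (I : Submodule R R) {A : Set (FreeGroup α)} {M : Submodule k R}
    (h1 : ∀ g ∈ A, S.u g ∈ M) (h2 : ∀ x ∈ I, x ∈ M) : f2_SP S I A ≤ M := by
  refine sup_le (Submodule.span_le.2 ?_) fun x hx => h2 x hx
  rintro _ ⟨g, hg, rfl⟩
  exact h1 g hg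

/-- the elements which are mapped into `N` by the left multiplication with `u a` -/
private def f2_pull (a : FreeGroup α) (N : Submodule k R) : Submodule k R where
  carrier := {x | S.u a * x ∈ N}
  zero_mem' := by
    show S.u a * 0 ∈ N
    rw [mul_zero]
    exact N.zero_mem
  add_mem' := by
    intro x y hx hy
    show S.u a * (x + y) ∈ N
    rw [mul_add]
    exact N.add_mem hx hy
  smul_mem' := by
    intro s x hx
    show S.u a * (s • x) ∈ N
    rw [f2_u_smul]
    exact N.smul_mem _ hx

private theorem f2_mem_pull (a : FreeGroup α) (N : Submodule k R) (x : R) :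
    x ∈ f2_pull S a N ↔ S.u a * x ∈ N := Iff.rfl

private theorem f2_symm_eq (c : FreeGroup α →₀ k) :
    S.basis.repr.symm c = ∑ g ∈ c.support, c g • S.u g := by
  rw [Module.Basis.repr_symm_apply, Finsupp.linearCombination_apply, Finsupp.sum]
  exact Finset.sum_congr rfl fun g _ => by rw [S.basis_apply]

private theorem f2_exists_coeff (I : Submodule R R) {A : Set (FreeGroup α)} {x : R}
    (hx : x ∈ f2_SP S I A) :
    ∃ c : FreeGroup α →₀ k, ↑c.support ⊆ A ∧ x - S.basis.repr.symm c ∈ I := by
  classical
  obtain ⟨y, hy, z, hz, rfl⟩ := Submodule.mem_sup.1 hx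
  have h1 : ∃ c : FreeGroup α →₀ k, ↑c.support ⊆ A ∧ y = S.basis.repr.symm c := by
    clear hx
    induction hy using Submodule.span_induction with
    | mem x hx =>
      obtain ⟨g, hg, rfl⟩ := hx
      refine ⟨Finsupp.single g 1, ?_, ?_⟩
      · intro h hh
        have h2 := Finsupp.support_single_subset hh
        rw [Finset.mem_singleton] at h2
        rw [h2]
        exact hg
      · rw [Module.Basis.repr_symm_single_one, S.basis_apply]
    | zero => exact ⟨0, by simp, by rw [map_zero]⟩
    | add x y _ _ hx hy =>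
      obtain ⟨c, hc, rfl⟩ := hx
      obtain ⟨d, hd, rfl⟩ := hy
      refine ⟨c + d, ?_, by rw [map_add]⟩
      intro h hh
      rcases Finset.mem_union.1 (Finsupp.support_add hh) with h2 | h2
      · exact hc h2
      · exact hd h2
    | smul a x _ hx =>
      obtain ⟨c, hc, rfl⟩ := hx
      refine ⟨a • c, ?_, by rw [map_smul]⟩
      intro h hh
      exact hc (Finsupp.support_smul hh)
  obtain ⟨c, hc, rfl⟩ := h1
  refine ⟨c, hc, ?_⟩
  rw [add_sub_cancel_left]
  exact hz

open Classical in
theorem exists_schreier (I : Submodule R R) :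
    ∃ T : Set (FreeGroup α),
      (∀ g ∈ T, ∀ (y : α × Bool) (L : List (α × Bool)), g.toWord = y :: L → FreeGroup.mk L ∈ T) ∧
      (∀ c : FreeGroup α →₀ k, ↑c.support ⊆ T → S.basis.repr.symm c ∈ I → c = 0) ∧
      (∀ g : FreeGroup α, ∃ c : FreeGroup α →₀ k, ↑c.support ⊆ T ∧
        S.u g - S.basis.repr.symm c ∈ I) := by
  set r : α × Bool → α × Bool → Prop := WellOrderingRel with hr
  have := f2_isWellOrder_RR r
  set Q := f2_RR r with hQ
  refine ⟨{g | S.u g ∉ f2_SP S I {h | Q h g}}, ?_, ?_, ?_⟩
  · intro g hg y L hL h1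
    apply hg
    have h2 : f2_SP S I {h | Q h (FreeGroup.mk L)} ≤
        f2_pull S (FreeGroup.mk [y]) (f2_SP S I {h | Q h g}) := by
      refine f2_SP_le S I ?_ ?_
      · intro h hh
        rw [f2_mem_pull, ← map_mul]
        exact f2_of_mem_SP S I (f2_RR_mul r hL hh)
      · intro x hx
        rw [f2_mem_pull]
        exact f2_mem_SP_of_mem S I (I.smul_mem _ hx)
    have h3 := h2 h1
    rw [f2_mem_pull, ← map_mul, ← f2_eq_mul_of_cons hL] at h3
    exact h3
  · intro c hc h1
    by_contra h2
    obtain ⟨t, ht, h3⟩ := f2_exists_top Q c.support (Finsupp.support_nonempty_iff.2 h2)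
    apply hc ht
    have h4 : c t • S.u t =
        S.basis.repr.symm c - ∑ g ∈ c.support.erase t, c g • S.u g := by
      rw [f2_symm_eq, ← Finset.add_sum_erase _ _ ht, add_sub_cancel_right]
    have h5 : c t • S.u t ∈ f2_SP S I {h | Q h t} := by
      rw [h4]
      refine Submodule.sub_mem _ (f2_mem_SP_of_mem S I h1) (Submodule.sum_mem _ fun g hg => ?_)
      refine Submodule.smul_mem _ _ (f2_of_mem_SP S I ?_)
      rw [Finset.mem_erase] at hg
      rcases h3 g hg.2 with h6 | h6
      · exact absurd h6 hg.1
      · exact h6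
    have h6 := Submodule.smul_mem _ (c t)⁻¹ h5
    rwa [smul_smul, inv_mul_cancel₀ (Finsupp.mem_support_iff.1 ht), one_smul] at h6
  · intro g
    apply f2_exists_coeff S I
    induction g using (IsWellFounded.wf (r := Q)).induction with
    | _ g ih =>
      by_cases h1 : S.u g ∈ f2_SP S I {h | Q h g}
      · exact f2_SP_le S I (fun h hh => ih h hh) (fun x hx => f2_mem_SP_of_mem S I hx) h1
      · exact f2_of_mem_SP S I h1

end Skew

end PrimRank
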