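import Pool.Agent.Lib.MP_b8b21d_al.SK.F1
import Pool.Agent.Lib.MP_b8b21d_al.SK.F2

/-!
Left ideals of skew group rings of free groups are free: the skew version of
Pool/Agent/Lib/MP_b8b21d_al/B3.lean, which may be copied and adapted (read the proof there). In the
independence part take, for `(x, t)` in the index set, `ψ y = 0` for `y ≠ x` and `ψ x : M →ₗ[k] R` with class of
`t` ↦ `1` and class of `s` ↦ `0` for the other `s ∈ T`; `D (of x) m = u x • ψ x m`, so that
`φ (r (y, s)) = u x` if `(y, s) = (x, t)` and `0` otherwise (a unit instead of `1`).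
-/

namespace PrimRank

namespace Skew

variable {k R : Type*} {α : Type} [Field k] [MulSemiringAction (FreeGroup α) k] [Ring R]
  [Module k R] [IsScalarTower k R R] (S : Skew k (FreeGroup α) R)

section F3aux

private theorem f3_expand (c : FreeGroup α →₀ k) :
    S.basis.repr.symm c = Finsupp.linearCombination k (fun g => S.u g) c := by
  rw [S.basis.repr_symm_apply]
  congr 2
  funext g
  exact S.basis_apply g

private theorem f3_symm_lc (f : FreeGroup α → (FreeGroup α →₀ k)) (c : FreeGroup α →₀ k) :
    S.basis.repr.symm (Finsupp.linearCombination k f c) =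
      Finsupp.linearCombination k (fun g => S.basis.repr.symm (f g)) c := by
  rw [Finsupp.linearCombination_apply, Finsupp.linearCombination_apply, Finsupp.sum, map_sum,
    Finsupp.sum]
  refine Finset.sum_congr rfl fun g _ => ?_
  rw [map_smul]

omit [MulSemiringAction (FreeGroup α) k] in
/-- a combination of the differences lies in a submodule that contains the differences -/
private theorem f3_mem (J : Submodule R R) (u v : FreeGroup α → R)
    (c : FreeGroup α →₀ k) (h : ∀ g ∈ c.support, u g - v g ∈ J) :
    Finsupp.linearCombination k u c - Finsupp.linearCombination k v c ∈ J := by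
  rw [Finsupp.linearCombination_apply, Finsupp.linearCombination_apply, Finsupp.sum, Finsupp.sum,
    ← Finset.sum_sub_distrib]
  refine Submodule.sum_mem _ fun g hg => ?_
  rw [← smul_sub]
  exact Submodule.smul_of_tower_mem J (c g) (h g hg)

omit [MulSemiringAction (FreeGroup α) k] in
private theorem f3_supp {T : Set (FreeGroup α)} (f : FreeGroup α → (FreeGroup α →₀ k))
    (hf : ∀ g, ↑(f g).support ⊆ T) (c : FreeGroup α →₀ k) :
    ↑(Finsupp.linearCombination k f c).support ⊆ T := by
  rw [← Finsupp.mem_supported k, Finsupp.linearCombination_apply, Finsupp.sum]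
  exact Submodule.sum_mem _ fun g _ =>
    Submodule.smul_mem _ _ ((Finsupp.mem_supported k _).2 (hf g))

/-- the twist of the coefficients by a group element -/
private noncomputable def f3_tw (g : FreeGroup α) (c : FreeGroup α →₀ k) : FreeGroup α →₀ k :=
  c.mapRange (fun s => g • s) (smul_zero g)

private theorem f3_tw_supp (g : FreeGroup α) (c : FreeGroup α →₀ k) :
    (f3_tw g c).support ⊆ c.support := Finsupp.support_mapRange

private theorem f3_u_smul (g h : FreeGroup α) (s : k) :
    S.u g * (s • S.u h) = (g • s) • S.u (g * h) := by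
  have h1 : s • S.u h = (s • (1 : R)) * S.u h := by rw [smul_mul_assoc, one_mul]
  rw [h1, ← mul_assoc, S.comm, smul_mul_assoc, ← map_mul]

private theorem f3_u_mul (g : FreeGroup α) (c : FreeGroup α →₀ k) :
    S.u g * S.basis.repr.symm c =
      Finsupp.linearCombination k (fun t => S.u (g * t)) (f3_tw g c) := by
  rw [f3_expand S c, Finsupp.linearCombination_apply, Finsupp.linearCombination_apply]
  unfold f3_tw
  have h1 := Finsupp.sum_mapRange_index (f := fun s : k => g • s) (hf := smul_zero g) (g := c)
    (h := fun i a => a • S.u (g * i)) (fun a => zero_smul _ _)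
  rw [h1, Finsupp.sum, Finsupp.sum, Finset.mul_sum]
  exact Finset.sum_congr rfl fun h _ => f3_u_smul S g h (c h)

end F3aux

include S in
open Classical in
/-- Every left ideal is free. -/
theorem left_ideal_free (I : Submodule R R) : ∃ ι : Type, Nonempty (Module.Basis ι R I) := by
  by_cases hI : I = ⊤
  · subst hI
    exact ⟨Unit, ⟨(Module.Basis.singleton Unit R).map Submodule.topEquiv.symm⟩⟩
  obtain ⟨T, hsuf, hind, hspan⟩ := S.exists_schreier I
  choose ρ hρT hρI using hspan
  let U : FreeGroup α → R := fun g => S.u g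
  have hUmul : ∀ g h, U (g * h) = U g * U h := fun g h => map_mul _ g h
  have hUone : U 1 = 1 := map_one _
  have hUinv : ∀ g, U g⁻¹ * U g = 1 := fun g => by rw [← hUmul, inv_mul_cancel, hUone]
  have hUinv' : ∀ g, U g * U g⁻¹ = 1 := fun g => by rw [← hUmul, mul_inv_cancel, hUone]
  -- uniqueness
  have huniq : ∀ c c' : FreeGroup α →₀ k, ↑c.support ⊆ T → ↑c'.support ⊆ T →
      (S.basis.repr.symm c - S.basis.repr.symm c' : R) ∈ I → c = c' := by
    intro c c' hc hc' h
    have h1 : ↑(c - c').support ⊆ T := by
      rw [← Finsupp.mem_supported k] at hc hc' ⊢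
      exact Submodule.sub_mem _ hc hc'
    exact sub_eq_zero.1 (hind (c - c') h1 (by rw [map_sub]; exact h))
  have hρeq : ∀ (g : FreeGroup α) (c : FreeGroup α →₀ k), ↑c.support ⊆ T →
      U g - S.basis.repr.symm c ∈ I → ρ g = c := by
    intro g c hc h
    apply huniq _ _ (hρT g) hc
    have h1 : (S.basis.repr.symm (ρ g) - S.basis.repr.symm c : R) =
        (U g - S.basis.repr.symm c) - (U g - S.basis.repr.symm (ρ g)) := by abel
    rw [h1]
    exact I.sub_mem h (hρI g)
  have hUsingle : ∀ g, S.basis.repr.symm (Finsupp.single g (1 : k)) = U g := by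
    intro g
    rw [S.basis.repr_symm_single_one]
    exact S.basis_apply g
  have hρself : ∀ t ∈ T, ρ t = Finsupp.single t 1 := by
    intro t ht
    apply hρeq t _ _ _
    · intro g hg
      have h1 := Finsupp.support_single_subset hg
      rw [Finset.mem_singleton] at h1
      rw [h1]; exact ht
    · rw [hUsingle, sub_self]
      exact I.zero_mem
  -- the nonempty transversal contains 1
  have hTne : T.Nonempty := by
    by_contra hT
    rw [Set.not_nonempty_iff_eq_empty] at hT
    apply hI
    rw [Ideal.eq_top_iff_one]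
    have h1 := hρI 1
    have h2 : ρ 1 = 0 := by
      have h3 := hρT 1
      rw [hT] at h3
      apply Finsupp.support_eq_empty.1
      apply Finset.coe_eq_empty.1
      exact Set.subset_empty_iff.1 h3
    rw [h2, map_zero, sub_zero, map_one] at h1
    exact h1
  have hred : ∀ (L : List (α × Bool)) (g : FreeGroup α) (y : α × Bool), g.toWord = y :: L →
      (FreeGroup.mk L).toWord = L := by
    intro L g y hg
    rw [FreeGroup.toWord_mk]
    apply FreeGroup.IsReduced.reduce_eq
    have h1 : FreeGroup.IsReduced (y :: L) := hg ▸ FreeGroup.isReduced_toWord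
    exact List.IsChain.right_of_append (l₁ := [y]) h1
  have hone : (1 : FreeGroup α) ∈ T := by
    have key : ∀ (L : List (α × Bool)) (g : FreeGroup α), g.toWord = L → g ∈ T →
        (1 : FreeGroup α) ∈ T := by
      intro L
      induction L with
      | nil =>
        intro g hg hgT
        rw [FreeGroup.toWord_eq_nil_iff] at hg
        rw [← hg]; exact hgT
      | cons y L ih =>
        intro g hg hgT
        exact ih _ (hred L g y hg) (hsuf g hgT y L hg)
    obtain ⟨g, hg⟩ := hTne
    exact key _ g rfl hg
  -- the basis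
  let ι : Type := {p : α × FreeGroup α // p.2 ∈ T ∧ FreeGroup.of p.1 * p.2 ∉ T}
  let r : ι → I := fun p => ⟨U (FreeGroup.of p.1.1 * p.1.2) -
    S.basis.repr.symm (ρ (FreeGroup.of p.1.1 * p.1.2)), hρI _⟩
  let J : Submodule R R := Submodule.span _ (Set.range fun p => (r p : R))
  have hJI : J ≤ I := by
    apply Submodule.span_le.2
    rintro _ ⟨p, rfl⟩
    exact (r p).2
  have hJ1 : ∀ x t, t ∈ T → U (FreeGroup.of x * t) -
      S.basis.repr.symm (ρ (FreeGroup.of x * t)) ∈ J := by
    intro x t ht
    by_cases hxt : FreeGroup.of x * t ∈ T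
    · rw [hρself _ hxt, hUsingle, sub_self]
      exact J.zero_mem
    · exact Submodule.subset_span ⟨⟨(x, t), ht, hxt⟩, rfl⟩
  let Sx : α → (FreeGroup α →₀ k) → (FreeGroup α →₀ k) := fun x c =>
    Finsupp.linearCombination k (fun t => ρ (FreeGroup.of x * t)) (f3_tw (FreeGroup.of x) c)
  have hST : ∀ x c, ↑(Sx x c).support ⊆ T := fun x c => f3_supp _ (fun g => hρT _) _
  have hJ2 : ∀ x c, ↑(c : FreeGroup α →₀ k).support ⊆ T →
      U (FreeGroup.of x) * S.basis.repr.symm c - S.basis.repr.symm (Sx x c) ∈ J := by
    intro x c hc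
    have h1 : U (FreeGroup.of x) * S.basis.repr.symm c =
        Finsupp.linearCombination k (fun t => U (FreeGroup.of x * t))
          (f3_tw (FreeGroup.of x) c) := f3_u_mul S _ c
    rw [h1]
    change _ - S.basis.repr.symm (Finsupp.linearCombination k _ _) ∈ J
    rw [f3_symm_lc]
    exact f3_mem J _ _ _ fun g hg => hJ1 x g (hc (f3_tw_supp _ c hg))
  have hgen : ∀ L : List (α × Bool), U (FreeGroup.mk L) -
      S.basis.repr.symm (ρ (FreeGroup.mk L)) ∈ J := by
    intro L
    induction L with
    | nil =>
      have h1 : (FreeGroup.mk ([] : List (α × Bool))) = 1 := rfl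
      rw [h1, hρself 1 hone, hUsingle, sub_self]
      exact J.zero_mem
    | cons y L ih =>
      obtain ⟨a, b⟩ := y
      cases b with
      | true =>
        have h1 : FreeGroup.mk ((a, true) :: L) = FreeGroup.of a * FreeGroup.mk L := rfl
        rw [h1]
        have h2 := hJ2 a _ (hρT (FreeGroup.mk L))
        have h3 := J.smul_mem (U (FreeGroup.of a)) ih
        rw [smul_eq_mul, mul_sub, ← hUmul] at h3
        have h4 : U (FreeGroup.of a * FreeGroup.mk L) -
            S.basis.repr.symm (Sx a (ρ (FreeGroup.mk L))) ∈ J := by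
          have := J.add_mem h3 h2
          rwa [sub_add_sub_cancel] at this
        rw [hρeq _ _ (hST a _) (hJI h4)]
        exact h4
      | false =>
        have h1 : FreeGroup.mk ((a, false) :: L) = (FreeGroup.of a)⁻¹ * FreeGroup.mk L := rfl
        rw [h1]
        obtain ⟨m, hm⟩ : ∃ m, m = ρ ((FreeGroup.of a)⁻¹ * FreeGroup.mk L) := ⟨_, rfl⟩
        have hmT : ↑m.support ⊆ T := hm ▸ hρT _
        have h2 := hJ2 a m hmT
        have h3 : U ((FreeGroup.of a)⁻¹ * FreeGroup.mk L) - S.basis.repr.symm m ∈ I :=
          hm ▸ hρI _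
        have h4 := I.smul_mem (U (FreeGroup.of a)) h3
        rw [smul_eq_mul, mul_sub, ← hUmul, mul_inv_cancel_left] at h4
        have h5 : ρ (FreeGroup.mk L) = Sx a m := by
          apply hρeq _ _ (hST a m)
          have := I.add_mem h4 (hJI h2)
          rwa [sub_add_sub_cancel] at this
        rw [← hm]
        rw [← h5] at h2
        have h6 := J.sub_mem ih h2
        rw [sub_sub_sub_cancel_right] at h6
        have h7 := J.smul_mem (U (FreeGroup.of a)⁻¹) h6
        rw [smul_eq_mul, mul_sub, ← hUmul, ← mul_assoc, hUinv, one_mul] at h7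
        exact h7
  let Rl : (FreeGroup α →₀ k) →ₗ[k] (FreeGroup α →₀ k) := Finsupp.linearCombination k ρ
  have hR : ∀ f : R, f - S.basis.repr.symm (Rl (S.basis.repr f)) ∈ J := by
    intro f
    have h1 : f - S.basis.repr.symm (Rl (S.basis.repr f)) =
        Finsupp.linearCombination k (fun g => S.u g) (S.basis.repr f) -
          Finsupp.linearCombination k (fun g => S.basis.repr.symm (ρ g)) (S.basis.repr f) := by
      rw [← f3_expand S, ← f3_symm_lc, LinearEquiv.symm_apply_apply]
    rw [h1]
    refine f3_mem J _ _ _ fun g _ => ?_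
    have h2 := hgen g.toWord
    rw [FreeGroup.mk_toWord] at h2
    exact h2
  have hRI : ∀ f ∈ I, Rl (S.basis.repr f) = 0 := by
    intro f hf
    apply hind _ (f3_supp _ hρT _)
    have := I.sub_mem hf (hJI (hR f))
    rwa [sub_sub_cancel] at this
  have hIJ : I ≤ J := by
    intro f hf
    have h1 := hR f
    rw [hRI f hf, map_zero, sub_zero] at h1
    exact h1
  have hsp : ⊤ ≤ Submodule.span R (Set.range r) := by
    rintro ⟨f, hf⟩ -
    have h1 : J = (Submodule.span R (Set.range r)).map I.subtype := by
      rw [Submodule.map_span, ← Set.range_comp]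
      rfl
    have h2 := hIJ hf
    rw [h1] at h2
    obtain ⟨y, hy, hyf⟩ := h2
    have h3 : y = ⟨f, hf⟩ := Subtype.ext hyf
    rw [← h3]; exact hy
  -- independence
  have hker : I.restrictScalars k ≤
      LinearMap.ker (Rl ∘ₗ S.basis.repr.toLinearMap) := by
    intro f hf
    rw [LinearMap.mem_ker]
    exact hRI f hf
  let ε : (R ⧸ I) →ₗ[k] (FreeGroup α →₀ k) :=
    (Submodule.liftQ (I.restrictScalars k) _ hker) ∘ₗ
      (Submodule.Quotient.restrictScalarsEquiv k I).symm.toLinearMap
  have hεT : ∀ t ∈ T, ε (Submodule.Quotient.mk (U t)) = Finsupp.single t 1 := by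
    intro t ht
    have h1 : ε (Submodule.Quotient.mk (U t)) = Rl (S.basis.repr (U t)) := rfl
    rw [h1, ← hUsingle t, LinearEquiv.apply_symm_apply]
    change Finsupp.linearCombination k ρ (Finsupp.single t 1) = _
    rw [Finsupp.linearCombination_single, one_smul, hρself t ht]
  have hfun : ∀ p : ι, ∃ φ : I →ₗ[R] R, ∀ q : ι,
      φ (r q) = if q = p then U (FreeGroup.of p.1.1) else 0 := by
    rintro ⟨⟨x, t⟩, htT, hxt⟩
    simp only at htT hxt
    obtain ⟨D, hD, hDs, hDx⟩ := S.exists_D (M := R ⧸ I) (L := R)
      (fun y => if y = x then (LinearMap.toSpanSingleton k R 1) ∘ₗ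
        (Finsupp.lapply t) ∘ₗ ε else 0)
    have hD1 : ∀ m, D 1 m = 0 := by
      intro m
      have h1 := hD 1 1 m
      rw [map_one, one_smul, one_smul, mul_one] at h1
      exact left_eq_add.1 h1
    obtain ⟨φ, hφ⟩ := S.exists_functional D hD hDs (Submodule.Quotient.mk 1) I (by
      intro f hf
      rw [← Submodule.Quotient.mk_smul, smul_eq_mul, mul_one]
      exact (Submodule.Quotient.mk_eq_zero I).2 hf)
    have hact : ∀ g, U g • (Submodule.Quotient.mk 1 : R ⧸ I) = Submodule.Quotient.mk (U g) := by
      intro g
      rw [← Submodule.Quotient.mk_smul, smul_eq_mul, mul_one]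
    have hψ : ∀ y s, s ∈ T → D (FreeGroup.of y) (Submodule.Quotient.mk (U s)) =
        if y = x ∧ s = t then U (FreeGroup.of x) else 0 := by
      intro y s hs
      rw [hDx]
      by_cases hy : y = x
      · rw [if_pos hy]
        simp only [LinearMap.comp_apply, hεT s hs, Finsupp.lapply_apply,
          LinearMap.toSpanSingleton_apply]
        by_cases hst : s = t
        · rw [if_pos ⟨hy, hst⟩, hst, Finsupp.single_eq_same, one_smul, hy, smul_eq_mul, mul_one]
        · rw [if_neg (fun h => hst h.2), Finsupp.single_eq_of_ne' hst, zero_smul, smul_zero]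
      · rw [if_neg hy, if_neg (fun h => hy h.1)]
        exact smul_zero _
    have hD0 : ∀ (L : List (α × Bool)) (s : FreeGroup α), s.toWord = L → s ∈ T →
        D s (Submodule.Quotient.mk 1) = 0 := by
      intro L
      induction L with
      | nil =>
        intro s hs _
        rw [FreeGroup.toWord_eq_nil_iff] at hs
        rw [hs, hD1]
      | cons y L ih =>
        intro s hs hsT
        have hs' : FreeGroup.mk L ∈ T := hsuf s hsT y L hs
        have ih' := ih _ (hred L s y hs) hs'
        have hs2 : s = FreeGroup.mk (y :: L) := by rw [← hs, FreeGroup.mk_toWord]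
        obtain ⟨a, b⟩ := y
        cases b with
        | true =>
          have h1 : s = FreeGroup.of a * FreeGroup.mk L := hs2
          rw [h1, hD, ih', smul_zero, zero_add]
          change D (FreeGroup.of a) (U (FreeGroup.mk L) • _) = 0
          rw [hact, hψ a _ hs', if_neg]
          rintro ⟨rfl, h2⟩
          apply hxt
          rw [← h2, ← h1]
          exact hsT
        | false =>
          have h1 : s = (FreeGroup.of a)⁻¹ * FreeGroup.mk L := hs2
          have h2 : FreeGroup.mk L = FreeGroup.of a * s := by rw [h1, mul_inv_cancel_left]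
          rw [h2, hD] at ih'
          have h3 : D (FreeGroup.of a) (S.u s •
              (Submodule.Quotient.mk 1 : R ⧸ I)) = 0 := by
            change D (FreeGroup.of a) (U s • _) = 0
            rw [hact, hψ a _ hsT, if_neg]
            rintro ⟨rfl, h4⟩
            apply hxt
            rw [← h4, ← h2]
            exact hs'
          rw [h3, add_zero] at ih'
          have h5 := congrArg (fun z => U (FreeGroup.of a)⁻¹ * z) ih'
          simp only [smul_eq_mul, mul_zero] at h5
          rw [← mul_assoc] at h5
          change U (FreeGroup.of a)⁻¹ * U (FreeGroup.of a) * _ = 0 at h5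
          rw [hUinv, one_mul] at h5
          exact h5
    refine ⟨φ, ?_⟩
    rintro ⟨⟨y, s⟩, hsT, hys⟩
    simp only at hsT hys
    rw [hφ]
    have h1 : ∀ c : FreeGroup α →₀ k, (c.sum fun g a => a • D g (Submodule.Quotient.mk 1)) =
        Finsupp.linearCombination k (fun g => D g (Submodule.Quotient.mk 1)) c := fun c =>
      (Finsupp.linearCombination_apply k c).symm
    rw [h1]
    have h2 : S.basis.repr ((r ⟨(y, s), hsT, hys⟩ : I) : R) =
        Finsupp.single (FreeGroup.of y * s) 1 - ρ (FreeGroup.of y * s) := by
      change S.basis.repr (U (FreeGroup.of y * s) -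
        S.basis.repr.symm (ρ (FreeGroup.of y * s))) = _
      rw [map_sub, LinearEquiv.apply_symm_apply, ← hUsingle, LinearEquiv.apply_symm_apply]
    rw [h2, map_sub, Finsupp.linearCombination_single, one_smul]
    have h3 : Finsupp.linearCombination k (fun g => D g (Submodule.Quotient.mk 1))
        (ρ (FreeGroup.of y * s)) = 0 := by
      rw [Finsupp.linearCombination_apply]
      refine Finset.sum_eq_zero fun g hg => ?_
      simp only
      rw [hD0 _ g rfl (hρT _ hg), smul_zero]
    rw [h3, sub_zero, hD, hD0 _ s rfl hsT, smul_zero, zero_add]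
    change D (FreeGroup.of y) (U s • _) = _
    rw [hact, hψ y s hsT]
    congr 1
    rw [Subtype.mk.injEq, Prod.mk.injEq]
  have hli : LinearIndependent R r := by
    rw [linearIndependent_iff]
    intro l hl
    ext1 p
    obtain ⟨φ, hφ⟩ := hfun p
    have h1 := congrArg φ hl
    rw [Finsupp.linearCombination_apply, Finsupp.sum, map_sum, map_zero] at h1
    simp only [map_smul, hφ, smul_eq_mul, mul_ite, mul_zero] at h1
    rw [Finset.sum_ite_eq'] at h1
    by_cases hp : p ∈ l.support
    · rw [if_pos hp] at h1
      have h2 := congrArg (fun z => z * U (FreeGroup.of p.1.1)⁻¹) h1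
      simp only [zero_mul] at h2
      rw [mul_assoc, hUinv', mul_one] at h2
      exact h2
    · exact Finsupp.notMem_support_iff.1 hp
  exact ⟨ι, ⟨Module.Basis.mk hli hsp⟩⟩

end Skew

end PrimRank
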