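import Mathlib.Algebra.SkewMonoidAlgebra.Basic
import Pool.Agent.Lib.MP_b8b21d_al.SK.Defs

/-!
Existence of skew group rings: Mathlib's `SkewMonoidAlgebra k G` (Mathlib/Algebra/SkewMonoidAlgebra).

PROOF. `u g = single g 1`, the basis from the equivalence with `G →₀ k` (`coeff`, `ofCoeff`), and
`single g 1 * single 1 s = single g (g • s)`.
-/

namespace PrimRank

theorem exists_skew.{u} (k : Type u) (G : Type) [Field k] [Group G] [MulSemiringAction G k] :
    ∃ (R : Type u) (_ : Ring R) (_ : Module k R) (_ : IsScalarTower k R R),
      Nonempty (Skew k G R) := by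
  refine ⟨SkewMonoidAlgebra k G, inferInstance, inferInstance, inferInstance, ⟨
    { u :=
        { toFun := fun g => SkewMonoidAlgebra.single g 1
          map_one' := rfl
          map_mul' := fun g h => ?_ }
      basis := SkewMonoidAlgebra.basisSingleOne
      basis_apply := fun g => ?_
      comm := fun g s => ?_ }⟩⟩
  · rw [SkewMonoidAlgebra.single_mul_single, smul_one, mul_one]
  · apply SkewMonoidAlgebra.basisSingleOne.repr.injective
    rw [Module.Basis.repr_self]
    rfl
  · show SkewMonoidAlgebra.single g (1 : k) * (s • (1 : SkewMonoidAlgebra k G)) =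
      (g • s) • SkewMonoidAlgebra.single g (1 : k)
    rw [SkewMonoidAlgebra.one_def, SkewMonoidAlgebra.smul_single,
      SkewMonoidAlgebra.single_mul_single, SkewMonoidAlgebra.smul_single, mul_one, one_mul,
      smul_eq_mul, mul_one, smul_eq_mul, mul_one]

end PrimRank
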