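import Pool.Agent.Lib.MP_b8b21d_al.HN.Defs
import Pool.Agent.Lib.MP_b8b21d_al.SK.Defs

/-!
The group algebra is a skew group ring for the trivial action.

PROOF. `MulSemiringAction (FreeGroup α) K` with `g • s = s` (define it by hand: all axioms are `rfl` or
`simp`), `R = GA K α = MonoidAlgebra K (FreeGroup α)` (universe: `FreeGroup α : Type`, so `R : Type u`),
`u = MonoidAlgebra.of`, basis from `MonoidAlgebra.coeffLinearEquiv`. Then `PPs` is `PP`.
-/

namespace PrimRank

/-- The trivial action. -/
@[reducible] private def i2Act (K : Type*) [Field K] (G : Type*) [Group G] : MulSemiringAction G K where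
  smul := fun _ s => s
  one_smul := fun _ => rfl
  mul_smul := fun _ _ _ => rfl
  smul_zero := fun _ => rfl
  smul_add := fun _ _ _ => rfl
  smul_one := fun _ => rfl
  smul_mul := fun _ _ _ => rfl

theorem anyPP_of_PP.{u} (K : Type u) [Field K] {α : Type} (w : FreeGroup α) (m : ℕ)
    (h : PP K w m) : AnyPP.{u} w m := by
  obtain ⟨a, b, h1, h2, h3⟩ := h
  letI : MulSemiringAction (FreeGroup α) K := i2Act K (FreeGroup α)
  let S : Skew K (FreeGroup α) (GA K α) :=
    { u := MonoidAlgebra.of K (FreeGroup α)
      basis := Module.Basis.ofRepr (MonoidAlgebra.coeffLinearEquiv K)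
      basis_apply := by
        intro g
        rw [Module.Basis.coe_ofRepr]
        rfl
      comm := by
        intro g s
        rw [mul_smul_comm, mul_one]
        rfl }
  exact ⟨K, inferInstance, i2Act K (FreeGroup α), GA K α, inferInstance, inferInstance,
    inferInstance, S, a, b, h1, h2, h3⟩

end PrimRank
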