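import Pool.Agent.Lib.MP_b8b21d_al.E1
import Pool.Agent.Lib.MP_b8b21d_al.SK.A1

/-!
The ideal of a subgroup of a group has the basis `u (B i) - 1`, `B` a free basis of the subgroup.

PROOF. Generation: `u (h h') - 1 = u h (u h' - 1) + (u h - 1)`, `u h⁻¹ - 1 = - u h⁻¹ (u h - 1)`, and `H` is
generated by the `B i` (as in Pool/Agent/Lib/MP_b8b21d_al/E1.lean, theorem nonempty_basis_subIdeal).
Independence: `∑ a_i (u (B i) - 1) = 0` with `a_i = ∑_g s_{i g} u g` says
`∑_{i, g} s_{i g} (u (g B i) - u g) = 0`, i.e. in the free vector space on `G`: `∑ s_{i g} (e (g B i) - e g) = 0`.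
The same relation in the ordinary group algebra `k[G]` says `∑ a'_i (B i - 1) = 0`, `a'_i = ∑ s_{i g} g`, and
the basis of E1 (`nonempty_basis_subIdeal`, its elements are `MonoidAlgebra.of (B i) - 1`) gives `a'_i = 0`. (If
the statement in E1 does not give the form of the basis elements use its proof.) The `k`-linear
bijection `R ≃ MonoidAlgebra k G`, `∑ s_g u g ↦ ∑ s_g g`, maps `x * (u (B i) - 1)` to `x' * (of (B i) - 1)`.
-/

namespace PrimRank

namespace Skew

variable {k G R : Type*} [Field k] [Group G] [MulSemiringAction G k] [Ring R] [Module k R]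
  [IsScalarTower k R R]

/-- restriction of the coefficients to the coset `g H` -/
private noncomputable def K1_res (K : Type*) [Field K] {G : Type} [Group G] (H : Subgroup G) (g : G)
    (a : MonoidAlgebra K G) : MonoidAlgebra K H :=
  MonoidAlgebra.ofCoeff (Finsupp.comapDomain (fun h : H => g * (h : G)) a.coeff
    (fun _ _ _ _ hxy => Subtype.ext (mul_left_cancel hxy)))

private theorem K1_res_coeff (K : Type*) [Field K] {G : Type} [Group G] (H : Subgroup G) (g : G)
    (a : MonoidAlgebra K G) (h : H) : (K1_res K H g a).coeff h = a.coeff (g * h) := rfl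

private theorem K1_res_add (K : Type*) [Field K] {G : Type} [Group G] (H : Subgroup G) (g : G)
    (a b : MonoidAlgebra K G) : K1_res K H g (a + b) = K1_res K H g a + K1_res K H g b := by
  ext h
  rw [K1_res_coeff, MonoidAlgebra.coeff_add, MonoidAlgebra.coeff_add, Finsupp.add_apply,
    Finsupp.add_apply, K1_res_coeff, K1_res_coeff]

private theorem K1_res_sub (K : Type*) [Field K] {G : Type} [Group G] (H : Subgroup G) (g : G)
    (a b : MonoidAlgebra K G) : K1_res K H g (a - b) = K1_res K H g a - K1_res K H g b := by
  ext h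
  rw [K1_res_coeff, MonoidAlgebra.coeff_sub, MonoidAlgebra.coeff_sub, Finsupp.sub_apply,
    Finsupp.sub_apply, K1_res_coeff, K1_res_coeff]

private theorem K1_res_zero (K : Type*) [Field K] {G : Type} [Group G] (H : Subgroup G) (g : G) :
    K1_res K H g 0 = 0 := by
  ext h
  rw [K1_res_coeff]
  rfl

private theorem K1_res_sum (K : Type*) [Field K] {G : Type} [Group G] (H : Subgroup G) (g : G)
    {ι : Type*} (s : Finset ι) (a : ι → MonoidAlgebra K G) :
    K1_res K H g (∑ i ∈ s, a i) = ∑ i ∈ s, K1_res K H g (a i) := by
  classical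
  induction s using Finset.induction_on with
  | empty => simp [K1_res_zero]
  | insert i s hi ih => rw [Finset.sum_insert hi, Finset.sum_insert hi, K1_res_add, ih]

private theorem K1_res_mul_of (K : Type*) [Field K] {G : Type} [Group G] (H : Subgroup G) (g : G)
    (a : MonoidAlgebra K G) (k : H) :
    K1_res K H g (a * MonoidAlgebra.of K G (k : G)) = K1_res K H g a * MonoidAlgebra.of K H k := by
  ext h
  rw [K1_res_coeff, MonoidAlgebra.of_apply, MonoidAlgebra.of_apply,
    MonoidAlgebra.coeff_mul_single_apply, MonoidAlgebra.coeff_mul_single_apply, K1_res_coeff]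
  simp [mul_assoc]

/-- The `K`-linear extension of a map `H → K[H]`. -/
private noncomputable def K1_ext (K : Type*) [Field K] {H : Type} [Group H]
    (d : H → MonoidAlgebra K H) (f : MonoidAlgebra K H) : MonoidAlgebra K H :=
  f.coeff.sum fun h c => c • d h

private theorem K1_ext_add (K : Type*) [Field K] {H : Type} [Group H]
    (d : H → MonoidAlgebra K H) (f g : MonoidAlgebra K H) :
    K1_ext K d (f + g) = K1_ext K d f + K1_ext K d g := by
  unfold K1_ext
  rw [MonoidAlgebra.coeff_add]
  exact Finsupp.sum_add_index' (fun h => zero_smul _ _) (fun h a b => add_smul _ _ _)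

private theorem K1_ext_zero (K : Type*) [Field K] {H : Type} [Group H]
    (d : H → MonoidAlgebra K H) : K1_ext K d 0 = 0 := by
  unfold K1_ext
  simp

private theorem K1_ext_sum (K : Type*) [Field K] {H : Type} [Group H]
    (d : H → MonoidAlgebra K H) {ι : Type*} (s : Finset ι) (a : ι → MonoidAlgebra K H) :
    K1_ext K d (∑ i ∈ s, a i) = ∑ i ∈ s, K1_ext K d (a i) := by
  classical
  induction s using Finset.induction_on with
  | empty => simp [K1_ext_zero]
  | insert i s hi ih => rw [Finset.sum_insert hi, Finset.sum_insert hi, K1_ext_add, ih]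

private theorem K1_ext_single (K : Type*) [Field K] {H : Type} [Group H]
    (d : H → MonoidAlgebra K H) (h : H) (c : K) :
    K1_ext K d (MonoidAlgebra.single h c) = c • d h := by
  unfold K1_ext
  rw [MonoidAlgebra.coeff_single]
  exact Finsupp.sum_single_index (zero_smul _ _)

private theorem K1_ext_mul (K : Type*) [Field K] {H : Type} [Group H]
    (d : H → MonoidAlgebra K H) (hd : IsDer d) (c : MonoidAlgebra K H) (k : H) :
    K1_ext K d (c * (MonoidAlgebra.of K H k - 1)) = c * d k := by
  induction c using MonoidAlgebra.induction_linear with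
  | zero => simp [K1_ext_zero]
  | add f g hf hg => rw [add_mul, K1_ext_add, hf, hg, add_mul]
  | single h r =>
    have h1 : (MonoidAlgebra.single h r : MonoidAlgebra K H) * (MonoidAlgebra.of K H k - 1) =
        MonoidAlgebra.single (h * k) r + MonoidAlgebra.single h (-r) := by
      rw [mul_sub, mul_one, MonoidAlgebra.of_apply, MonoidAlgebra.single_mul_single, mul_one,
        MonoidAlgebra.single_neg, sub_eq_add_neg]
    rw [h1, K1_ext_add, K1_ext_single, K1_ext_single, hd h k, smul_add, MonoidAlgebra.of_apply]
    have h2 : (MonoidAlgebra.single h r : MonoidAlgebra K H) =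
        r • MonoidAlgebra.single h (1 : K) := by
      rw [MonoidAlgebra.smul_single, smul_eq_mul, mul_one]
    rw [h2, smul_mul_assoc, neg_smul]
    abel

/-- Left independence of the elements `b i - 1` in the group algebra. -/
private theorem K1_li (K : Type*) [Field K] {G : Type} [Group G] (H : Subgroup G)
    {ι : Type} (b : FreeGroupBasis ι H) (s : Finset ι) (a : ι → MonoidAlgebra K G)
    (h0 : ∑ i ∈ s, a i * (MonoidAlgebra.of K G (b i : G) - 1) = 0) : ∀ j ∈ s, a j = 0 := by
  classical
  intro j hj
  obtain ⟨d, hd1, hd2⟩ := exists_der (K := K) (b.repr.symm : FreeGroup ι →* H)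
    (Pi.single j (1 : MonoidAlgebra K H))
  set D : H → MonoidAlgebra K H := fun h => d (b.repr h) with hD
  have hDer : IsDer D := by
    intro g h
    simp only [hD, map_mul, hd1]
    simp
  have hDb : ∀ i, D (b i) = Pi.single (M := fun _ => MonoidAlgebra K H) j 1 i := by
    intro i
    simp only [hD]
    rw [FreeGroupBasis.repr_apply_coe, hd2]
  have key : ∀ g : G, K1_res K H g (a j) = 0 := by
    intro g
    have h1 := congrArg (K1_res K H g) h0
    rw [K1_res_sum, K1_res_zero] at h1
    have h2 : ∀ i ∈ s, K1_res K H g (a i * (MonoidAlgebra.of K G (b i : G) - 1)) =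
        K1_res K H g (a i) * (MonoidAlgebra.of K H (b i) - 1) := by
      intro i _
      rw [mul_sub, mul_one, K1_res_sub, K1_res_mul_of, mul_sub, mul_one]
    rw [Finset.sum_congr rfl h2] at h1
    have h3 := congrArg (K1_ext K D) h1
    rw [K1_ext_sum, K1_ext_zero] at h3
    rw [Finset.sum_congr rfl fun i _ => K1_ext_mul K D hDer _ (b i)] at h3
    simp only [hDb] at h3
    rw [Finset.sum_eq_single j] at h3
    · simpa using h3
    · intro i _ hij
      rw [Pi.single_eq_of_ne hij, mul_zero]
    · intro h
      exact absurd hj h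
  ext g
  have := congrArg (fun x => x.coeff (1 : H)) (key g)
  simpa [K1_res_coeff] using this

/-- The coefficients as an element of the group algebra. -/
private noncomputable def K1_tau {k R : Type*} {G : Type} [Field k] [Group G]
    [MulSemiringAction G k] [Ring R] [Module k R] [IsScalarTower k R R] (S : Skew k G R) (x : R) :
    MonoidAlgebra k G := MonoidAlgebra.ofCoeff (S.basis.repr x)

section K1

variable {k R : Type*} {G : Type} [Field k] [Group G] [MulSemiringAction G k] [Ring R]
  [Module k R] [IsScalarTower k R R] (S : Skew k G R)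

private theorem K1_tau_coeff (x : R) (g : G) : (K1_tau S x).coeff g = S.basis.repr x g := rfl

private theorem K1_tau_add (x y : R) : K1_tau S (x + y) = K1_tau S x + K1_tau S y := by
  ext g
  rw [K1_tau_coeff, MonoidAlgebra.coeff_add, Finsupp.add_apply, K1_tau_coeff, K1_tau_coeff,
    map_add, Finsupp.add_apply]

private theorem K1_tau_zero : K1_tau S (0 : R) = 0 := by
  ext g
  rw [K1_tau_coeff, map_zero]
  rfl

private theorem K1_tau_sub (x y : R) : K1_tau S (x - y) = K1_tau S x - K1_tau S y := by
  have h := K1_tau_add S (x - y) y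
  rw [sub_add_cancel] at h
  rw [h, add_sub_cancel_right]

private theorem K1_tau_sum {ι : Type*} (s : Finset ι) (a : ι → R) :
    K1_tau S (∑ i ∈ s, a i) = ∑ i ∈ s, K1_tau S (a i) := by
  classical
  induction s using Finset.induction_on with
  | empty => rw [Finset.sum_empty, Finset.sum_empty, K1_tau_zero]
  | insert i s hi ih => rw [Finset.sum_insert hi, Finset.sum_insert hi, K1_tau_add, ih]

private theorem K1_tau_inj {x : R} (h : K1_tau S x = 0) : x = 0 := by
  refine S.ext_coeff fun g => ?_
  have h1 := congrArg (fun z => z.coeff g) h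
  simp only [K1_tau_coeff] at h1
  rw [h1, map_zero]
  rfl

private theorem K1_tau_mul_u (x : R) (h : G) :
    K1_tau S (x * S.u h) = K1_tau S x * MonoidAlgebra.of k G h := by
  induction x using S.induction_on with
  | h0 => rw [zero_mul, K1_tau_zero, zero_mul]
  | hadd x y hx hy => rw [add_mul, K1_tau_add, K1_tau_add, hx, hy, add_mul]
  | hs s g =>
    have h1 : (s • S.u g) * S.u h = s • S.u (g * h) := by rw [smul_mul_assoc, ← map_mul]
    have h2 : ∀ g' : G, K1_tau S (s • S.u g') = MonoidAlgebra.single g' s := by
      intro g'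
      ext z
      rw [K1_tau_coeff, S.repr_smul_u, MonoidAlgebra.coeff_single]
    rw [h1, h2, h2, MonoidAlgebra.of_apply, MonoidAlgebra.single_mul_single, mul_one]

end K1

theorem nonempty_basis_sub {k R : Type*} {G : Type} [Field k] [Group G] [MulSemiringAction G k]
    [Ring R] [Module k R] [IsScalarTower k R R] (S : Skew k G R) (H : Subgroup G) {ι : Type}
    (B : FreeGroupBasis ι H) :
    ∃ b : Module.Basis ι R (Submodule.span R {f | ∃ h ∈ H, f = S.u h - 1}),
      ∀ i, (b i : R) = S.u (B i : G) - 1 := by
  classical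
  have hmem : ∀ i, S.u (B i : G) - 1 ∈
      Submodule.span R {f | ∃ h ∈ H, f = S.u h - 1} := fun i =>
    Submodule.subset_span ⟨(B i : G), (B i).2, rfl⟩
  set v : ι → Submodule.span R {f | ∃ h ∈ H, f = S.u h - 1} := fun i =>
    ⟨S.u (B i : G) - 1, hmem i⟩ with hv
  have hli : LinearIndependent R v := by
    rw [linearIndependent_iff']
    intro s a ha j hj
    have h0 : ∑ i ∈ s, a i * (S.u (B i : G) - 1) = 0 := by
      have := congrArg (Subtype.val) ha
      simpa [hv, smul_eq_mul] using this
    have h1 := congrArg (K1_tau S) h0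
    rw [K1_tau_sum, K1_tau_zero] at h1
    have h2 : ∀ i ∈ s, K1_tau S (a i * (S.u (B i : G) - 1)) =
        K1_tau S (a i) * (MonoidAlgebra.of k G (B i : G) - 1) := by
      intro i _
      rw [mul_sub, mul_one, K1_tau_sub, K1_tau_mul_u, mul_sub, mul_one]
    rw [Finset.sum_congr rfl h2] at h1
    exact K1_tau_inj S (K1_li k H B s (fun i => K1_tau S (a i)) h1 j hj)
  have hsp : ⊤ ≤ Submodule.span R (Set.range v) := by
    have hS : ∀ x : FreeGroup ι, S.u ((B.repr.symm x : H) : G) - 1 ∈
        Submodule.span R (Set.range fun i => S.u (B i : G) - 1) := by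
      set T := Submodule.span R (Set.range fun i => S.u (B i : G) - 1) with hT
      have hmul : ∀ g h : G, S.u g - 1 ∈ T → S.u h - 1 ∈ T → S.u (g * h) - 1 ∈ T := by
        intro g h hg hh
        have : S.u (g * h) - 1 = S.u g • (S.u h - 1) + (S.u g - 1) := by
          rw [smul_eq_mul, map_mul, mul_sub, mul_one]
          abel
        rw [this]
        exact T.add_mem (T.smul_mem _ hh) hg
      have hinv : ∀ g : G, S.u g - 1 ∈ T → S.u g⁻¹ - 1 ∈ T := by
        intro g hg
        have : S.u g⁻¹ - 1 = (-S.u g⁻¹) • (S.u g - 1) := by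
          rw [smul_eq_mul, neg_mul, mul_sub, mul_one, ← map_mul, inv_mul_cancel, map_one]
          abel
        rw [this]
        exact T.smul_mem _ hg
      intro x
      induction x using FreeGroup.induction_on with
      | C1 =>
        rw [map_one, Subgroup.coe_one, map_one, sub_self]
        exact T.zero_mem
      | of i =>
        have h1 : (B.repr.symm (FreeGroup.of i) : H) = B i := by
          rw [MulEquiv.symm_apply_eq, FreeGroupBasis.repr_apply_coe]
        change S.u ((B.repr.symm (FreeGroup.of i) : H) : G) - 1 ∈ T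
        rw [h1]
        exact Submodule.subset_span ⟨i, rfl⟩
      | inv_of i hi =>
        rw [map_inv]
        exact hinv _ hi
      | mul x y hx hy =>
        rw [map_mul]
        exact hmul _ _ hx hy
    rintro ⟨x, hx⟩ -
    have h1 : Submodule.span R {f | ∃ h ∈ H, f = S.u h - 1} ≤
        Submodule.span R (Set.range fun i => S.u (B i : G) - 1) := by
      rw [Submodule.span_le]
      rintro f ⟨h, hh, rfl⟩
      have := hS (B.repr ⟨h, hh⟩)
      simpa using this
    have h2 : (Set.range fun i => S.u (B i : G) - 1) =
        (Submodule.span R {f | ∃ h ∈ H, f = S.u h - 1}).subtype '' (Set.range v) := by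
      rw [← Set.range_comp]
      rfl
    have h3 := h1 hx
    rw [h2, Submodule.span_image] at h3
    obtain ⟨y, hy, hyx⟩ := h3
    have : y = ⟨x, hx⟩ := Subtype.ext hyx
    rwa [← this]
  exact ⟨Module.Basis.mk hli hsp, fun i => by rw [Module.Basis.mk_apply]⟩

end Skew

end PrimRank
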