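import Pool.Agent.Lib.MP_b8b21d_al.SK.Defs

/-!
Additive invariant functions of almost invariant subsets of a free group.

PROOF. For a letter `y : α × Bool` let `H y = {g | g.toWord` starts with `y}`. `FreeGroup α` is the disjoint union
of `{1}` and the `H y` (finitely many, `Finite α`). `Alm (H y)`: if `g ∈ H y` and `g * d ∉ H y` then the first
letter of `g` is cancelled by `d`, so `g.norm ≤ d.norm`, finitely many `g` (`Finite α`; e.g. the words of length
`≤ n` over a finite alphabet are finitely many, `List.finite_length_le`). `Alm` is stable under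
complements (`g ∉ S`, `g d ∈ S` means `g' = g d ∈ S`, `g' d⁻¹ ∉ S`), finite unions, left translations, and
finite sets are `Alm`. For a generator `x` with letters `y = (x, true)`, `y' = (x, false)`:
`H y' = (of x)⁻¹ * (H y)ᶜ` (left multiplication by `x⁻¹` maps the words that do not start with `x` to the
words that start with `x⁻¹`). So `i (H y') = i ((H y)ᶜ) = i univ - i (H y) = - i (H y)`, and
`0 = i univ = i {1} + ∑_x (i (H (x, true)) + i (H (x, false))) = i {1}`.
-/

namespace PrimRank

theorem alm_compl {G : Type*} [Group G] {S : Set G} (h : Alm S) : Alm Sᶜ := by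
  intro d
  refine ((h d⁻¹).image (fun g => g * d⁻¹)).subset ?_
  rintro g ⟨h1, h2⟩
  refine ⟨g * d, ⟨by simpa using h2, ?_⟩, by simp⟩
  simpa using h1

private theorem n1_alm_union {G : Type*} [Group G] {S T : Set G} (hS : Alm S) (hT : Alm T) :
    Alm (S ∪ T) := by
  intro d
  refine ((hS d).union (hT d)).subset ?_
  rintro g ⟨h1, h2⟩
  rw [Set.mem_union, not_or] at h2
  rcases h1 with h | h
  · exact Or.inl ⟨h, h2.1⟩
  · exact Or.inr ⟨h, h2.2⟩

private theorem n1_alm_finite {G : Type*} [Group G] {S : Set G} (hS : S.Finite) : Alm S :=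
  fun _ => hS.subset fun _ h => h.1

/-- the elements whose reduced word starts with `y` -/
private def n1H {α : Type} [DecidableEq α] (y : α × Bool) : Set (FreeGroup α) :=
  {g | g.toWord.head? = some y}

private theorem n1_step {α : Type} [DecidableEq α] (y e : α × Bool) :
    {g | g ∈ n1H y ∧ g * FreeGroup.mk [e] ∉ n1H y} ⊆ {FreeGroup.mk [y]} := by
  rintro g ⟨h1, h2⟩
  have h1' : g.toWord.head? = some y := h1
  obtain ⟨L, hL⟩ : ∃ L, g.toWord = y :: L := by
    rcases h : g.toWord with _ | ⟨a, L⟩
    · rw [h] at h1'
      simp at h1'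
    · rw [h] at h1'
      simp only [List.head?_cons, Option.some.injEq] at h1'
      exact ⟨L, by rw [h1']⟩
  have hg : g = FreeGroup.mk (y :: L) := by rw [← hL, FreeGroup.mk_toWord]
  have hred : FreeGroup.IsReduced (y :: L) := by
    rw [← hL]
    exact FreeGroup.isReduced_toWord
  rcases eq_or_ne L [] with hL0 | hL0
  · rw [hL0] at hg
    exact hg
  · exfalso
    apply h2
    obtain ⟨M, l, hM⟩ : ∃ M l, L = M ++ [l] := ⟨_, _, (List.dropLast_append_getLast hL0).symm⟩
    subst hM
    have hmul : g * FreeGroup.mk [e] = FreeGroup.mk ((y :: M) ++ [l] ++ [e]) := by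
      rw [hg, FreeGroup.mul_mk]
      simp
    have hred' : FreeGroup.IsReduced ((y :: M) ++ [l]) := by simpa using hred
    by_cases hc : l.1 = e.1 ∧ e.2 = !l.2
    · have h3 : g * FreeGroup.mk [e] = FreeGroup.mk (y :: M) := by
        rw [hmul]
        obtain ⟨x, b⟩ := l
        obtain ⟨x', b'⟩ := e
        obtain ⟨h4, h5⟩ := hc
        simp only at h4 h5
        subst h4 h5
        have h6 : FreeGroup.Red.Step ((y :: M) ++ (x, b) :: (x, !b) :: []) ((y :: M) ++ []) :=
          FreeGroup.Red.Step.not
        have h7 := Quot.sound h6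
        rw [List.append_nil] at h7
        rw [List.append_assoc]
        exact h7
      have h4 : (FreeGroup.mk (y :: M)).toWord = y :: M := by
        rw [FreeGroup.toWord_mk]
        exact FreeGroup.IsReduced.reduce_eq (List.IsChain.left_of_append hred')
      rw [h3]
      change (FreeGroup.mk (y :: M)).toWord.head? = some y
      rw [h4]
      rfl
    · have h3 : FreeGroup.IsReduced ((y :: M) ++ [l] ++ [e]) := by
        refine FreeGroup.IsReduced.append_overlap hred' ?_ (by simp)
        change List.IsChain _ [l, e]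
        rw [List.isChain_pair]
        intro h5
        by_contra h6
        refine hc ⟨h5, ?_⟩
        cases hl : l.2 <;> cases he : e.2 <;> simp_all
      rw [hmul]
      change (FreeGroup.mk ((y :: M) ++ [l] ++ [e])).toWord.head? = some y
      rw [FreeGroup.toWord_mk, h3.reduce_eq]
      rfl

private theorem n1_alm_H {α : Type} [DecidableEq α] (y : α × Bool) : Alm (n1H y) := by
  intro d
  induction d using FreeGroup.induction_on with
  | C1 => 
    refine Set.finite_empty.subset ?_
    rintro g ⟨h1, h2⟩
    rw [mul_one] at h2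
    exact (h2 h1).elim
  | of x => exact (Set.finite_singleton _).subset (n1_step y (x, true))
  | inv_of x _ => 
    have h : (FreeGroup.of x)⁻¹ = FreeGroup.mk [(x, false)] := rfl
    exact (Set.finite_singleton _).subset (n1_step y (x, false))
  | mul a b ha hb =>
    refine (ha.union (hb.preimage (f := fun g => g * a) ((mul_left_injective a).injOn))).subset ?_
    rintro g ⟨h1, h2⟩
    by_cases h : g * a ∈ n1H y
    · right
      exact ⟨h, by rwa [mul_assoc]⟩
    · left
      exact ⟨h1, h⟩

private theorem n1_cons {α : Type} [DecidableEq α] (x : α) (g : FreeGroup α) :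
    FreeGroup.of x * g ∉ n1H (x, true) ↔ g ∈ n1H (x, false) := by
  have h1 : (FreeGroup.of x * g).toWord = FreeGroup.reduce ((x, true) :: g.toWord) := by
    rw [FreeGroup.toWord_mul, FreeGroup.toWord_of]
    rfl
  change ¬ (FreeGroup.of x * g).toWord.head? = some (x, true) ↔ g.toWord.head? = some (x, false)
  have hred := FreeGroup.isReduced_toWord (x := g)
  rw [h1, FreeGroup.reduce.cons, FreeGroup.reduce_toWord]
  rcases h : g.toWord with _ | ⟨⟨a, b⟩, tl⟩
  · simp
  · rw [h] at hred
    simp only [List.head?_cons, Option.some.injEq, Prod.mk.injEq]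
    by_cases hab : x = a ∧ true = !b
    · rw [if_pos hab]
      obtain ⟨rfl, hb⟩ := hab
      have hb' : b = false := by simpa using hb.symm
      subst hb'
      refine iff_of_true ?_ ⟨rfl, rfl⟩
      rcases tl with _ | ⟨c, tl'⟩
      · simp
      · intro h5
        simp only [List.head?_cons, Option.some.injEq] at h5
        subst h5
        have h6 : List.IsChain (fun a b : α × Bool => a.1 = b.1 → a.2 = b.2)
          ((x, false) :: (x, true) :: tl') := hred
        rw [List.isChain_cons_cons] at h6
        exact absurd (h6.1 rfl) (by simp)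
    · rw [if_neg hab]
      refine iff_of_false (by simp) ?_
      rintro ⟨rfl, rfl⟩
      exact hab ⟨rfl, rfl⟩

theorem alm_additive {α : Type} [Finite α] (i : Set (FreeGroup α) → ℤ)
    (hadd : ∀ S T, Alm S → Alm T → Disjoint S T → i (S ∪ T) = i S + i T)
    (hinv : ∀ g S, Alm S → i ((fun x => g * x) '' S) = i S)
    (huniv : i Set.univ = 0) : i {1} = 0 := by
  classical
  have : Fintype α := Fintype.ofFinite α
  have h0 : i ∅ = 0 := by
    have h := hadd ∅ ∅ (n1_alm_finite Set.finite_empty) (n1_alm_finite Set.finite_empty)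
      (Set.disjoint_empty _)
    rw [Set.union_empty] at h
    linarith
  have hpair : ∀ x : α, i (n1H (x, true)) + i (n1H (x, false)) = 0 := by
    intro x
    have h1 := hadd (n1H (x, true)) (n1H (x, true))ᶜ (n1_alm_H _) (alm_compl (n1_alm_H _))
      disjoint_compl_right
    rw [Set.union_compl_self, huniv] at h1
    have h2 := hinv (FreeGroup.of x)⁻¹ (n1H (x, true))ᶜ (alm_compl (n1_alm_H _))
    have h3 : (fun g => (FreeGroup.of x)⁻¹ * g) '' (n1H (x, true))ᶜ = n1H (x, false) := by
      ext g
      rw [← n1_cons]
      constructor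
      · rintro ⟨g', hg', rfl⟩
        simpa using hg'
      · intro hg
        exact ⟨FreeGroup.of x * g, hg, by simp⟩
    rw [h3] at h2
    linarith
  have hdisj : ∀ y z : α × Bool, y ≠ z → Disjoint (n1H y) (n1H z) := by
    intro y z hyz
    rw [Set.disjoint_left]
    intro g h1 h2
    have h3 : g.toWord.head? = some y := h1
    have h4 : g.toWord.head? = some z := h2
    rw [h3] at h4
    exact hyz (Option.some.inj h4)
  have hsum : ∀ s : Finset (α × Bool), Alm (⋃ y ∈ s, n1H y) ∧
      i (⋃ y ∈ s, n1H y) = ∑ y ∈ s, i (n1H y) := by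
    intro s
    induction s using Finset.induction_on with
    | empty =>
      simp only [Finset.notMem_empty, Set.iUnion_of_empty, Set.iUnion_empty, Finset.sum_empty]
      exact ⟨n1_alm_finite Set.finite_empty, h0⟩
    | insert y s hy ih =>
      rw [Finset.set_biUnion_insert, Finset.sum_insert hy]
      refine ⟨n1_alm_union (n1_alm_H y) ih.1, ?_⟩
      rw [hadd _ _ (n1_alm_H y) ih.1, ih.2]
      rw [Set.disjoint_iUnion₂_right]
      intro z hz
      exact hdisj y z (fun h => hy (h ▸ hz))
  have hcov : ({1} : Set (FreeGroup α)) ∪ ⋃ y ∈ (Finset.univ : Finset (α × Bool)), n1H y =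
      Set.univ := by
    rw [Set.eq_univ_iff_forall]
    intro g
    rcases h : g.toWord with _ | ⟨a, tl⟩
    · left
      exact FreeGroup.toWord_eq_nil_iff.1 h
    · right
      rw [Set.mem_iUnion₂]
      refine ⟨a, Finset.mem_univ _, ?_⟩
      change g.toWord.head? = some a
      rw [h]
      rfl
  have hd1 : Disjoint ({1} : Set (FreeGroup α))
      (⋃ y ∈ (Finset.univ : Finset (α × Bool)), n1H y) := by
    rw [Set.disjoint_singleton_left]
    intro h
    rw [Set.mem_iUnion₂] at h
    obtain ⟨y, -, hy⟩ := h
    have h1 : (1 : FreeGroup α).toWord.head? = some y := hy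
    simp at h1
  have h1 := hadd {1} _ (n1_alm_finite (Set.finite_singleton 1)) (hsum Finset.univ).1 hd1
  rw [hcov, huniv, (hsum Finset.univ).2, Fintype.sum_prod_type] at h1
  have h2 : ∑ x : α, ∑ b : Bool, i (n1H (x, b)) = 0 := by
    refine Finset.sum_eq_zero fun x _ => ?_
    rw [Fintype.sum_bool]
    exact hpair x
  rw [h2] at h1
  linarith

end PrimRank
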