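import Pool.Agent.Lib.MP_b8b21d_al.SK.A1

/-!
The index function of two bases of a free module over a skew group ring.

PROOF. `M = Fin n → R` as a `k`-space; let `E` be its `k`-basis `u g • e_i` (`e_i` the standard basis; indexed
by `G × Fin n`), and `F` the `k`-basis `u g • f_j` (`f_j = e (Pi.single j 1)`, indexed by `G × Fin m`). For a set
`A ⊆ G` let `E_A`, `F_A` be the `k`-spans of the basis vectors with `g ∈ A`. There is a finite set `D ∋ 1` with
`e_i ∈ F_D`, `f_j ∈ E_D` for all `i, j`, so `E_A ≤ F_(A D)`, `F_A ≤ E_(A D)` (`u g` is semilinear: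
`u g • (s • v) = (g • s) • (u g • v)`, and maps `E_A` onto `E_(g A)`, the same for `F`).
For `A` with `Alm A` let `A° = {g | ∀ d ∈ D, g * d ∈ A}`; `A° ⊆ A`, `A \ A°` is finite, `E_(A°) ≤ F_A`, `E_(A°) ≤ E_A`.
`i A = n * (number of elements of A \ A°) - finrank (F_A / E_(A°))` (an integer; the quotient is finite
dimensional, because `F_A ≤ E_(A D)` and `A D \ A°` is finite: `A D \ A` is finite by `alm`). Write
`j (A, B) = n * #(A \ B) - finrank (F_A / E_B)` for `B ⊆ A°` with `A \ B` finite. INDEPENDENCE of `B`: for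
`C ⊆ B` with `B \ C` finite `finrank (F_A / E_C) = finrank (F_A / E_B) + finrank (E_B / E_C)` and
`finrank (E_B / E_C) = n * #(B \ C)`; so `j (A, B) = j (A, C)` (for two different `B`, `B'` compare with `B ∩ B'`).
ADDITIVITY: `A = A₁ ⊔ A₂` disjoint: take `B = A₁° ∪ A₂°`, `F_A = F_(A₁) ⊕ F_(A₂)`, `E_B = E_(A₁°) ⊕ E_(A₂°)` so
`F_A / E_B ≅ F_(A₁) / E_(A₁°) × F_(A₂) / E_(A₂°)`. INVARIANCE: apply the semilinear bijection `u g`.
`i univ = 0 - finrank (M / M) = 0`. `i {1}`: take `B = ∅`: `n - finrank F_{1} = n - m`.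
(You may split this file into private lemmas as you like, or use another definition of the index
function, e.g. with `Submodule.map` of `mkQ` instead of quotients of submodules.)
-/

namespace PrimRank

namespace Skew

section N2lin

variable {k V : Type*} [Field k] [AddCommGroup V] [Module k V]

/-- The dimension of `P` modulo `T`. -/
private noncomputable def N2_d (P T : Submodule k V) : ℕ := Module.finrank k (P.map T.mkQ)

/-- `P` is finite dimensional modulo `T`. -/
private def N2_fin (P T : Submodule k V) : Prop := FiniteDimensional k (P.map T.mkQ)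

private theorem N2_fin_mono {P P' T : Submodule k V} (h : P ≤ P') (hf : N2_fin P' T) :
    N2_fin P T := by
  unfold N2_fin at *
  exact Submodule.finiteDimensional_of_le (Submodule.map_mono h)

private theorem N2_map_factor {P T T' : Submodule k V} (h : T ≤ T') :
    (P.map T.mkQ).map (Submodule.factor h) = P.map T'.mkQ := by
  rw [← Submodule.map_comp, Submodule.factor_comp_mk]

private theorem N2_fin_of_le {P T T' : Submodule k V} (h : T ≤ T') (hf : N2_fin P T) :
    N2_fin P T' := by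
  unfold N2_fin at *
  rw [← N2_map_factor h]
  infer_instance

private theorem N2_tower {P Q T : Submodule k V} (hTQ : T ≤ Q) (hQP : Q ≤ P)
    (hf : N2_fin P T) : N2_d P T = N2_d P Q + N2_d Q T := by
  unfold N2_fin at hf
  unfold N2_d
  have h1 := LinearMap.finrank_range_add_finrank_ker
    ((Submodule.factor hTQ).domRestrict (P.map T.mkQ))
  rw [LinearMap.range_domRestrict, N2_map_factor hTQ] at h1
  have h2 : LinearMap.ker (Submodule.factor hTQ) = Q.map T.mkQ := by
    ext x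
    obtain ⟨v, rfl⟩ := Submodule.mkQ_surjective T x
    rw [LinearMap.mem_ker, Submodule.factor_mk, Submodule.mem_map]
    constructor
    · intro h
      exact ⟨v, (Submodule.Quotient.mk_eq_zero Q).1 h, rfl⟩
    · rintro ⟨y, hy, hyv⟩
      have h3 : y - v ∈ T := (Submodule.Quotient.eq T).1 hyv
      have h4 : v ∈ Q := by
        have := Q.sub_mem hy (hTQ h3)
        simpa using this
      exact (Submodule.Quotient.mk_eq_zero Q).2 h4
  have h3 : Module.finrank k (LinearMap.ker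
      ((Submodule.factor hTQ).domRestrict (P.map T.mkQ))) = Module.finrank k (Q.map T.mkQ) := by
    rw [LinearMap.ker_domRestrict, h2]
    exact (Submodule.comapSubtypeEquivOfLe (Submodule.map_mono hQP)).finrank_eq
  rw [h3] at h1
  exact h1.symm

private theorem N2_second {P T T' : Submodule k V} (h : T ≤ T') (hP : P ⊓ T' ≤ T) :
    N2_d P T' = N2_d P T := by
  unfold N2_d
  rw [← N2_map_factor h, ← LinearMap.range_domRestrict]
  apply LinearMap.finrank_range_of_inj
  rw [← LinearMap.ker_eq_bot, LinearMap.ker_eq_bot']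
  rintro ⟨x, hx⟩ h0
  obtain ⟨v, hv, rfl⟩ := Submodule.mem_map.1 hx
  rw [LinearMap.domRestrict_apply] at h0
  simp only [Submodule.factor_mk] at h0
  have h1 : v ∈ T' := (Submodule.Quotient.mk_eq_zero T').1 h0
  have h2 : v ∈ T := hP ⟨hv, h1⟩
  apply Subtype.ext
  exact (Submodule.Quotient.mk_eq_zero T).2 h2

private theorem N2_map_sup {P S T : Submodule k V} (h : S ≤ T) :
    (P ⊔ S).map T.mkQ = P.map T.mkQ := by
  rw [Submodule.map_sup]
  have : S.map T.mkQ = ⊥ := by
    rw [eq_bot_iff, ← Submodule.mkQ_map_self T]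
    exact Submodule.map_mono h
  rw [this, sup_bot_eq]

private theorem N2_d_sup {P S T : Submodule k V} (h : S ≤ T) :
    N2_d (P ⊔ S) T = N2_d P T := by
  unfold N2_d
  rw [N2_map_sup h]

private theorem N2_fin_sup {P P' T : Submodule k V} (h : N2_fin P T) (h' : N2_fin P' T) :
    N2_fin (P ⊔ P') T := by
  unfold N2_fin at *
  rw [Submodule.map_sup]
  infer_instance

private theorem N2_modular {E1 E2 F1 F2 : Submodule k V} (hE1 : E1 ≤ F1) (hE2 : E2 ≤ F2)
    (hd : Disjoint F1 F2) : F1 ⊓ (E1 ⊔ E2) ≤ E1 := by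
  rintro x ⟨hx1, hx2⟩
  obtain ⟨a, ha, c, hc, rfl⟩ := Submodule.mem_sup.1 hx2
  have h1 : c ∈ F1 := by
    have := F1.sub_mem hx1 (hE1 ha)
    simpa using this
  have h2 : c = 0 := Submodule.disjoint_def.1 hd c h1 (hE2 hc)
  rw [h2, add_zero]
  exact ha

private theorem N2_add {E1 E2 F1 F2 : Submodule k V} (hE1 : E1 ≤ F1) (hE2 : E2 ≤ F2)
    (hd : Disjoint F1 F2) (hf1 : N2_fin F1 E1) (hf2 : N2_fin F2 E2) :
    N2_fin (F1 ⊔ F2) (E1 ⊔ E2) ∧
      N2_d (F1 ⊔ F2) (E1 ⊔ E2) = N2_d F1 E1 + N2_d F2 E2 := by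
  have hf : N2_fin (F1 ⊔ F2) (E1 ⊔ E2) :=
    N2_fin_sup (N2_fin_of_le le_sup_left hf1) (N2_fin_of_le le_sup_right hf2)
  refine ⟨hf, ?_⟩
  rw [N2_tower (sup_le_sup_right hE1 E2 : E1 ⊔ E2 ≤ F1 ⊔ E2) (sup_le_sup_left hE2 F1) hf]
  have h1 : N2_d (F1 ⊔ E2) (E1 ⊔ E2) = N2_d F1 E1 := by
    rw [N2_d_sup le_sup_right]
    exact N2_second le_sup_left (N2_modular hE1 hE2 hd)
  have h2 : N2_d (F1 ⊔ F2) (F1 ⊔ E2) = N2_d F2 E2 := by
    rw [sup_comm F1 F2, N2_d_sup le_sup_left]
    refine N2_second le_sup_right ?_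
    rw [sup_comm F1 E2]
    exact N2_modular hE2 le_rfl hd.symm
  rw [h1, h2, add_comm]

private theorem N2_d_bot (P : Submodule k V) : N2_d P ⊥ = Module.finrank k P := by
  unfold N2_d
  refine (LinearEquiv.finrank_eq (Submodule.equivMapOfInjective _ ?_ P)).symm
  rw [← LinearMap.ker_eq_bot, Submodule.ker_mkQ]

private theorem N2_fin_bot {P : Submodule k V} (h : FiniteDimensional k P) : N2_fin P ⊥ := by
  unfold N2_fin
  infer_instance

private theorem N2_d_self (P : Submodule k V) : N2_d P P = 0 := by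
  unfold N2_d
  rw [Submodule.mkQ_map_self]
  exact finrank_bot k _

private theorem N2_fin_self (P : Submodule k V) : N2_fin P P := by
  unfold N2_fin
  rw [Submodule.mkQ_map_self]
  infer_instance

private theorem N2_le_of_span {P T : Submodule k V} {d : ℕ} (v : Fin d → V)
    (h : P ≤ T ⊔ Submodule.span k (Set.range v)) : N2_fin P T ∧ N2_d P T ≤ d := by
  have h1 : P.map T.mkQ ≤ Submodule.span k (Set.range (fun l => T.mkQ (v l))) := by
    refine (Submodule.map_mono h).trans ?_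
    rw [sup_comm, N2_map_sup le_rfl, Submodule.map_span, ← Set.range_comp]
    exact le_rfl
  have h2 : FiniteDimensional k (Submodule.span k (Set.range (fun l => T.mkQ (v l)))) :=
    FiniteDimensional.span_of_finite k (Set.finite_range _)
  refine ⟨Submodule.finiteDimensional_of_le h1, ?_⟩
  refine (Submodule.finrank_mono h1).trans ?_
  have h3 := finrank_range_le_card (R := k) (fun l => T.mkQ (v l))
  unfold Set.finrank at h3
  rw [Fintype.card_fin] at h3
  exact h3

private theorem N2_exists_span {P T : Submodule k V} (hf : N2_fin P T) :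
    ∃ v : Fin (N2_d P T) → V, P ≤ T ⊔ Submodule.span k (Set.range v) := by
  unfold N2_fin at hf
  have w := Module.finBasis k (P.map T.mkQ)
  have h1 : ∀ l, ∃ v : V, T.mkQ v = (w l : V ⧸ T) := fun l => Submodule.mkQ_surjective T _
  choose v hv using h1
  refine ⟨v, fun x hx => ?_⟩
  have h2 : T.mkQ x ∈ P.map T.mkQ := Submodule.mem_map_of_mem hx
  have h3 := w.sum_repr ⟨T.mkQ x, h2⟩
  have h4 : ∑ l, (w.repr ⟨T.mkQ x, h2⟩ l) • T.mkQ (v l) = T.mkQ x := by
    have h5 := congrArg (fun y : P.map T.mkQ => (y : V ⧸ T)) h3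
    simp only [Submodule.coe_sum, Submodule.coe_smul] at h5
    exact Eq.trans (Finset.sum_congr rfl fun l _ => by rw [hv]) h5
  have h6 : T.mkQ (x - ∑ l, (w.repr ⟨T.mkQ x, h2⟩ l) • v l) = 0 := by
    rw [map_sub, map_sum]
    simp only [map_smul]
    rw [h4, sub_self]
  have h7 : x - ∑ l, (w.repr ⟨T.mkQ x, h2⟩ l) • v l ∈ T :=
    (Submodule.Quotient.mk_eq_zero T).1 h6
  have h8 : x = (x - ∑ l, (w.repr ⟨T.mkQ x, h2⟩ l) • v l)
      + ∑ l, (w.repr ⟨T.mkQ x, h2⟩ l) • v l := by abel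
  rw [h8]
  refine Submodule.add_mem_sup h7 (Submodule.sum_mem _ fun l _ => ?_)
  exact Submodule.smul_mem _ _ (Submodule.subset_span ⟨l, rfl⟩)

end N2lin

section N2set

variable {k V G : Type*} [Field k] [AddCommGroup V] [Module k V] {m n : ℕ}

private theorem N2_fin_trans {P Q T : Submodule k V} (h : N2_fin P Q) (h' : N2_fin Q T) :
    N2_fin P T := by
  obtain ⟨v, hv⟩ := N2_exists_span h
  refine N2_fin_mono hv (N2_fin_sup h' ?_)
  have h2 : FiniteDimensional k (Submodule.span k (Set.range v)) :=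
    FiniteDimensional.span_of_finite k (Set.finite_range _)
  unfold N2_fin
  infer_instance

/-- The span of the basis vectors over a set. -/
private def N2_E (b : Module.Basis (Σ _ : Fin n, G) k V) (A : Set G) : Submodule k V :=
  Submodule.span k (b '' {p | p.2 ∈ A})

private theorem N2_mem_E (b : Module.Basis (Σ _ : Fin n, G) k V) {A : Set G} (i : Fin n) {g : G}
    (hg : g ∈ A) : b ⟨i, g⟩ ∈ N2_E b A :=
  Submodule.subset_span ⟨⟨i, g⟩, hg, rfl⟩

private theorem N2_E_le (b : Module.Basis (Σ _ : Fin n, G) k V) {A : Set G} {P : Submodule k V}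
    (h : ∀ (i : Fin n) (g : G), g ∈ A → b ⟨i, g⟩ ∈ P) : N2_E b A ≤ P := by
  unfold N2_E
  rw [Submodule.span_le]
  rintro _ ⟨⟨i, g⟩, hg, rfl⟩
  exact h i g hg

private theorem N2_E_mono (b : Module.Basis (Σ _ : Fin n, G) k V) {A B : Set G} (h : A ⊆ B) :
    N2_E b A ≤ N2_E b B :=
  N2_E_le b fun i g hg => N2_mem_E b i (h hg)

private theorem N2_E_union (b : Module.Basis (Σ _ : Fin n, G) k V) (A B : Set G) :
    N2_E b (A ∪ B) = N2_E b A ⊔ N2_E b B := by
  apply le_antisymm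
  · refine N2_E_le b fun i g hg => ?_
    rcases hg with hg | hg
    · exact Submodule.mem_sup_left (N2_mem_E b i hg)
    · exact Submodule.mem_sup_right (N2_mem_E b i hg)
  · exact sup_le (N2_E_mono b Set.subset_union_left) (N2_E_mono b Set.subset_union_right)

private theorem N2_E_disj (b : Module.Basis (Σ _ : Fin n, G) k V) {A B : Set G}
    (h : Disjoint A B) : Disjoint (N2_E b A) (N2_E b B) := by
  apply b.linearIndependent.disjoint_span_image
  rw [Set.disjoint_left] at h ⊢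
  intro p hp hp'
  exact h hp hp'

private theorem N2_E_univ (b : Module.Basis (Σ _ : Fin n, G) k V) : N2_E b Set.univ = ⊤ := by
  rw [eq_top_iff, ← b.span_eq, Submodule.span_le]
  rintro _ ⟨⟨i, g⟩, rfl⟩
  exact N2_mem_E b i (Set.mem_univ g)

private theorem N2_E_empty (b : Module.Basis (Σ _ : Fin n, G) k V) : N2_E b ∅ = ⊥ := by
  rw [eq_bot_iff]
  exact N2_E_le b fun i g hg => absurd hg (Set.notMem_empty g)

private theorem N2_finite {A : Set G} (hA : A.Finite) :
    {p : Σ _ : Fin n, G | p.2 ∈ A}.Finite := by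
  refine Set.Finite.subset ((Set.finite_univ (α := Fin n)).prod hA |>.image
    (fun q : Fin n × G => (⟨q.1, q.2⟩ : Σ _ : Fin n, G))) ?_
  rintro ⟨i, g⟩ hg
  exact ⟨(i, g), ⟨Set.mem_univ i, hg⟩, rfl⟩

private theorem N2_ncard (A : Set G) :
    {p : Σ _ : Fin n, G | p.2 ∈ A}.ncard = n * A.ncard := by
  rw [← Nat.card_coe_set_eq, ← Nat.card_coe_set_eq]
  have e : {p : Σ _ : Fin n, G | p.2 ∈ A} ≃ Fin n × A :=
    { toFun := fun p => (p.1.1, ⟨p.1.2, p.2⟩)
      invFun := fun q => ⟨⟨q.1, q.2.1⟩, q.2.2⟩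
      left_inv := fun p => rfl
      right_inv := fun q => rfl }
  rw [Nat.card_congr e, Nat.card_prod, Nat.card_fin]

private theorem N2_E_fd (b : Module.Basis (Σ _ : Fin n, G) k V) {A : Set G} (hA : A.Finite) :
    FiniteDimensional k (N2_E b A) :=
  FiniteDimensional.span_of_finite k ((N2_finite hA).image _)

private theorem N2_E_finrank (b : Module.Basis (Σ _ : Fin n, G) k V) {A : Set G}
    (hA : A.Finite) : Module.finrank k (N2_E b A) = n * A.ncard := by
  unfold N2_E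
  have hfin := N2_finite (n := n) hA
  have := hfin.fintype
  have h1 : LinearIndependent k (fun x : {p : Σ _ : Fin n, G | p.2 ∈ A} => b x) :=
    b.linearIndependent.comp _ Subtype.val_injective
  have h2 := finrank_span_eq_card h1
  rw [← Set.image_eq_range] at h2
  rw [h2, ← Nat.card_eq_fintype_card, Nat.card_coe_set_eq, N2_ncard]

private theorem N2_E_quot (b : Module.Basis (Σ _ : Fin n, G) k V) {B C : Set G} (hCB : C ⊆ B)
    (hf : (B \ C).Finite) : N2_fin (N2_E b B) (N2_E b C) ∧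
      N2_d (N2_E b B) (N2_E b C) = n * (B \ C).ncard := by
  have h1 : N2_E b B = N2_E b (B \ C) ⊔ N2_E b C := by
    rw [← N2_E_union, Set.sdiff_union_of_subset hCB]
  have h2 := N2_E_fd b hf
  have hd : N2_E b (B \ C) ⊓ N2_E b C ≤ ⊥ :=
    (N2_E_disj b Set.disjoint_sdiff_left).le_bot
  constructor
  · rw [h1]
    refine N2_fin_sup (N2_fin_of_le bot_le (N2_fin_bot h2)) (N2_fin_self _)
  · rw [h1, N2_d_sup le_rfl, N2_second bot_le hd, N2_d_bot, N2_E_finrank b hf]

/-- The pairs of sets for which the index function can be computed. -/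
private structure N2_val (b : Module.Basis (Σ _ : Fin n, G) k V)
    (f : Module.Basis (Σ _ : Fin m, G) k V) (A B : Set G) : Prop where
  sub : B ⊆ A
  fin : (A \ B).Finite
  le : N2_E b B ≤ N2_E f A
  fd : N2_fin (N2_E f A) (N2_E b B)

/-- The value of the index function. -/
private noncomputable def N2_j (b : Module.Basis (Σ _ : Fin n, G) k V)
    (f : Module.Basis (Σ _ : Fin m, G) k V) (A B : Set G) : ℤ :=
  (n : ℤ) * (A \ B).ncard - N2_d (N2_E f A) (N2_E b B)

private theorem N2_val_sub {b : Module.Basis (Σ _ : Fin n, G) k V}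
    {f : Module.Basis (Σ _ : Fin m, G) k V} {A B C : Set G} (h : N2_val b f A B) (hC : C ⊆ B)
    (hf : (B \ C).Finite) : N2_val b f A C ∧ N2_j b f A B = N2_j b f A C := by
  obtain ⟨h1, h2⟩ := N2_E_quot b hC hf
  have hdiff : A \ C = (A \ B) ∪ (B \ C) := by
    ext x
    constructor
    · rintro ⟨hx, hx'⟩
      by_cases hB : x ∈ B
      · exact Or.inr ⟨hB, hx'⟩
      · exact Or.inl ⟨hx, hB⟩
    · rintro (⟨hx, hx'⟩ | ⟨hx, hx'⟩)
      · exact ⟨hx, fun hc => hx' (hC hc)⟩
      · exact ⟨h.sub hx, hx'⟩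
  have hdisj : Disjoint (A \ B) (B \ C) := by
    rw [Set.disjoint_left]
    rintro x ⟨_, hx⟩ ⟨hx', _⟩
    exact hx hx'
  have hval : N2_val b f A C := by
    refine ⟨hC.trans h.sub, ?_, (N2_E_mono b hC).trans h.le, N2_fin_trans h.fd h1⟩
    rw [hdiff]
    exact h.fin.union hf
  refine ⟨hval, ?_⟩
  unfold N2_j
  rw [N2_tower (N2_E_mono b hC) h.le hval.fd, h2, hdiff, Set.ncard_union_eq hdisj h.fin hf]
  push_cast
  ring

private theorem N2_indep {b : Module.Basis (Σ _ : Fin n, G) k V}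
    {f : Module.Basis (Σ _ : Fin m, G) k V} {A B B' : Set G} (h : N2_val b f A B)
    (h' : N2_val b f A B') : N2_j b f A B = N2_j b f A B' := by
  have h1 := (N2_val_sub (C := B ∩ B') h Set.inter_subset_left (h'.fin.subset fun x hx =>
    ⟨h.sub hx.1, fun hc => hx.2 ⟨hx.1, hc⟩⟩)).2
  have h2 := (N2_val_sub (C := B ∩ B') h' Set.inter_subset_right (h.fin.subset fun x hx =>
    ⟨h'.sub hx.1, fun hc => hx.2 ⟨hc, hx.1⟩⟩)).2
  rw [h1, h2]

open Classical in
/-- The index function. -/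
private noncomputable def N2_i (b : Module.Basis (Σ _ : Fin n, G) k V)
    (f : Module.Basis (Σ _ : Fin m, G) k V) (A : Set G) : ℤ :=
  if h : ∃ B, N2_val b f A B then N2_j b f A h.choose else 0

private theorem N2_i_eq {b : Module.Basis (Σ _ : Fin n, G) k V}
    {f : Module.Basis (Σ _ : Fin m, G) k V} {A B : Set G} (h : N2_val b f A B) :
    N2_i b f A = N2_j b f A B := by
  have hex : ∃ B, N2_val b f A B := ⟨B, h⟩
  unfold N2_i
  rw [dif_pos hex]
  exact N2_indep hex.choose_spec h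

private theorem N2_union {b : Module.Basis (Σ _ : Fin n, G) k V}
    {f : Module.Basis (Σ _ : Fin m, G) k V} {A A' B B' : Set G} (h : N2_val b f A B)
    (h' : N2_val b f A' B') (hd : Disjoint A A') :
    N2_i b f (A ∪ A') = N2_i b f A + N2_i b f A' := by
  have hA := Set.disjoint_left.1 hd
  have hdiff : (A ∪ A') \ (B ∪ B') = (A \ B) ∪ (A' \ B') := by
    ext x
    constructor
    · rintro ⟨hx | hx, hx'⟩
      · exact Or.inl ⟨hx, fun hc => hx' (Or.inl hc)⟩
      · exact Or.inr ⟨hx, fun hc => hx' (Or.inr hc)⟩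
    · rintro (⟨hx, hx'⟩ | ⟨hx, hx'⟩)
      · refine ⟨Or.inl hx, ?_⟩
        rintro (hc | hc)
        · exact hx' hc
        · exact hA hx (h'.sub hc)
      · refine ⟨Or.inr hx, ?_⟩
        rintro (hc | hc)
        · exact hA (h.sub hc) hx
        · exact hx' hc
  have hdisj : Disjoint (A \ B) (A' \ B') := by
    rw [Set.disjoint_left]
    rintro x ⟨hx, _⟩ ⟨hx', _⟩
    exact hA hx hx'
  obtain ⟨h1, h2⟩ := N2_add h.le h'.le (N2_E_disj f hd) h.fd h'.fd
  have hval : N2_val b f (A ∪ A') (B ∪ B') := by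
    refine ⟨Set.union_subset_union h.sub h'.sub, ?_, ?_, ?_⟩
    · rw [hdiff]
      exact h.fin.union h'.fin
    · rw [N2_E_union, N2_E_union]
      exact sup_le_sup h.le h'.le
    · rw [N2_E_union, N2_E_union]
      exact h1
  rw [N2_i_eq hval, N2_i_eq h, N2_i_eq h']
  unfold N2_j
  rw [N2_E_union, N2_E_union, h2, hdiff, Set.ncard_union_eq hdisj h.fin h'.fin]
  push_cast
  ring

/-- Semilinear maps and spans. -/
private theorem N2_span_map {φ : V → V} (hadd : ∀ x y, φ (x + y) = φ x + φ y)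
    (hsmul : ∀ (s : k) (x : V), ∃ s' : k, φ (s • x) = s' • φ x) {X : Set V} {P : Submodule k V}
    (hX : ∀ x ∈ X, φ x ∈ P) {x : V} (hx : x ∈ Submodule.span k X) : φ x ∈ P := by
  induction hx using Submodule.span_induction with
  | mem x hx => exact hX x hx
  | zero =>
    have h0 : φ 0 = φ 0 + φ 0 := by
      have := hadd 0 0
      rwa [add_zero] at this
    have h1 : φ 0 = 0 := by
      have h2 : φ 0 + φ 0 = φ 0 + 0 := by rw [← h0, add_zero]
      exact add_left_cancel h2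
    rw [h1]
    exact P.zero_mem
  | add x y _ _ hx hy => rw [hadd]; exact P.add_mem hx hy
  | smul s x _ hx =>
    obtain ⟨s', hs⟩ := hsmul s x
    rw [hs]
    exact P.smul_mem s' hx

variable [Group G]

private theorem N2_phi_mem {φ : V → V} (hadd : ∀ x y, φ (x + y) = φ x + φ y)
    (hsmul : ∀ (s : k) (x : V), ∃ s' : k, φ (s • x) = s' • φ x)
    (b : Module.Basis (Σ _ : Fin n, G) k V) {g : G}
    (hb : ∀ i h, φ (b ⟨i, h⟩) = b ⟨i, g * h⟩) {A : Set G} {x : V} (hx : x ∈ N2_E b A) :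
    φ x ∈ N2_E b ((fun y => g * y) '' A) := by
  refine N2_span_map hadd hsmul ?_ hx
  rintro _ ⟨⟨i, h⟩, hh, rfl⟩
  rw [hb]
  exact N2_mem_E b i ⟨h, hh, rfl⟩

private theorem N2_phi_d {φ : V → V} (hadd : ∀ x y, φ (x + y) = φ x + φ y)
    (hsmul : ∀ (s : k) (x : V), ∃ s' : k, φ (s • x) = s' • φ x)
    (b : Module.Basis (Σ _ : Fin n, G) k V) (f : Module.Basis (Σ _ : Fin m, G) k V) {g : G}
    (hb : ∀ i h, φ (b ⟨i, h⟩) = b ⟨i, g * h⟩) (hf : ∀ i h, φ (f ⟨i, h⟩) = f ⟨i, g * h⟩)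
    {A B : Set G} (h : N2_val b f A B) :
    N2_val b f ((fun y => g * y) '' A) ((fun y => g * y) '' B) ∧
      N2_d (N2_E f ((fun y => g * y) '' A)) (N2_E b ((fun y => g * y) '' B)) ≤
        N2_d (N2_E f A) (N2_E b B) := by
  obtain ⟨v, hv⟩ := N2_exists_span h.fd
  have h1 : N2_E f ((fun y => g * y) '' A) ≤
      N2_E b ((fun y => g * y) '' B) ⊔ Submodule.span k (Set.range fun l => φ (v l)) := by
    refine N2_E_le f ?_
    rintro i _ ⟨a, ha, rfl⟩
    simp only
    rw [← hf]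
    have h2 := hv (N2_mem_E f i ha)
    obtain ⟨t, ht, c, hc, htc⟩ := Submodule.mem_sup.1 h2
    rw [← htc, hadd]
    refine Submodule.add_mem_sup (N2_phi_mem hadd hsmul b hb ht) ?_
    refine N2_span_map hadd hsmul ?_ hc
    rintro _ ⟨l, rfl⟩
    exact Submodule.subset_span ⟨l, rfl⟩
  obtain ⟨h3, h4⟩ := N2_le_of_span _ h1
  refine ⟨⟨Set.image_mono h.sub, ?_, ?_, h3⟩, h4⟩
  · rw [← Set.image_sdiff (mul_right_injective g)]
    exact h.fin.image _
  · refine N2_E_le b ?_
    rintro i _ ⟨a, ha, rfl⟩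
    simp only
    rw [← hb]
    exact N2_phi_mem hadd hsmul f hf (h.le (N2_mem_E b i ha))

private theorem N2_image_inv (g : G) (A : Set G) :
    (fun y => g⁻¹ * y) '' ((fun y => g * y) '' A) = A := by
  rw [Set.image_image]
  simp

private theorem N2_inv {φ : G → V → V} (hadd : ∀ g x y, φ g (x + y) = φ g x + φ g y)
    (hsmul : ∀ g (s : k) (x : V), ∃ s' : k, φ g (s • x) = s' • φ g x)
    (b : Module.Basis (Σ _ : Fin n, G) k V) (f : Module.Basis (Σ _ : Fin m, G) k V)
    (hb : ∀ g i h, φ g (b ⟨i, h⟩) = b ⟨i, g * h⟩) (hf : ∀ g i h, φ g (f ⟨i, h⟩) = f ⟨i, g * h⟩)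
    (g : G) {A B : Set G} (h : N2_val b f A B) :
    N2_i b f ((fun y => g * y) '' A) = N2_i b f A := by
  obtain ⟨h1, h2⟩ := N2_phi_d (hadd g) (hsmul g) b f (hb g) (hf g) h
  obtain ⟨_, h4⟩ := N2_phi_d (hadd g⁻¹) (hsmul g⁻¹) b f (hb g⁻¹) (hf g⁻¹) h1
  rw [N2_image_inv, N2_image_inv] at h4
  rw [N2_i_eq h1, N2_i_eq h]
  unfold N2_j
  rw [le_antisymm h2 h4, ← Set.image_sdiff (mul_right_injective g),
    Set.ncard_image_of_injective _ (mul_right_injective g)]

/-- Existence of a comparison set. -/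
private theorem N2_exists (b : Module.Basis (Σ _ : Fin n, G) k V)
    (f : Module.Basis (Σ _ : Fin m, G) k V) {D : Set G} (hD : D.Finite)
    (hb : ∀ i g, b ⟨i, g⟩ ∈ N2_E f ((fun y => g * y) '' D))
    (hf : ∀ i g, f ⟨i, g⟩ ∈ N2_E b ((fun y => g * y) '' D)) {A : Set G} (hA : Alm A) :
    ∃ B, N2_val b f A B := by
  set B : Set G := {g | g ∈ A ∧ ∀ d ∈ D, g * d ∈ A} with hB
  have hfin : (A \ B).Finite := by
    refine (hD.biUnion fun d _ => hA d).subset ?_
    rintro g ⟨hg, hgB⟩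
    have h1 : ∃ d ∈ D, g * d ∉ A := by
      by_contra hcon
      push Not at hcon
      exact hgB ⟨hg, hcon⟩
    obtain ⟨d, hd, hgd⟩ := h1
    exact Set.mem_biUnion hd ⟨hg, hgd⟩
  set R : Set G := (A \ B) ∪ ⋃ d ∈ D, (fun y => y * d) '' {g | g ∈ A ∧ g * d ∉ A} with hR
  have hRfin : R.Finite := hfin.union (hD.biUnion fun d _ => (hA d).image _)
  refine ⟨B, fun g hg => hg.1, hfin, ?_, ?_⟩
  · refine N2_E_le b fun i g hg => N2_E_mono f ?_ (hb i g)
    rintro _ ⟨d, hd, rfl⟩
    exact hg.2 d hd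
  · have h1 : N2_E f A ≤ N2_E b R ⊔ N2_E b B := by
      rw [← N2_E_union]
      refine N2_E_le f fun i g hg => N2_E_mono b ?_ (hf i g)
      rintro _ ⟨d, hd, rfl⟩
      simp only
      by_cases h2 : g * d ∈ A
      · by_cases h3 : g * d ∈ B
        · exact Or.inr h3
        · exact Or.inl (Or.inl ⟨h2, h3⟩)
      · exact Or.inl (Or.inr (Set.mem_biUnion hd ⟨g, ⟨hg, h2⟩, rfl⟩))
    refine N2_fin_mono h1 (N2_fin_sup ?_ (N2_fin_self _))
    exact N2_fin_of_le bot_le (N2_fin_bot (N2_E_fd b hRfin))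

private theorem N2_univ (b : Module.Basis (Σ _ : Fin n, G) k V)
    (f : Module.Basis (Σ _ : Fin m, G) k V) : N2_i b f Set.univ = 0 := by
  have h : N2_val b f Set.univ Set.univ := by
    refine ⟨le_rfl, by simp, ?_, ?_⟩
    · rw [N2_E_univ, N2_E_univ]
    · rw [N2_E_univ, N2_E_univ]
      exact N2_fin_self _
  rw [N2_i_eq h]
  unfold N2_j
  rw [N2_E_univ, N2_E_univ, N2_d_self]
  simp

private theorem N2_one (b : Module.Basis (Σ _ : Fin n, G) k V)
    (f : Module.Basis (Σ _ : Fin m, G) k V) : N2_i b f {1} = (n : ℤ) - m := by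
  have h : N2_val b f {1} ∅ := by
    refine ⟨Set.empty_subset _, by simp, ?_, ?_⟩
    · rw [N2_E_empty]
      exact bot_le
    · rw [N2_E_empty]
      exact N2_fin_bot (N2_E_fd f (Set.finite_singleton 1))
  rw [N2_i_eq h]
  unfold N2_j
  rw [N2_E_empty, N2_d_bot, N2_E_finrank f (Set.finite_singleton 1), Set.sdiff_empty,
    Set.ncard_singleton]
  push_cast
  ring

private theorem N2_core {φ : G → V → V} (hadd : ∀ g x y, φ g (x + y) = φ g x + φ g y)
    (hsmul : ∀ g (s : k) x, ∃ s' : k, φ g (s • x) = s' • φ g x)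
    (b : Module.Basis (Σ _ : Fin n, G) k V) (f : Module.Basis (Σ _ : Fin m, G) k V)
    (hbg : ∀ g i h, φ g (b ⟨i, h⟩) = b ⟨i, g * h⟩)
    (hfg : ∀ g i h, φ g (f ⟨i, h⟩) = f ⟨i, g * h⟩) :
    ∃ i : Set G → ℤ, (∀ A B, Alm A → Alm B → Disjoint A B → i (A ∪ B) = i A + i B) ∧
      (∀ g A, Alm A → i ((fun x => g * x) '' A) = i A) ∧ i Set.univ = 0 ∧
      i {1} = (n : ℤ) - m := by
  -- the finite set
  obtain ⟨D, hD, hbD, hfD⟩ : ∃ D : Set G, D.Finite ∧
      (∀ i, b ⟨i, 1⟩ ∈ N2_E f D) ∧ ∀ i, f ⟨i, 1⟩ ∈ N2_E b D := by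
    have h1 : ∀ x : V, ∃ D : Set G, D.Finite ∧ x ∈ N2_E f D := by
      intro x
      refine ⟨(fun p : (Σ _ : Fin m, G) => p.2) '' (f.repr x).support,
        (Finset.finite_toSet _).image _, ?_⟩
      refine Submodule.span_mono (Set.image_mono ?_) (f.mem_span_repr_support x)
      intro p hp
      exact ⟨p, hp, rfl⟩
    have h2 : ∀ x : V, ∃ D : Set G, D.Finite ∧ x ∈ N2_E b D := by
      intro x
      refine ⟨(fun p : (Σ _ : Fin n, G) => p.2) '' (b.repr x).support,
        (Finset.finite_toSet _).image _, ?_⟩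
      refine Submodule.span_mono (Set.image_mono ?_) (b.mem_span_repr_support x)
      intro p hp
      exact ⟨p, hp, rfl⟩
    choose D1 hD1 hD1' using h1
    choose D2 hD2 hD2' using h2
    have h3 : (⋃ i : Fin n, D1 (b ⟨i, 1⟩)).Finite := Set.finite_iUnion fun i => hD1 (b ⟨i, 1⟩)
    have h4 : (⋃ i : Fin m, D2 (f ⟨i, 1⟩)).Finite := Set.finite_iUnion fun i => hD2 (f ⟨i, 1⟩)
    refine ⟨(⋃ i : Fin n, D1 (b ⟨i, 1⟩)) ∪ ⋃ i : Fin m, D2 (f ⟨i, 1⟩), h3.union h4,
      fun i => ?_, fun i => ?_⟩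
    · refine N2_E_mono f ?_ (hD1' (b ⟨i, 1⟩))
      intro x hx
      exact Or.inl (Set.mem_iUnion.2 ⟨i, hx⟩)
    · refine N2_E_mono b ?_ (hD2' (f ⟨i, 1⟩))
      intro x hx
      exact Or.inr (Set.mem_iUnion.2 ⟨i, hx⟩)
  have hbD' : ∀ i g, b ⟨i, g⟩ ∈ N2_E f ((fun y => g * y) '' D) := by
    intro i g
    have h1 := N2_phi_mem (hadd g) (hsmul g) f (hfg g) (hbD i)
    rw [hbg, mul_one] at h1
    exact h1
  have hfD' : ∀ i g, f ⟨i, g⟩ ∈ N2_E b ((fun y => g * y) '' D) := by
    intro i g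
    have h1 := N2_phi_mem (hadd g) (hsmul g) b (hbg g) (hfD i)
    rw [hfg, mul_one] at h1
    exact h1
  have hex : ∀ A : Set G, Alm A → ∃ B, N2_val b f A B := fun A hA =>
    N2_exists b f hD hbD' hfD' hA
  refine ⟨N2_i b f, ?_, ?_, N2_univ b f, N2_one b f⟩
  · intro A A' hA hA' hd
    obtain ⟨B, hB⟩ := hex A hA
    obtain ⟨B', hB'⟩ := hex A' hA'
    exact N2_union hB hB' hd
  · intro g A hA
    obtain ⟨B, hB⟩ := hex A hA
    exact N2_inv hadd hsmul b f hbg hfg g hB

end N2set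

section N2main

variable {k G R : Type*} [Field k] [Group G] [MulSemiringAction G k] [Ring R] [Module k R]
  [IsScalarTower k R R] (S : Skew k G R)

private theorem N2_semi (g : G) (s : k) (x : R) : S.u g * (s • x) = (g • s) • (S.u g * x) := by
  rw [← smul_one_mul s x, ← mul_assoc, S.comm, smul_mul_assoc]

private theorem N2_basis_apply {n : ℕ} (i : Fin n) (h : G) :
    Pi.basis (fun _ : Fin n => S.basis) ⟨i, h⟩ = Pi.single i (S.u h) := by
  classical
  rw [Pi.basis_apply]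
  simp only
  rw [S.basis_apply]

private theorem N2_smul_single {n : ℕ} (g : G) (i : Fin n) (h : G) :
    S.u g • (Pi.single i (S.u h) : Fin n → R) = Pi.single i (S.u (g * h)) := by
  rw [map_mul, ← Pi.single_smul, smul_eq_mul]

private theorem N2_exists_b (n : ℕ) : ∃ b : Module.Basis (Σ _ : Fin n, G) k (Fin n → R),
    ∀ i h, b ⟨i, h⟩ = Pi.single i (S.u h) :=
  ⟨Pi.basis (fun _ => S.basis), fun i h => N2_basis_apply S i h⟩

private theorem N2_exists_f {m n : ℕ} (e : (Fin m → R) ≃ₗ[R] (Fin n → R)) :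
    ∃ f : Module.Basis (Σ _ : Fin m, G) k (Fin n → R),
      ∀ i h, f ⟨i, h⟩ = e (Pi.single i (S.u h)) := by
  obtain ⟨b, hb⟩ := N2_exists_b S m
  refine ⟨b.map (e.restrictScalars k), fun i h => ?_⟩
  rw [Module.Basis.map_apply, hb]
  rfl

private theorem N2_smul_f {m n : ℕ} (e : (Fin m → R) ≃ₗ[R] (Fin n → R)) (g : G) (i : Fin m)
    (h : G) : S.u g • e (Pi.single i (S.u h)) = e (Pi.single i (S.u (g * h))) :=
  (e.map_smul (S.u g) (Pi.single i (S.u h))).symm.trans (congrArg e (N2_smul_single S g i h))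

end N2main

variable {k G R : Type*} [Field k] [Group G] [MulSemiringAction G k] [Ring R] [Module k R]
  [IsScalarTower k R R] (S : Skew k G R)

include S in
theorem exists_index {m n : ℕ} (e : (Fin m → R) ≃ₗ[R] (Fin n → R)) :
    ∃ i : Set G → ℤ, (∀ A B, Alm A → Alm B → Disjoint A B → i (A ∪ B) = i A + i B) ∧
      (∀ g A, Alm A → i ((fun x => g * x) '' A) = i A) ∧ i Set.univ = 0 ∧
      i {1} = (n : ℤ) - m := by
  obtain ⟨b, hb⟩ := N2_exists_b S n
  obtain ⟨f, hf⟩ := N2_exists_f S e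
  refine N2_core (φ := fun g x => S.u g • x) (fun g x y => smul_add _ _ _) ?_ b f ?_ ?_
  · intro g s x
    refine ⟨g • s, ?_⟩
    funext i
    simp only [Pi.smul_apply, smul_eq_mul]
    exact N2_semi S g s (x i)
  · intro g i h
    show S.u g • b ⟨i, h⟩ = b ⟨i, g * h⟩
    rw [hb, hb]
    exact N2_smul_single S g i h
  · intro g i h
    show S.u g • f ⟨i, h⟩ = f ⟨i, g * h⟩
    rw [hf, hf]
    exact N2_smul_f S e g i h

end Skew

end PrimRank
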