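import Pool.Agent.Lib.MP_b8b21d_al.SK.F3
import Pool.Agent.Lib.MP_b8b21d_al.SK.N1
import Pool.Agent.Lib.MP_b8b21d_al.SK.N2

/-!
Ranks of left ideals in skew group rings of free groups of finite rank.

PROOFS. rank_unique: compose the two bases to `(Fin m → R) ≃ₗ (Fin n → R)`; `exists_index` and
`alm_additive` give `n - m = 0`. fg_basis: `left_ideal_free` and: a basis of a finitely generated module is
finite (`Module.Finite.finite_basis`, `R` is nontrivial as it has the basis indexed by a nonempty type).
free_sub: induction on `n`. For `n + 1`: project `N → R` (last or first coordinate); the image `J` is a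
finitely generated left ideal, hence free, so `N ≃ J × ker` (a surjection on a free, hence projective,
module splits), and the kernel is isomorphic to a submodule of `Fin n → R`, finitely generated as a
quotient of `N`.
-/

namespace PrimRank

namespace Skew

/-- A split surjection: if the kernel and the image are free of finite rank, so is the source. -/
private theorem r1_split {R : Type*} [Ring R] {N : Type*} [AddCommGroup N] [Module R N]
    {J : Type*} [AddCommGroup J] [Module R J] (f : N →ₗ[R] J) (s : J →ₗ[R] N)
    (hs : ∀ x, f (s x) = x) {p q : ℕ} (bK : Module.Basis (Fin p) R (LinearMap.ker f))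
    (bJ : Module.Basis (Fin q) R J) : ∃ m : ℕ, Nonempty (Module.Basis (Fin m) R N) := by
  let g : N →ₗ[R] LinearMap.ker f :=
    LinearMap.codRestrict (LinearMap.ker f) (LinearMap.id - s ∘ₗ f) (by
      intro x
      rw [LinearMap.mem_ker]
      simp only [LinearMap.sub_apply, LinearMap.id_apply, LinearMap.comp_apply, map_sub, hs,
        sub_self])
  let e : N ≃ₗ[R] (LinearMap.ker f × J) :=
    LinearEquiv.ofLinearMap (LinearMap.prod g f)
      (LinearMap.coprod (LinearMap.ker f).subtype s)
      (by
        apply LinearMap.ext
        rintro ⟨x, y⟩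
        have hx : f (x : N) = 0 := x.2
        refine Prod.ext (Subtype.ext ?_) ?_
        · simp [g, hs, hx]
        · simp [hs, hx])
      (by
        apply LinearMap.ext
        intro x
        simp [g])
  exact ⟨p + q, ⟨((bK.prod bJ).map e.symm).reindex finSumFinEquiv⟩⟩

variable {k R : Type*} {α : Type} [Field k] [MulSemiringAction (FreeGroup α) k] [Ring R]
  [Module k R] [IsScalarTower k R R] (S : Skew k (FreeGroup α) R)

include S

theorem fg_basis (I : Submodule R R) (h : I.FG) :
    ∃ n : ℕ, Nonempty (Module.Basis (Fin n) R I) := by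
  obtain ⟨ι, ⟨b⟩⟩ := S.left_ideal_free I
  have hnt : Nontrivial R := ⟨⟨S.basis 1, 0, S.basis.ne_zero 1⟩⟩
  have hfin : Module.Finite R I := Module.Finite.iff_fg.mpr h
  have hι : Finite ι := Module.Finite.finite_basis b
  exact ⟨Nat.card ι, ⟨b.reindex (Finite.equivFin ι)⟩⟩

theorem free_sub (n : ℕ) (N : Submodule R (Fin n → R)) (hN : N.FG) :
    ∃ m : ℕ, Nonempty (Module.Basis (Fin m) R N) := by
  induction n with
  | zero =>
    have h1 : Subsingleton N := by
      refine ⟨fun x y => Subtype.ext ?_⟩
      exact Subsingleton.elim _ _
    exact ⟨0, ⟨Module.Basis.empty N⟩⟩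
  | succ n ih =>
    have hNf : Module.Finite R N := Module.Finite.iff_fg.mpr hN
    let f : N →ₗ[R] R := (LinearMap.proj (0 : Fin (n + 1))) ∘ₗ N.subtype
    have hJ : (LinearMap.range f).FG := by
      rw [← Module.Finite.iff_fg]
      infer_instance
    obtain ⟨q, ⟨bJ⟩⟩ := S.fg_basis (LinearMap.range f) hJ
    have hproj : Module.Projective R (LinearMap.range f) := Module.Projective.of_basis bJ
    obtain ⟨s, hs⟩ := Module.projective_lifting_property f.rangeRestrict LinearMap.id
      f.surjective_rangeRestrict
    have hs' : ∀ x, f.rangeRestrict (s x) = x := fun x => LinearMap.congr_fun hs x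
    have hK : Module.Finite R (LinearMap.ker f.rangeRestrict) := by
      let g : N →ₗ[R] LinearMap.ker f.rangeRestrict :=
        LinearMap.codRestrict (LinearMap.ker f.rangeRestrict)
          (LinearMap.id - s ∘ₗ f.rangeRestrict) (by
            intro x
            rw [LinearMap.mem_ker]
            simp only [LinearMap.sub_apply, LinearMap.id_apply, LinearMap.comp_apply, map_sub,
              hs', sub_self])
      refine Module.Finite.of_surjective g ?_
      intro x
      refine ⟨x, Subtype.ext ?_⟩
      have hx : f.rangeRestrict (x : N) = 0 := x.2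
      simp [g, hx]
    let τ : LinearMap.ker f.rangeRestrict →ₗ[R] (Fin n → R) :=
      (LinearMap.funLeft R R Fin.succ) ∘ₗ N.subtype ∘ₗ (LinearMap.ker f.rangeRestrict).subtype
    have hτ : Function.Injective τ := by
      intro x y hxy
      have hx : f.rangeRestrict (x : N) = 0 := x.2
      have hy : f.rangeRestrict (y : N) = 0 := y.2
      have hx0 : ((x : N) : Fin (n + 1) → R) 0 = 0 := congrArg Subtype.val hx
      have hy0 : ((y : N) : Fin (n + 1) → R) 0 = 0 := congrArg Subtype.val hy
      apply Subtype.ext
      apply Subtype.ext
      funext i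
      refine Fin.cases ?_ (fun i => ?_) i
      · rw [hx0, hy0]
      · exact congrFun hxy i
    have hr : (LinearMap.range τ).FG := by
      rw [← Module.Finite.iff_fg]
      infer_instance
    obtain ⟨p, ⟨bK⟩⟩ := ih (LinearMap.range τ) hr
    exact r1_split f.rangeRestrict s hs' (bK.map (LinearEquiv.ofInjective τ hτ).symm) bJ

theorem rank_unique [Finite α] {M : Type*} [AddCommGroup M] [Module R M] {m n : ℕ}
    (b : Module.Basis (Fin m) R M) (b' : Module.Basis (Fin n) R M) : m = n := by
  obtain ⟨i, hadd, hinv, huniv, h1⟩ := S.exists_index (b.equivFun.symm ≪≫ₗ b'.equivFun)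
  have h0 := alm_additive i hadd hinv huniv
  rw [h1] at h0
  omega

end Skew

end PrimRank
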