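import Pool.Agent.Lib.MP_b8b21d_al.SK.K1
import Pool.Agent.Lib.MP_b8b21d_al.SK.D1
import Pool.Agent.Lib.MP_b8b21d_al.SK.R1

/-!
From the ideal of a subgroup to the primitivity rank.

PROOF. Let `J` be the span. `H` is a free group (`subgroupIsFreeOfIsFree`), with a basis `B₀ : FreeGroupBasis ι H`
(`IsFreeGroup.basis`), so `J` has the basis `b₀` on `ι` (`nonempty_basis_sub`), and a basis on `Fin m`; so `ι` is finite
(`Module.Finite.finite_basis`, `R` nontrivial) and has `m` elements (`rank_unique` after reindexing by `Fin`);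
reindexing gives a `FreeGroupBasis (Fin m) H`. `w` is not primitive in `H`: if `B : FreeGroupBasis ι' H` has
`B i = ⟨w, hw⟩` then by `nonempty_basis_sub` the coordinate function `b.coord i : J →ₗ[R] R` has the value `1`
at `u w - 1 = b i`, contradiction to `no_functional`. So `primRank w ≤ m` (`sInf_le`).
-/

namespace PrimRank

namespace Skew

variable {k R : Type*} {α : Type} [Field k] [MulSemiringAction (FreeGroup α) k] [Ring R]
  [Module k R] [IsScalarTower k R R] (S : Skew k (FreeGroup α) R)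

theorem primRank_le_of_sub [Finite α] {w : FreeGroup α} {m : ℕ} (H : Subgroup (FreeGroup α))
    (hw : w ∈ H) (b : Module.Basis (Fin m) R (Submodule.span R {f | ∃ h ∈ H, f = S.u h - 1}))
    {X : Submodule R R} (hX : X ≠ ⊤)
    (h : S.Dual w X (Submodule.span R {f | ∃ h ∈ H, f = S.u h - 1})) :
    primRank w ≤ (m : ℕ∞) := by
  classical
  have hnt : Nontrivial R := ⟨⟨S.basis 1, 0, S.basis.ne_zero 1⟩⟩
  obtain ⟨ι, ⟨B₀⟩⟩ := (inferInstance : IsFreeGroup H).nonempty_basis
  obtain ⟨b₀, -⟩ := S.nonempty_basis_sub H B₀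
  have hfin : Module.Finite R (Submodule.span R {f | ∃ h ∈ H, f = S.u h - 1}) :=
    Module.Finite.of_basis b
  have hι : Finite ι := Module.Finite.finite_basis b₀
  have hm : Nat.card ι = m := S.rank_unique (b₀.reindex (Finite.equivFin ι)) b
  have B : FreeGroupBasis (Fin m) H := B₀.reindex ((Finite.equivFin ι).trans (finCongr hm))
  refine sInf_le ⟨H, hw, m, rfl, ⟨B⟩, ?_⟩
  rintro ⟨ι', b', i, hi⟩
  obtain ⟨b₁, hb₁⟩ := S.nonempty_basis_sub H b'
  refine S.no_functional h hX (b₁.coord i) ?_
  have h1 : (⟨S.u w - 1, S.mem_of_dual h⟩ :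
      Submodule.span R {f | ∃ h ∈ H, f = S.u h - 1}) = b₁ i :=
    Subtype.ext (by rw [hb₁, hi])
  rw [h1, Module.Basis.coord_apply, Module.Basis.repr_self, Finsupp.single_eq_same]

end Skew

end PrimRank
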