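import Mathlib

/-!
Generic vectors: a semilinear action of `G` on a vector space `M` over a field `k` with action of `G`
is embedded, as a space of linear forms, in a field with an action of `G`.

PROOF. Let `B` be a basis of `M` over `k` with index type `β : Type u` (`Module.Basis.ofVectorSpace`), `A` the
polynomial ring `MvPolynomial β k`, `ι : M → A` the linear map with `B b ↦ X b`. For `g : G` let
`σ g : A →+* A` be `MvPolynomial.eval₂Hom (C ∘ (g • ·)) (fun b => ι (ρ g (B b)))`. Then `σ g (C s) = C (g • s)`,
`σ g (ι m) = ι (ρ g m)` (both sides are semilinear in `m`), `σ 1 = id`, `σ (g h) = σ g ∘ σ h` (ring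
homomorphisms agreeing on `C` and `X`). So `G` acts on `A` by ring automorphisms, and on
`k' = FractionRing A` (e.g. `IsFractionRing.ringEquivOfRingEquiv` or `IsLocalization.map`, or a
homomorphism `G →* RingAut k'`; the action of `σ g` on fractions is unique). `j s = C s`, `θ m = ι m`
in `k'`. DETERMINANTS: the determinant is the image of `P = det (ι (m i j)) ∈ A` (`RingHom.map_det`), and
`A → k'` is injective, so it is enough that `P ≠ 0`. By linear independence there is `l : M →ₗ[k] k` with
`l (m i j) = 1` if `i = j` and `0` otherwise (e.g. `LinearIndependent.extend`/`exists_extend`, or a dual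
family). The ring homomorphism `MvPolynomial.eval (fun b => l (B b)) : A → k` maps `ι m` to `l m`, so it maps `P`
to `det 1 = 1 ≠ 0`.
-/

namespace PrimRank

private theorem x1_functional.{u} {k : Type u} [Field k] {M : Type u} [AddCommGroup M] [Module k M]
    {κ : Type} (v : κ → M) (hv : LinearIndependent k v) (c : κ → k) :
    ∃ l : M →ₗ[k] k, ∀ p, l (v p) = c p := by
  obtain ⟨l, hl⟩ := LinearMap.exists_extend
    ((Finsupp.linearCombination k c).comp hv.repr : Submodule.span k (Set.range v) →ₗ[k] k)
  refine ⟨l, fun p => ?_⟩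
  have hp : v p ∈ Submodule.span k (Set.range v) := Submodule.subset_span ⟨p, rfl⟩
  have h1 := LinearMap.congr_fun hl ⟨v p, hp⟩
  rw [LinearMap.comp_apply, Submodule.subtype_apply] at h1
  rw [h1, LinearMap.comp_apply, hv.repr_eq_single p ⟨v p, hp⟩ rfl,
    Finsupp.linearCombination_single, one_smul]

theorem exists_generic.{u} {k : Type u} [Field k] {G : Type} [Group G] [MulSemiringAction G k]
    {M : Type u} [AddCommGroup M] [Module k M] (ρ : G → M →+ M) (h1 : ∀ m, ρ 1 m = m)
    (hmul : ∀ g h m, ρ (g * h) m = ρ g (ρ h m))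
    (hs : ∀ (g : G) (s : k) (m : M), ρ g (s • m) = (g • s) • ρ g m) :
    ∃ (k' : Type u) (_ : Field k') (_ : MulSemiringAction G k') (j : k →+* k') (θ : M →+ k'),
      (∀ (g : G) (s : k), j (g • s) = g • j s) ∧ (∀ (s : k) (m : M), θ (s • m) = j s * θ m) ∧
      (∀ (g : G) (m : M), θ (ρ g m) = g • θ m) ∧
      ∀ (ι : Type) [Fintype ι] [DecidableEq ι] (m : ι → ι → M),
        LinearIndependent k (fun p : ι × ι => m p.1 p.2) →
          Matrix.det (Matrix.of fun i j => θ (m i j)) ≠ 0 := by
  classical
  obtain ⟨β, B, -⟩ : ∃ (β : Type u) (_ : Module.Basis β k M), True :=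
    ⟨_, Module.Basis.ofVectorSpace k M, trivial⟩
  obtain ⟨lin, hlin⟩ : ∃ lin : M →ₗ[k] MvPolynomial β k, ∀ b, lin (B b) = MvPolynomial.X b :=
    ⟨B.constr k MvPolynomial.X, fun b => B.constr_basis k _ b⟩
  have hlins : ∀ (s : k) (m : M), lin (s • m) = MvPolynomial.C s * lin m := fun s m => by
    rw [map_smul, MvPolynomial.smul_eq_C_mul]
  obtain ⟨σ, hσC, hσX⟩ : ∃ σ : G → (MvPolynomial β k →+* MvPolynomial β k),
      (∀ g s, σ g (MvPolynomial.C s) = MvPolynomial.C (g • s)) ∧
      ∀ g b, σ g (MvPolynomial.X b) = lin (ρ g (B b)) :=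
    ⟨fun g => MvPolynomial.eval₂Hom (MvPolynomial.C.comp (MulSemiringAction.toRingHom G k g))
      (fun b => lin (ρ g (B b))), fun g s => by
        rw [MvPolynomial.eval₂Hom_C]
        rfl, fun g b => MvPolynomial.eval₂Hom_X' _ _ _⟩
  have hσl : ∀ g m, σ g (lin m) = lin (ρ g m) := by
    intro g m
    have hm : m ∈ Submodule.span k (Set.range B) := by
      rw [B.span_eq]
      trivial
    induction hm using Submodule.span_induction with
    | mem x hx =>
      obtain ⟨b, rfl⟩ := hx
      rw [hlin, hσX]
    | zero => rw [map_zero, map_zero, map_zero, map_zero]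
    | add x y _ _ hx hy => rw [map_add, map_add, hx, hy, map_add, map_add]
    | smul a x _ hx => rw [hlins, map_mul, hσC, hx, hs, hlins]
  have hσ1 : ∀ x, σ 1 x = x := by
    intro x
    have h : σ 1 = RingHom.id _ := by
      refine MvPolynomial.ringHom_ext (fun s => ?_) fun b => ?_
      · rw [hσC, one_smul, RingHom.id_apply]
      · rw [hσX, h1, hlin, RingHom.id_apply]
    rw [h, RingHom.id_apply]
  have hσm : ∀ g g' x, σ (g * g') x = σ g (σ g' x) := by
    intro g g' x
    have h : σ (g * g') = (σ g).comp (σ g') := by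
      refine MvPolynomial.ringHom_ext (fun s => ?_) fun b => ?_
      · rw [hσC, RingHom.comp_apply, hσC, hσC, mul_smul]
      · rw [hσX, RingHom.comp_apply, hσX, hσl, hmul]
    rw [h, RingHom.comp_apply]
  obtain ⟨e, he⟩ : ∃ e : G → (MvPolynomial β k ≃+* MvPolynomial β k), ∀ g x, e g x = σ g x :=
    ⟨fun g => RingEquiv.ofRingHom (σ g) (σ g⁻¹) (RingHom.ext fun x => by
        rw [RingHom.comp_apply, ← hσm, mul_inv_cancel, hσ1, RingHom.id_apply]) (RingHom.ext fun x => by
        rw [RingHom.comp_apply, ← hσm, inv_mul_cancel, hσ1, RingHom.id_apply]),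
      fun g x => rfl⟩
  obtain ⟨τ, hτ⟩ : ∃ τ : G → (FractionRing (MvPolynomial β k) →+* FractionRing (MvPolynomial β k)),
      ∀ g x, τ g (algebraMap (MvPolynomial β k) _ x) = algebraMap (MvPolynomial β k) _ (σ g x) :=
    ⟨fun g => (IsFractionRing.ringEquivOfRingEquiv (e g)).toRingHom, fun g x => by
      rw [← he]
      exact IsFractionRing.ringEquivOfRingEquiv_algebraMap (e g) x⟩
  have hτ1 : ∀ x, τ 1 x = x := by
    intro x
    have h : τ 1 = RingHom.id _ := by
      refine IsLocalization.ringHom_ext (nonZeroDivisors (MvPolynomial β k)) ?_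
      refine RingHom.ext fun y => ?_
      rw [RingHom.comp_apply, RingHom.comp_apply, hτ, hσ1, RingHom.id_apply]
    rw [h, RingHom.id_apply]
  have hτm : ∀ g g' x, τ (g * g') x = τ g (τ g' x) := by
    intro g g' x
    have h : τ (g * g') = (τ g).comp (τ g') := by
      refine IsLocalization.ringHom_ext (nonZeroDivisors (MvPolynomial β k)) ?_
      refine RingHom.ext fun y => ?_
      rw [RingHom.comp_apply, RingHom.comp_apply, RingHom.comp_apply, hτ, hτ, hτ, hσm]
    rw [h, RingHom.comp_apply]
  refine ⟨FractionRing (MvPolynomial β k), inferInstance,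
    { smul := fun g x => τ g x
      one_smul := hτ1
      mul_smul := hτm
      smul_zero := fun g => map_zero (τ g)
      smul_add := fun g => map_add (τ g)
      smul_one := fun g => map_one (τ g)
      smul_mul := fun g => map_mul (τ g) },
    (algebraMap (MvPolynomial β k) _).comp MvPolynomial.C,
    (algebraMap (MvPolynomial β k) (FractionRing (MvPolynomial β k))).toAddMonoidHom.comp
      lin.toAddMonoidHom, ?_, ?_, ?_, ?_⟩
  · intro g s
    show algebraMap (MvPolynomial β k) _ (MvPolynomial.C (g • s)) =
      τ g (algebraMap (MvPolynomial β k) _ (MvPolynomial.C s))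
    rw [hτ, hσC]
  · intro s m
    show algebraMap (MvPolynomial β k) _ (lin (s • m)) =
      algebraMap (MvPolynomial β k) _ (MvPolynomial.C s) * algebraMap (MvPolynomial β k) _ (lin m)
    rw [hlins, map_mul]
  · intro g m
    show algebraMap (MvPolynomial β k) _ (lin (ρ g m)) =
      τ g (algebraMap (MvPolynomial β k) _ (lin m))
    rw [hτ, hσl]
  · intro ι _ _ m hm
    obtain ⟨l, hl⟩ := x1_functional (fun p : ι × ι => m p.1 p.2) hm
      (fun p => if p.1 = p.2 then 1 else 0)
    have hal : ∀ x, MvPolynomial.aeval (fun b => l (B b)) (lin x) = l x := by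
      have h : (MvPolynomial.aeval (R := k) (fun b => l (B b))).toLinearMap ∘ₗ lin = l := by
        refine B.ext fun b => ?_
        rw [LinearMap.comp_apply, hlin, AlgHom.toLinearMap_apply, MvPolynomial.aeval_X]
      intro x
      exact LinearMap.congr_fun h x
    have hP : Matrix.det (Matrix.of fun i j => lin (m i j)) ≠ 0 := by
      intro h0
      have h2 := congrArg (MvPolynomial.aeval (R := k) (fun b => l (B b))) h0
      rw [AlgHom.map_det, map_zero] at h2
      have h3 : (MvPolynomial.aeval (R := k) (fun b => l (B b))).mapMatrix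
          (Matrix.of fun i j => lin (m i j)) = (1 : Matrix ι ι k) := by
        ext i j
        rw [AlgHom.mapMatrix_apply, Matrix.map_apply, Matrix.of_apply, hal, hl (i, j),
          Matrix.one_apply]
      rw [h3, Matrix.det_one] at h2
      exact one_ne_zero h2
    have h4 : (Matrix.of fun i j => ((algebraMap (MvPolynomial β k)
        (FractionRing (MvPolynomial β k))).toAddMonoidHom.comp lin.toAddMonoidHom) (m i j)) =
        (algebraMap (MvPolynomial β k) (FractionRing (MvPolynomial β k))).mapMatrix
          (Matrix.of fun i j => lin (m i j)) := by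
      ext i j
      rfl
    rw [h4, ← RingHom.map_det]
    intro h5
    exact hP ((IsFractionRing.injective (MvPolynomial β k) (FractionRing (MvPolynomial β k)))
      (h5.trans (map_zero _).symm))

end PrimRank
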