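import Pool.Agent.Lib.MP_b8b21d_al.SK.A1
import Pool.Agent.Lib.MP_b8b21d_al.SK.X1

/-!
Generic annihilated vectors for two proper left ideals.

PROOF. Let `N₁ = R ⧸ I₁`, `N₂ = R ⧸ I₂` with the class `v` of `1` (nonzero), `M = (Fin n → N₁) × (Fin n → N₂)`
(`Type u`; `k`-module structure on the quotients from `R`-modules: `Submodule.Quotient.module'` or
`Module.compHom`; or put the `k`-structure by `s • x = (s • 1 : R) • x`), `ρ g` = action of `u g` in each
component: semilinear, `u g * (s • 1) = (g • s) • u g`. Apply `exists_generic` and put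
`ψ i = θ (Pi.single i v, 0)`, `φ i = θ (0, Pi.single i v)`. They are nonzero (determinant for `ι = Unit`; if
`n = 0` nothing to do). For `f = ∑ s_g u g`: `∑ j (s_g) * g • ψ i = θ (Pi.single i (f • v), 0)`, zero for
`f ∈ I₁`.
LAST PART (for `I₁`). Let `f = ∑ s_g u g ∈ I₁` with `#supp ≤ n`, and `∑_g j (s_g) χ g (g • ψ i) = 0` for all
`i`. Let `V` be the span of the `u g • v`, `g ∈ supp f`, in `N₁`, with a basis `u_1..u_s`, `s ≤ n`, taken from this
family: there are `g_1..g_s ∈ supp f` with `u_t = u (g_t) • v`, and `u g • v = ∑_t c_{g t} u_t`, `c_{g t} ∈ k`. So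
`∑_t (∑_g j (s_g) χ g j (c_{g t})) θ (e_i (u_t)) = 0` for all `i`, where `e_i (u) = (Pi.single i u, 0)`; the
family `e_i (u_t)`, `i, t < s`, is linearly independent, so the determinant of the matrix `θ (e_i (u_t))` is not
zero and `∑_g j (s_g) χ g j (c_{g t}) = 0` for all `t` (`Matrix.eq_zero_of_mulVec_eq_zero`). With
`y_g = u g - ∑_t c_{g t} u (g_t) ∈ I₁` the function `g ↦ j (s_g) χ g` is
`∑_g j (s_g) χ g * (coefficients of y_g)`.
-/

namespace PrimRank

private theorem X2_one.{u} {k : Type u} [Field k] {G : Type} [Group G] [MulSemiringAction G k]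
    {R : Type u} [Ring R] [Module k R] [IsScalarTower k R R] (S : Skew k G R)
    {N : Type u} [AddCommGroup N] [Module k N] (q : R →ₗ[k] N)
    (I : Submodule R R) (hI : I ≠ ⊤) (hq : ∀ f, q f = 0 ↔ f ∈ I)
    {k' : Type u} [Field k'] [MulSemiringAction G k'] (j : k →+* k') (n : ℕ)
    (Θ : Fin n → N →+ k') (hΘs : ∀ i (s : k) (m : N), Θ i (s • m) = j s * Θ i m)
    (hΘg : ∀ i (g : G) (x : R), Θ i (q (S.u g * x)) = g • Θ i (q x))
    (hdet : ∀ (ι : Type) [Fintype ι] [DecidableEq ι] (a : ι → Fin n) (m : ι → N),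
      Function.Injective a → LinearIndependent k m →
        Matrix.det (Matrix.of fun i t => Θ (a i) (m t)) ≠ 0) :
    (∀ i, Θ i (q 1) ≠ 0) ∧
      (∀ i, ∀ f ∈ I, ((S.basis.repr f).sum fun g s => j s * (g • Θ i (q 1))) = 0) ∧
      (∀ f ∈ I, (S.basis.repr f).support.card ≤ n → ∀ χ : G → k',
        (∀ i, ((S.basis.repr f).sum fun g s => j s * χ g * (g • Θ i (q 1))) = 0) →
          (fun g => j (S.basis.repr f g) * χ g) ∈
            Submodule.span k' {F : G → k' | ∃ y ∈ I, F = fun g => j (S.basis.repr y g)}) := by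
  classical
  have hv : q 1 ≠ 0 := by
    intro h
    rw [hq] at h
    exact hI ((Ideal.eq_top_iff_one I).2 h)
  have hu : ∀ i (g : G), Θ i (q (S.u g)) = g • Θ i (q 1) := by
    intro i g
    have h := hΘg i g 1
    rwa [mul_one] at h
  refine ⟨?_, ?_, ?_⟩
  · intro i h
    have h1 := hdet Unit (fun _ => i) (fun _ => q 1) (fun _ _ _ => rfl)
      (LinearIndependent.of_subsingleton () hv)
    rw [Matrix.det_unique, Matrix.of_apply] at h1
    exact h1 h
  · intro i f hf
    have key : ∀ x : R, ((S.basis.repr x).sum fun g s => j s * (g • Θ i (q 1))) = Θ i (q x) := by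
      intro x
      induction x using S.induction_on with
      | h0 => rw [map_zero, Finsupp.sum_zero_index, map_zero, map_zero]
      | hadd x y hx hy =>
        rw [map_add, Finsupp.sum_add_index' (fun g => by rw [map_zero, zero_mul])
          (fun g a b => by rw [map_add, add_mul]), hx, hy, map_add, map_add]
      | hs s g =>
        rw [S.repr_smul_u, Finsupp.sum_single_index (by rw [map_zero, zero_mul]), map_smul, hΘs, hu]
    rw [key, (hq f).2 hf, map_zero]
  · intro f hf hcard χ hχ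
    set T : Finset G := (S.basis.repr f).support with hT
    obtain ⟨κ, a, ha, hspan, hli⟩ := exists_linearIndependent' k (fun g : T => q (S.u (g : G)))
    have : Finite κ := Finite.of_injective a ha
    let _ : Fintype κ := Fintype.ofFinite κ
    have hcκ : Fintype.card κ ≤ Fintype.card (Fin n) := by
      rw [Fintype.card_fin]
      refine le_trans (Fintype.card_le_of_injective a ha) ?_
      rw [Fintype.card_coe]
      exact hcard
    obtain ⟨b⟩ := Function.Embedding.nonempty_of_card_le hcκ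
    have hc : ∀ g : T, ∃ c : κ → k, ∑ t, c t • q (S.u (a t : G)) = q (S.u (g : G)) := by
      intro g
      have h1 : q (S.u (g : G)) ∈ Submodule.span k (Set.range (fun g : T => q (S.u (g : G)))) :=
        Submodule.subset_span ⟨g, rfl⟩
      rw [← hspan] at h1
      exact (Submodule.mem_span_range_iff_exists_fun k).1 h1
    choose c hc using hc
    have hdet1 := hdet κ b (fun t => q (S.u (a t : G))) b.injective hli
    set w : κ → k' := fun t => ∑ g : T, j (S.basis.repr f g) * χ g * j (c g t) with hw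
    have hw0 : w = 0 := by
      refine Matrix.eq_zero_of_mulVec_eq_zero hdet1 ?_
      funext i
      have h1 := hχ (b i)
      rw [Finsupp.sum, ← hT, ← Finset.sum_coe_sort] at h1
      rw [Pi.zero_apply, ← h1, Matrix.mulVec, dotProduct]
      have h2 : ∀ g : T, j (S.basis.repr f g) * χ g * ((g : G) • Θ (b i) (q 1)) =
          ∑ t, Θ (b i) (q (S.u (a t : G))) * (j (S.basis.repr f g) * χ g * j (c g t)) := by
        intro g
        rw [← hu, ← hc g, map_sum, Finset.mul_sum]
        refine Finset.sum_congr rfl fun t _ => ?_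
        rw [hΘs]
        ring
      rw [Finset.sum_congr rfl fun g _ => h2 g, Finset.sum_comm]
      refine Finset.sum_congr rfl fun t _ => ?_
      rw [Matrix.of_apply, hw, Finset.mul_sum]
    have hy : ∀ g : T, S.u (g : G) - ∑ t, c g t • S.u (a t : G) ∈ I := by
      intro g
      rw [← hq, map_sub, map_sum, ← hc g, sub_eq_zero]
      refine Finset.sum_congr rfl fun t _ => ?_
      rw [map_smul]
    have hF : (fun g => j (S.basis.repr f g) * χ g) =
        ∑ g : T, (j (S.basis.repr f g) * χ g) •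
          (fun h => j (S.basis.repr (S.u (g : G) - ∑ t, c g t • S.u (a t : G)) h)) := by
      funext h
      rw [Finset.sum_apply]
      have h1 : ∀ g : T, ((j (S.basis.repr f g) * χ g) •
          (fun h => j (S.basis.repr (S.u (g : G) - ∑ t, c g t • S.u (a t : G)) h))) h =
          (if (g : G) = h then j (S.basis.repr f g) * χ g else 0) -
            ∑ t, (j (S.basis.repr f g) * χ g * j (c g t)) *
              (if (a t : G) = h then 1 else 0) := by
        intro g
        rw [Pi.smul_apply, smul_eq_mul, map_sub, Finsupp.sub_apply, map_sub, mul_sub, S.repr_u,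
          map_sum, Finsupp.finsetSum_apply, map_sum, Finset.mul_sum, Finsupp.single_apply]
        congr 1
        · by_cases e : (g : G) = h
          · rw [if_pos e, if_pos e, map_one, mul_one]
          · rw [if_neg e, if_neg e, map_zero, mul_zero]
        · refine Finset.sum_congr rfl fun t _ => ?_
          rw [S.repr_smul_u, Finsupp.single_apply]
          by_cases e : (a t : G) = h
          · rw [if_pos e, if_pos e, mul_one]
          · rw [if_neg e, if_neg e, map_zero, mul_zero, mul_zero]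
      rw [Finset.sum_congr rfl fun g _ => h1 g, Finset.sum_sub_distrib, Finset.sum_comm]
      have h2 : ∑ t, ∑ g : T, (j (S.basis.repr f g) * χ g * j (c g t)) *
          (if (a t : G) = h then (1 : k') else 0) = 0 := by
        refine Finset.sum_eq_zero fun t _ => ?_
        rw [← Finset.sum_mul]
        have h3 : ∑ g : T, j (S.basis.repr f g) * χ g * j (c g t) = 0 := congrFun hw0 t
        rw [h3, zero_mul]
      rw [h2, sub_zero]
      rw [Finset.sum_coe_sort T
        (fun g : G => if g = h then j (S.basis.repr f g) * χ g else 0), Finset.sum_ite_eq']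
      by_cases e : h ∈ T
      · rw [if_pos e]
      · rw [if_neg e]
        have h4 : S.basis.repr f h = 0 := by
          rw [hT, Finsupp.notMem_support_iff] at e
          exact e
        rw [h4, map_zero, zero_mul]
    rw [hF]
    refine Submodule.sum_mem _ fun g _ => Submodule.smul_mem _ _ (Submodule.subset_span ?_)
    exact ⟨_, hy g, rfl⟩

theorem exists_ext.{u} {k : Type u} [Field k] {G : Type} [Group G] [MulSemiringAction G k]
    {R : Type u} [Ring R] [Module k R] [IsScalarTower k R R] (S : Skew k G R)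
    (I₁ I₂ : Submodule R R) (h₁ : I₁ ≠ ⊤) (h₂ : I₂ ≠ ⊤) (n : ℕ) :
    ∃ (k' : Type u) (_ : Field k') (_ : MulSemiringAction G k') (j : k →+* k') (ψ φ : Fin n → k'),
      (∀ (g : G) (s : k), j (g • s) = g • j s) ∧ (∀ i, ψ i ≠ 0) ∧ (∀ i, φ i ≠ 0) ∧
      (∀ i, ∀ f ∈ I₁, ((S.basis.repr f).sum fun g s => j s * (g • ψ i)) = 0) ∧
      (∀ i, ∀ f ∈ I₂, ((S.basis.repr f).sum fun g s => j s * (g • φ i)) = 0) ∧
      (∀ f ∈ I₁, (S.basis.repr f).support.card ≤ n → ∀ χ : G → k',
        (∀ i, ((S.basis.repr f).sum fun g s => j s * χ g * (g • ψ i)) = 0) →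
          (fun g => j (S.basis.repr f g) * χ g) ∈
            Submodule.span k' {F : G → k' | ∃ y ∈ I₁, F = fun g => j (S.basis.repr y g)}) ∧
      (∀ f ∈ I₂, (S.basis.repr f).support.card ≤ n → ∀ χ : G → k',
        (∀ i, ((S.basis.repr f).sum fun g s => j s * χ g * (g • φ i)) = 0) →
          (fun g => j (S.basis.repr f g) * χ g) ∈
            Submodule.span k' {F : G → k' | ∃ y ∈ I₂, F = fun g => j (S.basis.repr y g)}) := by
  classical
  let M := (Fin n → R ⧸ I₁) × (Fin n → R ⧸ I₂)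
  let ρ : G → M →+ M := fun g => DistribSMul.toAddMonoidHom M (S.u g)
  have hρ : ∀ g (m : M), ρ g m = S.u g • m := fun g m => rfl
  obtain ⟨k', hk', hG', j, θ, hj, hθs, hθg, hθd⟩ := exists_generic (k := k) (G := G) (M := M) ρ
    (fun m => by rw [hρ, map_one, one_smul])
    (fun g h m => by rw [hρ, hρ, hρ, map_mul, mul_smul])
    (fun g s m => by
      rw [hρ, hρ]
      have h1 : s • m = (s • (1 : R)) • m := by rw [smul_assoc, one_smul]
      rw [h1, ← mul_smul, S.comm, smul_assoc])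
  let q₁ : R →ₗ[k] R ⧸ I₁ := (I₁.mkQ).restrictScalars k
  let q₂ : R →ₗ[k] R ⧸ I₂ := (I₂.mkQ).restrictScalars k
  let Θ₁ : Fin n → (R ⧸ I₁) →+ k' := fun i =>
    θ.comp ((AddMonoidHom.inl (Fin n → R ⧸ I₁) (Fin n → R ⧸ I₂)).comp
      (AddMonoidHom.single (fun _ : Fin n => R ⧸ I₁) i))
  let Θ₂ : Fin n → (R ⧸ I₂) →+ k' := fun i =>
    θ.comp ((AddMonoidHom.inr (Fin n → R ⧸ I₁) (Fin n → R ⧸ I₂)).comp
      (AddMonoidHom.single (fun _ : Fin n => R ⧸ I₂) i))
  have hΘ₁ : ∀ i m, Θ₁ i m = θ (Pi.single i m, 0) := fun i m => rfl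
  have hΘ₂ : ∀ i m, Θ₂ i m = θ (0, Pi.single i m) := fun i m => rfl
  have hs₁ : ∀ i (s : k) (m : R ⧸ I₁), Θ₁ i (s • m) = j s * Θ₁ i m := by
    intro i s m
    rw [hΘ₁, hΘ₁, ← hθs, Prod.smul_mk, smul_zero, Pi.single_smul]
  have hs₂ : ∀ i (s : k) (m : R ⧸ I₂), Θ₂ i (s • m) = j s * Θ₂ i m := by
    intro i s m
    rw [hΘ₂, hΘ₂, ← hθs, Prod.smul_mk, smul_zero, Pi.single_smul]
  have hg₁ : ∀ i (g : G) (x : R), Θ₁ i (q₁ (S.u g * x)) = g • Θ₁ i (q₁ x) := by
    intro i g x
    have h1 : q₁ (S.u g * x) = S.u g • q₁ x := rfl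
    rw [hΘ₁, hΘ₁, ← hθg, hρ, Prod.smul_mk, smul_zero, h1, Pi.single_smul]
  have hg₂ : ∀ i (g : G) (x : R), Θ₂ i (q₂ (S.u g * x)) = g • Θ₂ i (q₂ x) := by
    intro i g x
    have h1 : q₂ (S.u g * x) = S.u g • q₂ x := rfl
    rw [hΘ₂, hΘ₂, ← hθg, hρ, Prod.smul_mk, smul_zero, h1, Pi.single_smul]
  have hd₁ : ∀ (ι : Type) [Fintype ι] [DecidableEq ι] (a : ι → Fin n) (m : ι → R ⧸ I₁),
      Function.Injective a → LinearIndependent k m →
        Matrix.det (Matrix.of fun i t => Θ₁ (a i) (m t)) ≠ 0 := by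
    intro ι _ _ a m ha hm
    refine hθd ι (fun i t => (Pi.single (a i) (m t), 0)) ?_
    have h1 := Pi.linearIndependent_single (R := k) (η := Fin n) (ιs := fun _ => ι)
      (Ms := fun _ => R ⧸ I₁) (fun _ => m) (fun _ => hm)
    have h2 : LinearIndependent k (fun p : ι × ι =>
        (Pi.single (a p.1) (m p.2) : Fin n → R ⧸ I₁)) :=
      h1.comp (fun p : ι × ι => (⟨a p.1, p.2⟩ : (_ : Fin n) × ι)) (by
        rintro ⟨i, t⟩ ⟨i', t'⟩ h
        have e := Sigma.mk.inj h
        exact Prod.ext (ha e.1) (eq_of_heq e.2))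
    exact h2.map' (LinearMap.inl k (Fin n → R ⧸ I₁) (Fin n → R ⧸ I₂)) (LinearMap.ker_eq_bot.2 LinearMap.inl_injective)
  have hd₂ : ∀ (ι : Type) [Fintype ι] [DecidableEq ι] (a : ι → Fin n) (m : ι → R ⧸ I₂),
      Function.Injective a → LinearIndependent k m →
        Matrix.det (Matrix.of fun i t => Θ₂ (a i) (m t)) ≠ 0 := by
    intro ι _ _ a m ha hm
    refine hθd ι (fun i t => (0, Pi.single (a i) (m t))) ?_
    have h1 := Pi.linearIndependent_single (R := k) (η := Fin n) (ιs := fun _ => ι)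
      (Ms := fun _ => R ⧸ I₂) (fun _ => m) (fun _ => hm)
    have h2 : LinearIndependent k (fun p : ι × ι =>
        (Pi.single (a p.1) (m p.2) : Fin n → R ⧸ I₂)) :=
      h1.comp (fun p : ι × ι => (⟨a p.1, p.2⟩ : (_ : Fin n) × ι)) (by
        rintro ⟨i, t⟩ ⟨i', t'⟩ h
        have e := Sigma.mk.inj h
        exact Prod.ext (ha e.1) (eq_of_heq e.2))
    exact h2.map' (LinearMap.inr k (Fin n → R ⧸ I₁) (Fin n → R ⧸ I₂)) (LinearMap.ker_eq_bot.2 LinearMap.inr_injective)
  have hq₁ : ∀ f, q₁ f = 0 ↔ f ∈ I₁ := fun f => Submodule.Quotient.mk_eq_zero I₁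
  have hq₂ : ∀ f, q₂ f = 0 ↔ f ∈ I₂ := fun f => Submodule.Quotient.mk_eq_zero I₂
  obtain ⟨a1, a2, a3⟩ := X2_one S q₁ I₁ h₁ hq₁ j n Θ₁ hs₁ hg₁ hd₁
  obtain ⟨b1, b2, b3⟩ := X2_one S q₂ I₂ h₂ hq₂ j n Θ₂ hs₂ hg₂ hd₂
  exact ⟨k', hk', hG', j, fun i => Θ₁ i (q₁ 1), fun i => Θ₂ i (q₂ 1), hj, a1, b1, a2, b2, a3, b3⟩

end PrimRank
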