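import Pool.Agent.Lib.MP_b8b21d_al.SK.A2

/-!
Extension of scalars in skew group rings.

PROOF. `κ x = ∑ j (s_g) • u' g` for `x = ∑ s_g u g`, i.e. `κ = S'.basis.repr.symm ∘ Finsupp.mapRange j ∘ S.basis.repr`,
additive; multiplicative by `smul_mul_smul'` on the elements `s • u g`.
-/

namespace PrimRank

namespace Skew

variable {k G R : Type*} [Field k] [Group G] [MulSemiringAction G k] [Ring R] [Module k R]
  [IsScalarTower k R R] (S : Skew k G R) {k' R' : Type*} [Field k'] [MulSemiringAction G k']
  [Ring R'] [Module k' R'] [IsScalarTower k' R' R'] (S' : Skew k' G R')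

theorem exists_map (j : k →+* k') (hj : ∀ (g : G) (s : k), j (g • s) = g • j s) :
    ∃ κ : R →+* R', (∀ g, κ (S.u g) = S'.u g) ∧
      (∀ x g, S'.basis.repr (κ x) g = j (S.basis.repr x g)) ∧
      (∀ (s : k) (x : R), κ (s • x) = j s • κ x) ∧
      ∀ x, κ (S.anti x) = S'.anti (κ x) := by
  let K : R →+ R' := (S'.basis.repr.symm.toLinearMap.toAddMonoidHom).comp
    ((Finsupp.mapRange.addMonoidHom j.toAddMonoidHom).comp
      S.basis.repr.toLinearMap.toAddMonoidHom)
  have hK : ∀ x g, S'.basis.repr (K x) g = j (S.basis.repr x g) := by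
    intro x g
    change S'.basis.repr (S'.basis.repr.symm _) g = _
    rw [LinearEquiv.apply_symm_apply]
    rfl
  have hKu : ∀ (s : k) (g : G), K (s • S.u g) = j s • S'.u g := by
    intro s g
    refine S'.ext_coeff fun h => ?_
    rw [hK, S.repr_smul_u, S'.repr_smul_u]
    by_cases e : g = h
    · subst e
      rw [Finsupp.single_eq_same, Finsupp.single_eq_same]
    · rw [Finsupp.single_eq_of_ne' e, Finsupp.single_eq_of_ne' e, map_zero]
  have hKg : ∀ g : G, K (S.u g) = S'.u g := by
    intro g
    have h := hKu 1 g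
    rwa [one_smul, map_one, one_smul] at h
  have hK1 : K 1 = 1 := by
    have h := hKg 1
    rwa [S.u.map_one, S'.u.map_one] at h
  have hKmul : ∀ x y, K (x * y) = K x * K y := by
    intro x y
    refine S.induction_on (p := fun x => K (x * y) = K x * K y) x ?_ ?_ ?_
    · rw [zero_mul, map_zero, zero_mul]
    · intro x x' hx hx'
      rw [add_mul, map_add, hx, hx', map_add, add_mul]
    · intro s g
      refine S.induction_on (p := fun y => K ((s • S.u g) * y) = K (s • S.u g) * K y) y ?_ ?_ ?_
      · rw [mul_zero, map_zero, mul_zero]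
      · intro y y' hy hy'
        rw [mul_add, map_add, hy, hy', map_add, mul_add]
      · intro t h
        rw [S.smul_mul_smul', hKu, hKu, hKu, S'.smul_mul_smul', map_mul, hj]
  have hKs : ∀ (s : k) (x : R), K (s • x) = j s • K x := by
    intro s x
    refine S'.ext_coeff fun g => ?_
    rw [hK, map_smul, map_smul, Finsupp.smul_apply, Finsupp.smul_apply, hK, smul_eq_mul,
      smul_eq_mul, map_mul]
  have hKa : ∀ x, K (S.anti x) = S'.anti (K x) := by
    intro x
    refine S.induction_on (p := fun x => K (S.anti x) = S'.anti (K x)) x ?_ ?_ ?_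
    · rw [S.anti_zero, map_zero, S'.anti_zero]
    · intro x x' hx hx'
      rw [S.anti_add, map_add, hx, hx', map_add, S'.anti_add]
    · intro s g
      rw [S.anti_smul_u, hKu, hKu, S'.anti_smul_u, hj]
  exact ⟨RingHom.mk' { toFun := K, map_one' := hK1, map_mul' := hKmul } K.map_add, hKg, hK, hKs,
    hKa⟩

end Skew

end PrimRank
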