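import Pool.Agent.Lib.MP_b8b21d_al.SK.I1
import Pool.Agent.Lib.MP_b8b21d_al.SK.X2
import Pool.Agent.Lib.MP_b8b21d_al.SK.X3
import Pool.Agent.Lib.MP_b8b21d_al.SK.D2
import Pool.Agent.Lib.MP_b8b21d_al.SK.C1
import Pool.Agent.Lib.MP_b8b21d_al.SK.C2
import Pool.Agent.Lib.MP_b8b21d_al.SK.K2

/-!
The main theorem over skew group rings.
-/

namespace PrimRank

section ext

variable {k G R : Type*} [Field k] [Group G] [MulSemiringAction G k] [Ring R] [Module k R]
  [IsScalarTower k R R] (S : Skew k G R) {k' R' : Type*} [Field k'] [MulSemiringAction G k']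
  [Ring R'] [Module k' R'] [IsScalarTower k' R' R'] (S' : Skew k' G R')

theorem m1_ev_map (j : k →+* k') (κ : R →+* R')
    (hκ : ∀ x g, S'.basis.repr (κ x) g = j (S.basis.repr x g)) (χ : G → k') (x : R) :
    S'.ev χ (κ x) = (S.basis.repr x).sum fun g s => j s * χ g := by
  have h : S'.basis.repr (κ x) = Finsupp.mapRange j (map_zero j) (S.basis.repr x) := by
    ext g
    rw [hκ, Finsupp.mapRange_apply]
  unfold Skew.ev
  rw [h, Finsupp.sum_mapRange_index]
  intro g
  rw [zero_mul]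

theorem m1_span_map (κ : R →+* R') {m : ℕ} (b : Fin m → R) (y : R)
    (hy : y ∈ Submodule.span R (Set.range b)) :
    κ y ∈ Submodule.span R' (Set.range fun l => κ (b l)) := by
  rw [Submodule.mem_span_range_iff_exists_fun] at hy ⊢
  obtain ⟨c, rfl⟩ := hy
  refine ⟨fun l => κ (c l), ?_⟩
  rw [map_sum]
  exact Finset.sum_congr rfl fun l _ => (map_mul κ _ _).symm

theorem m1_had (j : k →+* k') (κ : R →+* R')
    (hκ : ∀ x g, S'.basis.repr (κ x) g = j (S.basis.repr x g)) {m : ℕ} (b : Fin m → R)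
    (f : R) (χ : G → k')
    (h : (fun g => j (S.basis.repr f g) * χ g) ∈ Submodule.span k' {F : G → k' |
      ∃ y ∈ Submodule.span R (Set.range b), F = fun g => j (S.basis.repr y g)}) :
    S'.had χ (κ f) ∈ Submodule.span R' (Set.range fun l => κ (b l)) := by
  have key : ∀ F ∈ Submodule.span k' {F : G → k' |
      ∃ y ∈ Submodule.span R (Set.range b), F = fun g => j (S.basis.repr y g)},
      ∃ z ∈ Submodule.span R' (Set.range fun l => κ (b l)), ∀ g, S'.basis.repr z g = F g := by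
    intro F hF
    induction hF using Submodule.span_induction with
    | mem F hF =>
      obtain ⟨y, hy, rfl⟩ := hF
      exact ⟨κ y, m1_span_map κ b y hy, fun g => hκ y g⟩
    | zero => exact ⟨0, Submodule.zero_mem _, fun g => by simp⟩
    | add F F' _ _ hF hF' =>
      obtain ⟨z, hz, hz1⟩ := hF
      obtain ⟨z', hz', hz1'⟩ := hF'
      refine ⟨z + z', Submodule.add_mem _ hz hz', fun g => ?_⟩
      rw [map_add, Finsupp.add_apply, hz1, hz1']
      rfl
    | smul c F _ hF =>
      obtain ⟨z, hz, hz1⟩ := hF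
      refine ⟨c • z, ?_, fun g => ?_⟩
      · have h1 : c • z = (c • (1 : R')) • z := by
          rw [smul_eq_mul, smul_mul_assoc, one_mul]
        rw [h1]
        exact Submodule.smul_mem _ _ hz
      · rw [map_smul, Finsupp.smul_apply, hz1]
        rfl
  obtain ⟨z, hz, hz1⟩ := key _ h
  have h2 : S'.had χ (κ f) = z := by
    refine S'.ext_coeff fun g => ?_
    rw [S'.repr_had, hz1, hκ]
  rw [h2]
  exact hz

end ext

theorem primRank_le_of_min.{u} {α : Type} [Finite α] {w : FreeGroup α} {m : ℕ}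
    (h : AnyPP.{u} w m) (hmin : ∀ s, AnyPP.{u} w s → m ≤ s) : primRank w ≤ (m : ℕ∞) := by
  obtain ⟨k, _, _, R, _, _, _, S, a, b, hab, hb, ha⟩ := h
  have hI₁ : Submodule.span R (Set.range b) ≠ ⊤ := by
    intro htop
    have h1 : (1 : R) ∈ Submodule.span R (Set.range b) := by rw [htop]; trivial
    rw [Submodule.mem_span_range_iff_exists_fun] at h1
    obtain ⟨c, hc⟩ := h1
    exact hb c hc
  have hI₂ : Submodule.span R (Set.range fun i => S.anti (a i)) ≠ ⊤ := by
    intro htop
    have h1 : (1 : R) ∈ Submodule.span R (Set.range fun i => S.anti (a i)) := by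
      rw [htop]; trivial
    rw [Submodule.mem_span_range_iff_exists_fun] at h1
    obtain ⟨c, hc⟩ := h1
    apply ha fun i => S.anti (c i)
    have h2 := congrArg S.anti hc
    rw [S.anti_sum, S.anti_one] at h2
    rw [← h2]
    refine Finset.sum_congr rfl fun i _ => ?_
    rw [smul_eq_mul, S.anti_mul, S.anti_anti]
  set n : ℕ := ∑ l, (S.basis.repr (b l)).support.card +
    ∑ l, (S.basis.repr (S.anti (a l))).support.card with hn
  have hn₁ : ∀ l, (S.basis.repr (b l)).support.card ≤ n + 1 := by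
    intro l
    have h1 := Finset.single_le_sum (f := fun l => (S.basis.repr (b l)).support.card)
      (fun _ _ => Nat.zero_le _) (Finset.mem_univ l)
    omega
  have hn₂ : ∀ l, (S.basis.repr (S.anti (a l))).support.card ≤ n + 1 := by
    intro l
    have h1 := Finset.single_le_sum (f := fun l => (S.basis.repr (S.anti (a l))).support.card)
      (fun _ _ => Nat.zero_le _) (Finset.mem_univ l)
    omega
  obtain ⟨k', _, _, j, ψ, φ, hj, hψ, hφ, hkψ, hkφ, hgψ, hgφ⟩ :=
    exists_ext S _ _ hI₁ hI₂ (n + 1)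
  obtain ⟨R', _, _, _, ⟨S'⟩⟩ := exists_skew k' (FreeGroup α)
  obtain ⟨κ, hκu, hκ, hκs, hκa⟩ := S.exists_map S' j hj
  have hfac : S'.u w - 1 = ∑ i, κ (a i) * κ (b i) := by
    have h1 := congrArg κ hab
    rw [map_sub, hκu, map_one, map_sum] at h1
    rw [h1]
    exact Finset.sum_congr rfl fun i _ => map_mul κ _ _
  have hca : (fun i => S'.anti (κ (a i))) = fun i => κ (S.anti (a i)) := by
    funext i
    rw [hκa]
  have hIJ := S'.dual_of_factor (fun i => κ (a i)) (fun i => κ (b i)) hfac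
  have hJI := S'.dual_symm_of_factor (fun i => κ (a i)) (fun i => κ (b i)) hfac
  simp only [hca] at hIJ hJI
  have hmin' : ∀ s, S'.PPs w s → m ≤ s := fun s hs =>
    hmin s ⟨k', _, _, R', _, _, _, S', hs⟩
  obtain ⟨p, hp, ⟨bI⟩⟩ := S'.rank_le fun i => κ (b i)
  obtain ⟨q, hq, ⟨bJ⟩⟩ := S'.rank_le fun i => κ (S.anti (a i))
  set I : Submodule R' R' := Submodule.span R' (Set.range fun i => κ (b i)) with hI
  set J : Submodule R' R' := Submodule.span R' (Set.range fun i => κ (S.anti (a i))) with hJ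
  have hIψ : ∀ i, I ≤ S'.annS (ψ i) := by
    intro i
    rw [hI, Submodule.span_le]
    rintro _ ⟨l, rfl⟩
    show S'.act (κ (b l)) (ψ i) = 0
    unfold Skew.act
    rw [m1_ev_map S S' j κ hκ]
    exact hkψ i _ (Submodule.subset_span ⟨l, rfl⟩)
  have hJφ : ∀ i, J ≤ S'.annS (φ i) := by
    intro i
    rw [hJ, Submodule.span_le]
    rintro _ ⟨l, rfl⟩
    show S'.act (κ (S.anti (a l))) (φ i) = 0
    unfold Skew.act
    rw [m1_ev_map S S' j κ hκ]
    exact hkφ i _ (Submodule.subset_span ⟨l, rfl⟩)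
  have hwψ : ∀ i, w • ψ i = ψ i := by
    intro i
    have h1 : S'.act (S'.u w - 1) (ψ i) = 0 := hIψ i (S'.mem_of_dual hIJ)
    rw [S'.act_sub, S'.act_u, S'.act_one, sub_eq_zero] at h1
    exact h1
  have hwφ : ∀ i, w • φ i = φ i := by
    intro i
    have h1 : S'.act (S'.u w - 1) (φ i) = 0 := hJφ i (S'.mem_of_dual hJI)
    rw [S'.act_sub, S'.act_u, S'.act_one, sub_eq_zero] at h1
    exact h1
  obtain ⟨⟨bT⟩, hT1, X, hX, hXT⟩ := S'.exists_sup hmin' bI bJ hp hq hIJ hJI ψ φ hψ hφ hwψ hwφ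
    hIψ hJφ
  have hcl := S'.had_closed (fun i => κ (b i)) (fun i => κ (S.anti (a i))) ψ φ
    (fun l χ hχ => by
      refine m1_had S S' j κ hκ b (b l) χ ?_
      refine hgψ (b l) (Submodule.subset_span ⟨l, rfl⟩) (hn₁ l) χ fun i => ?_
      have h1 := hχ i
      rw [S'.ev_mul_scalar, m1_ev_map S S' j κ hκ] at h1
      simpa only [mul_assoc] using h1)
    (fun l χ hχ => by
      refine m1_had S S' j κ hκ (fun i => S.anti (a i)) (S.anti (a l)) χ ?_
      refine hgφ (S.anti (a l)) (Submodule.subset_span ⟨l, rfl⟩) (hn₂ l) χ fun i => ?_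
      have h1 := hχ i
      rw [S'.ev_mul_scalar, m1_ev_map S S' j κ hκ] at h1
      simpa only [mul_assoc] using h1)
    _ rfl
  obtain ⟨H, hH, hTH⟩ := S'.exists_subgroup _ hT1 hcl
  have hwH : w ∈ H := (hH w).2 (S'.mem_of_dual hXT)
  rw [hTH] at bT hXT
  exact S'.primRank_le_of_sub H hwH bT hX hXT

/-- The lower bound for the `K`-primitivity rank. -/
theorem primRank_le_of_anyPP.{u} {α : Type} [Finite α] {w : FreeGroup α} {m : ℕ}
    (h : AnyPP.{u} w m) : primRank w ≤ (m : ℕ∞) := by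
  classical
  have hex : ∃ s, AnyPP.{u} w s := ⟨m, h⟩
  have h1 := primRank_le_of_min (Nat.find_spec hex) fun s hs => Nat.find_min' hex hs
  exact h1.trans (by exact_mod_cast Nat.find_min' hex h)

end PrimRank
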