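import Pool.Agent.Lib.MP_b8b21d_al.SK.M1
import Pool.Agent.Lib.MP_b8b21d_al.SK.I2
import Pool.Agent.Lib.MP_b8b21d_al.HN.Q1
import Pool.Agent.Lib.MP_b8b21d_al.F1

/-!
The equality of the two primitivity ranks.
-/

namespace PrimRank

theorem kPrimRank_eq_primRank.{u} (K : Type u) [Field K] {α : Type} [Finite α]
    (w : FreeGroup α) (hle : kPrimRank K w ≤ primRank w) : kPrimRank K w = primRank w := by
  refine le_antisymm hle ?_
  by_cases htop : kPrimRank K w = ⊤
  · rw [htop]
    exact le_top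
  obtain ⟨n, hn⟩ := ENat.ne_top_iff_exists.1 htop
  have h1 : kPrimRankL K w ≤ (n : ℕ∞) := by
    rw [← kPrimRank_eq, ← hn]
  rw [← hn]
  exact primRank_le_of_anyPP (anyPP_of_PP K w n (PP_of_kPrimRankL h1))

end PrimRank
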